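import Mathlib

/-!
Finitely additive non-negative set functions vanishing on finite sets (free charges).
-/

namespace Pool.Agent.TH784.WB

open Set Filter

/-- A non-negative finitely additive set function that vanishes on finite sets. -/
structure Charge (ι : Type) where
  m : Set ι → ℝ
  nonneg : ∀ A, 0 ≤ m A
  add : ∀ A B, Disjoint A B → m (A ∪ B) = m A + m B
  fin : ∀ A, A.Finite → m A = 0

namespace Charge

variable {ι : Type} (θ : Charge ι)

theorem mono {A B : Set ι} (h : A ⊆ B) : θ.m A ≤ θ.m B := by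
  have h1 : B = A ∪ (B \ A) := by rw [union_sdiff_cancel h]
  rw [h1, θ.add A (B \ A) disjoint_sdiff_right]
  have := θ.nonneg (B \ A)
  linarith

theorem empty : θ.m ∅ = 0 := θ.fin ∅ finite_empty

theorem union_le (A B : Set ι) : θ.m (A ∪ B) ≤ θ.m A + θ.m B := by
  have h1 : A ∪ B = A ∪ (B \ A) := by rw [union_sdiff_self]
  rw [h1, θ.add A (B \ A) disjoint_sdiff_right]
  have := θ.mono (A := B \ A) (B := B) sdiff_subset
  linarith

theorem union3_le (A B C : Set ι) : θ.m (A ∪ B ∪ C) ≤ θ.m A + θ.m B + θ.m C := by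
  have := θ.union_le (A ∪ B) C
  have := θ.union_le A B
  linarith

theorem biUnion_le {α : Type} (s : Finset α) (A : α → Set ι) :
    θ.m (⋃ i ∈ s, A i) ≤ ∑ i ∈ s, θ.m (A i) := by
  classical
  induction s using Finset.induction_on with
  | empty => simp [θ.empty]
  | insert a s ha ih =>
    rw [Finset.set_biUnion_insert, Finset.sum_insert ha]
    have := θ.union_le (A a) (⋃ i ∈ s, A i)
    linarith

/-- a set that is contained in another one up to a finite set -/
theorem mono_fin {A B : Set ι} (h : (A \ B).Finite) : θ.m A ≤ θ.m B := by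
  have h1 : A ⊆ B ∪ (A \ B) := by
    intro x hx
    by_cases hb : x ∈ B
    · exact Or.inl hb
    · exact Or.inr ⟨hx, hb⟩
  have h2 := θ.mono h1
  have h3 := θ.union_le B (A \ B)
  rw [θ.fin _ h] at h3
  linarith

/-- Finite pairwise almost disjoint families. -/
theorem sum_le_of_ad {α : Type} (s : Finset α) (A : α → Set ι)
    (h : ∀ i ∈ s, ∀ j ∈ s, i ≠ j → (A i ∩ A j).Finite) :
    ∑ i ∈ s, θ.m (A i) ≤ θ.m univ := by
  classical
  have key : ∀ s : Finset α, (∀ i ∈ s, ∀ j ∈ s, i ≠ j → (A i ∩ A j).Finite) →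
      ∑ i ∈ s, θ.m (A i) ≤ θ.m (⋃ i ∈ s, A i) := by
    intro s
    induction s using Finset.induction_on with
    | empty => intro _; simp [θ.empty]
    | insert a s ha ih =>
      intro h
      have ih' := ih (fun i hi j hj hij => h i (Finset.mem_insert_of_mem hi) j
        (Finset.mem_insert_of_mem hj) hij)
      rw [Finset.set_biUnion_insert, Finset.sum_insert ha]
      have h1 : A a ∪ (⋃ i ∈ s, A i) = (A a \ (⋃ i ∈ s, A i)) ∪ (⋃ i ∈ s, A i) := by
        rw [sdiff_union_self]
      rw [h1, θ.add _ _ disjoint_sdiff_left]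
      have h2 : θ.m (A a) ≤ θ.m (A a \ (⋃ i ∈ s, A i)) := by
        apply θ.mono_fin
        have : A a \ (A a \ (⋃ i ∈ s, A i)) = ⋃ i ∈ s, (A a ∩ A i) := by
          rw [sdiff_sdiff_right_self]
          ext x; simp
        rw [this]
        apply Set.Finite.biUnion s.finite_toSet
        intro i hi
        have hi' : i ∈ s := hi
        exact h a (Finset.mem_insert_self a s) i (Finset.mem_insert_of_mem hi')
          (by rintro rfl; exact ha hi')
      linarith
  exact (key s h).trans (θ.mono (subset_univ _))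

/-- scaling -/
def smul (c : ℝ) (hc : 0 ≤ c) : Charge ι where
  m A := c * θ.m A
  nonneg A := mul_nonneg hc (θ.nonneg A)
  add A B h := by rw [θ.add A B h]; ring
  fin A h := by rw [θ.fin A h]; ring

theorem symmDiff_triangle (A B C : Set ι) :
    θ.m (symmDiff A C) ≤ θ.m (symmDiff A B) + θ.m (symmDiff B C) := by
  have h : symmDiff A C ⊆ symmDiff A B ∪ symmDiff B C := _root_.symmDiff_triangle A B C
  exact (θ.mono h).trans (θ.union_le _ _)

end Charge

/-- sum of finitely many charges -/
def Charge.sum {ι α : Type} (s : Finset α) (θ : α → Charge ι) : Charge ι where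
  m A := ∑ i ∈ s, (θ i).m A
  nonneg A := Finset.sum_nonneg fun i _ => (θ i).nonneg A
  add A B h := by
    rw [← Finset.sum_add_distrib]
    exact Finset.sum_congr rfl fun i _ => (θ i).add A B h
  fin A h := Finset.sum_eq_zero fun i _ => (θ i).fin A h

end Pool.Agent.TH784.WB
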