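import Mathlib
import Pool.Agent.TH784.WbCharge

/-!
The law: blocks of sizes `M k`, in block `k` a random set of `N` independent uniform points,
`N` uniform on `{0, ..., 2 ^ ⌊k² t⌋ - 1}`.
-/

namespace Pool.Agent.TH784.WB

open MeasureTheory Set Filter Topology
open scoped ENNReal

def V (k : ℕ) : ℕ := 2 ^ (k ^ 2)
def M (k : ℕ) : ℕ := (V k) ^ 3
def R (k : ℕ) : ℕ := 2 * V k

theorem V_pos (k : ℕ) : 0 < V k := by unfold V; positivity
theorem M_pos (k : ℕ) : 0 < M k := by have := V_pos k; unfold M; positivity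
theorem R_pos (k : ℕ) : 0 < R k := by have := V_pos k; unfold R; positivity

instance (k : ℕ) : NeZero (V k) := ⟨(V_pos k).ne'⟩
instance (k : ℕ) : NeZero (M k) := ⟨(M_pos k).ne'⟩
instance (k : ℕ) : NeZero (R k) := ⟨(R_pos k).ne'⟩

/-- exponent -/
noncomputable def ex (t : ℝ) (k : ℕ) : ℕ := min ⌊((k : ℝ) ^ 2) * t⌋₊ (k ^ 2)

/-- number of admissible values at level `t` in block `k` -/
noncomputable def Lv (t : ℝ) (k : ℕ) : ℕ := 2 ^ ex t k

theorem Lv_pos (t : ℝ) (k : ℕ) : 0 < Lv t k := by unfold Lv; positivity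

theorem Lv_dvd (t : ℝ) (k : ℕ) : Lv t k ∣ V k :=
  pow_dvd_pow 2 (min_le_right _ _)

theorem Lv_le (t : ℝ) (k : ℕ) : Lv t k ≤ V k := Nat.le_of_dvd (V_pos k) (Lv_dvd t k)

abbrev Om (k : ℕ) := Fin (V k) × (Fin (R k) → Fin (M k))
abbrev Omega := ∀ k, Om k
abbrev Yk (k : ℕ) := Fin (M k) → Bool
abbrev Y := ∀ k, Yk k

noncomputable def nn (t : ℝ) (k : ℕ) (v : Fin (V k)) : ℕ := v.val % Lv t k

theorem nn_lt (t : ℝ) (k : ℕ) (v : Fin (V k)) : nn t k v < Lv t k :=
  Nat.mod_lt _ (Lv_pos t k)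

theorem nn_lt_V (t : ℝ) (k : ℕ) (v : Fin (V k)) : nn t k v < V k :=
  (nn_lt t k v).trans_le (Lv_le t k)

noncomputable def block (t : ℝ) (k : ℕ) (p : Om k) : Yk k :=
  fun i => decide (∃ j : Fin (R k), j.val < nn t k p.1 ∧ p.2 j = i)

noncomputable def G (t : ℝ) (ω : Omega) : Y := fun k => block t k (ω k)

/-- uniform probability on `Fin n` -/
noncomputable def unif (n : ℕ) : Measure (Fin n) := ((n : ℝ≥0∞))⁻¹ • Measure.count

theorem unif_apply (n : ℕ) (s : Finset (Fin n)) :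
    unif n (s : Set (Fin n)) = (n : ℝ≥0∞)⁻¹ * (s.card : ℝ≥0∞) := by
  unfold unif
  rw [Measure.smul_apply, Measure.count_apply_finset]
  simp

theorem unif_singleton (n : ℕ) (a : Fin n) : unif n {a} = (n : ℝ≥0∞)⁻¹ := by
  unfold unif
  simp

instance unif_prob (n : ℕ) [NeZero n] : IsProbabilityMeasure (unif n) := by
  constructor
  unfold unif
  rw [Measure.smul_apply, smul_eq_mul, Measure.count_univ]
  simp only [ENat.card_eq_coe_fintype_card, Fintype.card_fin]
  rw [show ((( n : ℕ∞) : ENat) : ℝ≥0∞) = (n : ℝ≥0∞) by simp]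
  exact ENNReal.inv_mul_cancel (by simp [NeZero.ne n]) (by simp)

noncomputable def nu (k : ℕ) : Measure (Om k) :=
  (unif (V k)).prod (Measure.pi fun _ : Fin (R k) => unif (M k))

instance nu_prob (k : ℕ) : IsProbabilityMeasure (nu k) := by
  unfold nu; infer_instance

theorem nu_singleton (k : ℕ) (p : Om k) :
    nu k {p} = (V k : ℝ≥0∞)⁻¹ * ((M k : ℝ≥0∞)⁻¹) ^ (R k) := by
  unfold nu
  obtain ⟨v, a⟩ := p
  rw [← Set.singleton_prod_singleton, Measure.prod_prod, unif_singleton, Measure.pi_singleton]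
  simp [unif_singleton]

noncomputable def P : Measure Omega := Measure.infinitePi nu

instance P_prob : IsProbabilityMeasure P := by unfold P; infer_instance

theorem nu_fst (k : ℕ) (s : Set (Fin (V k))) : nu k {p | p.1 ∈ s} = unif (V k) s := by
  have : {p : Om k | p.1 ∈ s} = s ×ˢ (univ : Set (Fin (R k) → Fin (M k))) := by
    ext p; simp
  rw [this]
  unfold nu
  rw [Measure.prod_prod, measure_univ, mul_one]

theorem nu_snd (k : ℕ) (j : Fin (R k)) (i : Fin (M k)) :
    nu k {p | p.2 j = i} = (M k : ℝ≥0∞)⁻¹ := by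
  have : {p : Om k | p.2 j = i} = (univ : Set (Fin (V k))) ×ˢ {a | a j = i} := by
    ext p; simp
  rw [this]
  unfold nu
  rw [Measure.prod_prod, measure_univ, one_mul]
  have h := (measurePreserving_eval (fun _ : Fin (R k) => unif (M k)) j)
  have h2 := h.measure_preimage (s := {i}) (MeasurableSet.of_discrete).nullMeasurableSet
  rw [unif_singleton] at h2
  rw [← h2]
  rfl

theorem card_mod_le (L n r : ℕ) (hd : L ∣ n) :
    ((Finset.univ : Finset (Fin n)).filter (fun v : Fin n => v.val % L = r)).card ≤ n / L := by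
  have : ((Finset.univ : Finset (Fin n)).filter (fun v : Fin n => v.val % L = r)).card
      ≤ (Finset.range (n / L)).card := by
    apply Finset.card_le_card_of_injOn (fun v : Fin n => v.val / L)
    · intro v _
      simp only [Finset.coe_range, mem_Iio]
      exact Nat.div_lt_div_of_lt_of_dvd hd v.isLt
    · intro v hv w hw h
      simp only [Finset.coe_filter, Finset.mem_univ, true_and, mem_ofPred_eq] at hv hw
      simp only at h
      apply Fin.ext
      rw [← Nat.div_add_mod v.val L, ← Nat.div_add_mod w.val L, h, hv, hw]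
  simpa using this

theorem unif_mod (k : ℕ) (t : ℝ) (r : ℕ) :
    unif (V k) {v | nn t k v = r} ≤ (Lv t k : ℝ≥0∞)⁻¹ := by
  classical
  have h0 : {v : Fin (V k) | nn t k v = r} =
      (((Finset.univ : Finset (Fin (V k))).filter (fun v => v.val % Lv t k = r) :
        Finset (Fin (V k))) : Set (Fin (V k))) := by
    ext v; simp [nn]
  rw [h0, unif_apply]
  have h1 := card_mod_le (Lv t k) (V k) r (Lv_dvd t k)
  have h3 : (((Finset.univ : Finset (Fin (V k))).filter (fun v => v.val % Lv t k = r)).card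
      : ℝ≥0∞) * (Lv t k : ℝ≥0∞) ≤ (V k : ℝ≥0∞) := by
    have : ((Finset.univ : Finset (Fin (V k))).filter (fun v => v.val % Lv t k = r)).card
        * Lv t k ≤ V k :=
      (Nat.mul_le_mul_right _ h1).trans (Nat.div_mul_le_self _ _)
    exact_mod_cast this
  have hV : (V k : ℝ≥0∞) ≠ 0 := by exact_mod_cast (V_pos k).ne'
  have hL : (Lv t k : ℝ≥0∞) ≠ 0 := by exact_mod_cast (Lv_pos t k).ne'
  rw [ENNReal.le_inv_iff_mul_le, mul_assoc]
  calc (V k : ℝ≥0∞)⁻¹ * (_ * (Lv t k : ℝ≥0∞))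
      ≤ (V k : ℝ≥0∞)⁻¹ * (V k : ℝ≥0∞) := by gcongr
    _ = 1 := ENNReal.inv_mul_cancel hV (by simp)

theorem nu_mod (k : ℕ) (t : ℝ) (r : ℕ) :
    nu k {p | nn t k p.1 = r} ≤ (Lv t k : ℝ≥0∞)⁻¹ := by
  have := nu_fst k {v | nn t k v = r}
  simp only [mem_ofPred_eq] at this
  rw [this]
  exact unif_mod k t r

/-- overflow estimate -/
theorem nu_over (k : ℕ) (s t : ℝ) :
    nu k {p | Lv t k ≤ nn t k p.1 + Lv s k} ≤ (Lv s k : ℝ≥0∞) * (Lv t k : ℝ≥0∞)⁻¹ := by
  have hsub : {p : Om k | Lv t k ≤ nn t k p.1 + Lv s k} ⊆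
      ⋃ r ∈ Finset.Ico (Lv t k - Lv s k) (Lv t k), {p : Om k | nn t k p.1 = r} := by
    intro p hp
    simp only [mem_ofPred_eq] at hp
    simp only [mem_iUnion, mem_ofPred_eq, Finset.mem_Ico]
    exact ⟨_, ⟨by omega, nn_lt t k p.1⟩, rfl⟩
  refine (measure_mono hsub).trans ((measure_biUnion_finset_le _ _).trans ?_)
  refine (Finset.sum_le_sum fun r _ => nu_mod k t r).trans ?_
  rw [Finset.sum_const, Nat.card_Ico, nsmul_eq_mul]
  gcongr
  omega

theorem nu_block (k : ℕ) (t : ℝ) (i : Fin (M k)) :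
    nu k {p | block t k p i = true} ≤ (V k : ℝ≥0∞) * (M k : ℝ≥0∞)⁻¹ := by
  have hsub : {p : Om k | block t k p i = true} ⊆
      ⋃ j ∈ (Finset.univ : Finset (Fin (R k))).filter (fun j => j.val < V k),
        {p : Om k | p.2 j = i} := by
    intro p hp
    simp only [mem_ofPred_eq, block, decide_eq_true_eq] at hp
    obtain ⟨j, hj, hj2⟩ := hp
    simp only [mem_iUnion, mem_ofPred_eq, Finset.mem_filter, Finset.mem_univ, true_and]
    exact ⟨j, hj.trans (nn_lt_V t k _), hj2⟩
  refine (measure_mono hsub).trans ((measure_biUnion_finset_le _ _).trans ?_)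
  refine (Finset.sum_le_sum fun j _ => (nu_snd k j i).le).trans ?_
  rw [Finset.sum_const, nsmul_eq_mul]
  gcongr
  have : ((Finset.univ : Finset (Fin (R k))).filter (fun j => j.val < V k)).card
      ≤ (Finset.range (V k)).card := by
    apply Finset.card_le_card_of_injOn (fun v : Fin (R k) => v.val)
    · intro v hv
      simpa using hv
    · intro v _ w _ h
      exact Fin.ext h
  simpa using this

end Pool.Agent.TH784.WB
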