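import Mathlib
import Pool.Agent.TH784.WbLaw

/-!
The measure preserving transformation that realises the union of a small random set with a
large one.
-/

namespace Pool.Agent.TH784.WB

open MeasureTheory Set Filter Topology
open scoped ENNReal

def swA {r : ℕ} {α : Type} (n n' : ℕ) (a b : Fin r → α) : Fin r → α :=
  fun j => if n ≤ j.val ∧ j.val - n < n' then b ⟨j.val - n, by omega⟩ else a j

def swB {r : ℕ} {α : Type} (n n' : ℕ) (a b : Fin r → α) : Fin r → α :=
  fun j => if h : j.val < n' ∧ n + j.val < r then a ⟨n + j.val, h.2⟩ else b j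

theorem swA_swA {r : ℕ} {α : Type} (n n' : ℕ) (a b : Fin r → α) :
    swA n n' (swA n n' a b) (swB n n' a b) = a := by
  funext j
  unfold swA
  split_ifs with h
  · unfold swB
    have h2 : (⟨j.val - n, by omega⟩ : Fin r).val < n' ∧ n + (⟨j.val - n, by omega⟩ : Fin r).val < r := by
      constructor
      · exact h.2
      · simp only
        omega
    rw [dif_pos h2]
    congr 1
    apply Fin.ext
    simp only
    omega
  · rfl

theorem swB_swB {r : ℕ} {α : Type} (n n' : ℕ) (a b : Fin r → α) :
    swB n n' (swA n n' a b) (swB n n' a b) = b := by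
  funext j
  rw [swB]
  split_ifs with h
  · unfold swA
    have h2 : n ≤ (⟨n + j.val, h.2⟩ : Fin r).val ∧ (⟨n + j.val, h.2⟩ : Fin r).val - n < n' := by
      constructor
      · simp
      · simp only
        omega
    rw [if_pos h2]
    congr 1
    apply Fin.ext
    simp only
    omega
  · rw [swB, dif_neg h]

/-- block transformation -/
noncomputable def psi (s t : ℝ) (k : ℕ) (z : Om k × Om k) : Om k × Om k :=
  ((z.1.1, swB (nn t k z.2.1) (nn s k z.1.1) z.2.2 z.1.2),
    (z.2.1 + Fin.ofNat (V k) (nn s k z.1.1), swA (nn t k z.2.1) (nn s k z.1.1) z.2.2 z.1.2))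

theorem psi_injective (s t : ℝ) (k : ℕ) : Function.Injective (psi s t k) := by
  rintro ⟨⟨v', b⟩, ⟨v, a⟩⟩ ⟨⟨w', d⟩, ⟨w, c⟩⟩ h
  simp only [psi, Prod.mk.injEq] at h
  obtain ⟨⟨h1, h2⟩, h3, h4⟩ := h
  subst h1
  have h5 : v = w := by
    exact add_right_cancel h3
  subst h5
  have e1 := swA_swA (nn t k v) (nn s k v') a b
  have e2 := swB_swB (nn t k v) (nn s k v') a b
  rw [h2, h4] at e1 e2
  rw [swA_swA] at e1
  rw [swB_swB] at e2
  rw [e1, e2]

theorem psi_bijective (s t : ℝ) (k : ℕ) : Function.Bijective (psi s t k) :=
  Finite.injective_iff_bijective.mp (psi_injective s t k)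

theorem psi_measurable (s t : ℝ) (k : ℕ) : Measurable (psi s t k) := measurable_of_finite _

theorem kappa_singleton (k : ℕ) (z w : Om k × Om k) :
    ((nu k).prod (nu k)) {z} = ((nu k).prod (nu k)) {w} := by
  have h : ∀ p q : Om k, ((nu k).prod (nu k)) {(p, q)} = nu k {p} * nu k {q} := by
    intro p q
    rw [← Set.singleton_prod_singleton (a := p) (b := q), Measure.prod_prod]
  obtain ⟨p, q⟩ := z
  obtain ⟨p', q'⟩ := w
  rw [h, h, nu_singleton, nu_singleton, nu_singleton, nu_singleton]

theorem psi_map (s t : ℝ) (k : ℕ) :
    ((nu k).prod (nu k)).map (psi s t k) = (nu k).prod (nu k) := by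
  apply Measure.ext_of_singleton
  intro z
  rw [Measure.map_apply (psi_measurable s t k) (MeasurableSet.of_discrete)]
  obtain ⟨w, hw⟩ := (psi_bijective s t k).2 z
  have : psi s t k ⁻¹' {z} = {w} := by
    ext x
    simp only [mem_preimage, mem_singleton_iff]
    constructor
    · intro h
      exact (psi_injective s t k) (h.trans hw.symm)
    · rintro rfl
      exact hw
  rw [this]
  exact kappa_singleton k w z

/-- On the event that there is no overflow the transformed second coordinate is the union. -/
theorem psi_block (s t : ℝ) (k : ℕ) (z : Om k × Om k)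
    (h : nn t k z.2.1 + nn s k z.1.1 < Lv t k) (i : Fin (M k)) :
    block t k (psi s t k z).2 i = (block t k z.2 i || block s k z.1 i) := by
  obtain ⟨⟨v', b⟩, ⟨v, a⟩⟩ := z
  simp only at h
  have hn : nn t k (v + Fin.ofNat (V k) (nn s k v')) = nn t k v + nn s k v' := by
    have h1 : nn s k v' < V k := nn_lt_V s k v'
    unfold nn at *
    rw [Fin.val_add, Fin.val_ofNat, Nat.mod_eq_of_lt h1,
      Nat.mod_mod_of_dvd _ (Lv_dvd t k), Nat.add_mod, Nat.mod_eq_of_lt (a := _ + _)]
    · rw [Nat.mod_eq_of_lt (a := v'.val % Lv s k) (b := Lv t k)]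
      omega
    · rw [Nat.mod_eq_of_lt (a := v'.val % Lv s k) (b := Lv t k)]
      · exact h
      · omega
  have hR : nn t k v + nn s k v' < R k := by
    have := Lv_le t k
    have := V_pos k
    unfold R
    omega
  rw [Bool.eq_iff_iff]
  simp only [block, psi, decide_eq_true_eq, Bool.or_eq_true, hn]
  constructor
  · rintro ⟨j, hj, hji⟩
    unfold swA at hji
    split_ifs at hji with h1
    · right
      exact ⟨_, h1.2, hji⟩
    · left
      refine ⟨j, ?_, hji⟩
      omega
  · rintro (⟨j, hj, hji⟩ | ⟨j, hj, hji⟩)
    · refine ⟨j, by omega, ?_⟩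
      unfold swA
      rw [if_neg (by omega)]
      exact hji
    · refine ⟨⟨nn t k v + j.val, by omega⟩, by simp only; omega, ?_⟩
      unfold swA
      rw [if_pos (by simp only; omega)]
      rw [← hji]
      congr 1
      apply Fin.ext
      simp

/-- the product over the blocks of the two independent copies -/
noncomputable def P2 : Measure (∀ k, Om k × Om k) :=
  Measure.infinitePi (fun k => (nu k).prod (nu k))

instance P2_prob : IsProbabilityMeasure P2 := by unfold P2; infer_instance

noncomputable def Psi (s t : ℝ) (m : ℕ) (ω : ∀ k, Om k × Om k) : ∀ k, Om k × Om k :=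
  fun k => if m ≤ k then psi s t k (ω k) else ω k

theorem Psi_measurable (s t : ℝ) (m : ℕ) : Measurable (Psi s t m) := by
  unfold Psi
  refine measurable_pi_lambda _ fun k => ?_
  by_cases h : m ≤ k
  · simp only [h, if_true]
    exact (psi_measurable s t k).comp (measurable_pi_apply k)
  · simp only [h, if_false]
    exact measurable_pi_apply k

theorem Psi_map (s t : ℝ) (m : ℕ) : P2.map (Psi s t m) = P2 := by
  have h1 : Psi s t m = fun ω k => (if m ≤ k then psi s t k else id) (ω k) := by
    funext ω k
    unfold Psi
    split_ifs <;> rfl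
  rw [h1]
  unfold P2
  rw [Measure.infinitePi_map_pi]
  · congr 1
    funext k
    split_ifs with h
    · exact psi_map s t k
    · exact Measure.map_id
  · intro k
    split_ifs with h
    · exact psi_measurable s t k
    · exact measurable_id

def unz (ω : ∀ k, Om k × Om k) : Omega × Omega := (fun k => (ω k).1, fun k => (ω k).2)

theorem unz_measurable : Measurable unz := by
  unfold unz
  fun_prop

theorem P_pi (I : Finset ℕ) (A : ∀ k, Set (Om k)) :
    P ((I : Set ℕ).pi A) = ∏ i ∈ I, nu i (A i) := by
  unfold P
  exact Measure.infinitePi_pi nu (fun i _ => MeasurableSet.of_discrete)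

theorem unz_map : P2.map unz = P.prod P := by
  symm
  have hspan : P.FiniteSpanningSetsIn
      (squareCylinders fun i ↦ {s : Set (Om i) | MeasurableSet s}) :=
    { set := fun _ => univ
      set_mem := fun _ => ⟨∅, fun _ => univ, by simp, by simp⟩
      finite := fun _ => by simp
      spanning := iUnion_const _ }
  refine Measure.prod_eq_generateFrom (generateFrom_squareCylinders) (generateFrom_squareCylinders)
    (isPiSystem_squareCylinders (fun _ ↦ MeasurableSpace.isPiSystem_measurableSet) (by simp))
    (isPiSystem_squareCylinders (fun _ ↦ MeasurableSpace.isPiSystem_measurableSet) (by simp))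
    hspan hspan ?_
  rintro S ⟨I, A, hA, rfl⟩ T ⟨J, B, hB, rfl⟩
  classical
  rw [P_pi, P_pi, Measure.map_apply unz_measurable]
  · have h1 : unz ⁻¹' (((I : Set ℕ).pi A) ×ˢ ((J : Set ℕ).pi B)) =
        ((I ∪ J : Finset ℕ) : Set ℕ).pi (fun i => (if i ∈ I then A i else univ) ×ˢ
          (if i ∈ J then B i else univ)) := by
      ext ω
      simp only [unz, mem_preimage, mem_prod, Set.mem_pi, Finset.mem_coe, Finset.mem_union]
      constructor
      · rintro ⟨h1, h2⟩ i hi
        constructor
        · split_ifs with h
          · exact h1 i h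
          · trivial
        · split_ifs with h
          · exact h2 i h
          · trivial
      · intro h
        constructor
        · intro i hi
          have := (h i (Or.inl hi)).1
          rwa [if_pos hi] at this
        · intro i hi
          have := (h i (Or.inr hi)).2
          rwa [if_pos hi] at this
    rw [h1]
    unfold P2
    rw [Measure.infinitePi_pi _ (fun i _ => MeasurableSet.of_discrete)]
    simp only [Measure.prod_prod]
    rw [Finset.prod_mul_distrib]
    congr 1
    · rw [← Finset.prod_subset (Finset.subset_union_left (s₁ := I) (s₂ := J))]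
      · exact Finset.prod_congr rfl fun i hi => by rw [if_pos hi]
      · intro i _ hi
        rw [if_neg hi, measure_univ]
    · rw [← Finset.prod_subset (Finset.subset_union_right (s₁ := I) (s₂ := J))]
      · exact Finset.prod_congr rfl fun i hi => by rw [if_pos hi]
      · intro i _ hi
        rw [if_neg hi, measure_univ]
  · exact (MeasurableSet.pi I.countable_toSet fun i _ => MeasurableSet.of_discrete).prod
      (MeasurableSet.pi J.countable_toSet fun i _ => MeasurableSet.of_discrete)

end Pool.Agent.TH784.WB
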