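import Mathlib
import Pool.Agent.TH784.WbShift

/-!
Typical points: almost disjointness and absorption.
-/

namespace Pool.Agent.TH784.WB

open MeasureTheory Set Filter Topology
open scoped ENNReal

noncomputable def Gp (p : ℝ × Omega) : Y := G p.1 p.2

/-- block with given exponent -/
def blockE (k : ℕ) (q : ℕ × Om k) : Yk k :=
  fun i => decide (∃ j : Fin (R k), j.val < q.2.1.val % (2 ^ q.1) ∧ q.2.2 j = i)

theorem block_eq (t : ℝ) (k : ℕ) (p : Om k) : block t k p = blockE k (ex t k, p) := rfl

theorem ex_measurable (k : ℕ) : Measurable (fun t : ℝ => ex t k) := by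
  unfold ex
  have h1 : Measurable (fun t : ℝ => ⌊((k : ℝ) ^ 2) * t⌋₊) :=
    Nat.measurable_floor.comp (measurable_const.mul measurable_id)
  exact (Measurable.of_discrete (f := fun n : ℕ => min n (k ^ 2))).comp h1

theorem Gp_measurable : Measurable Gp := by
  refine measurable_pi_lambda _ fun k => ?_
  have h : (fun p : ℝ × Omega => Gp p k) = (fun p => blockE k (ex p.1 k, p.2 k)) := rfl
  rw [h]
  exact (Measurable.of_discrete (f := blockE k)).comp
    (((ex_measurable k).comp measurable_fst).prodMk ((measurable_pi_apply k).comp measurable_snd))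

theorem G_measurable (t : ℝ) : Measurable (G t) :=
  Gp_measurable.comp (measurable_const.prodMk measurable_id)

noncomputable def tau : Measure ℝ := volume.restrict (Icc 0 1)

instance tau_prob : IsProbabilityMeasure tau := by
  constructor
  unfold tau
  simp

noncomputable def lam (t : ℝ) : Measure Y := P.map (G t)

instance lam_prob (t : ℝ) : IsProbabilityMeasure (lam t) :=
  Measure.isProbabilityMeasure_map (G_measurable t).aemeasurable

/-- the law of the block set with level distributed according to `μ` -/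
noncomputable def law (μ : Measure ℝ) : Measure Y := (μ.prod P).map Gp

theorem lam_eq (t : ℝ) : lam t = law (Measure.dirac t) := by
  unfold lam law
  rw [Measure.dirac_prod, Measure.map_map Gp_measurable (by fun_prop)]
  rfl

noncomputable def Lam (t : ℝ) : Measure Y := law (tau.restrict (Iio t))

theorem law_apply (μ : Measure ℝ) [SFinite μ] {S : Set Y} (hS : MeasurableSet S) :
    law μ S = ∫⁻ t, lam t S ∂μ := by
  unfold law
  rw [Measure.map_apply Gp_measurable hS, Measure.prod_apply (Gp_measurable hS)]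
  apply lintegral_congr
  intro t
  unfold lam
  rw [Measure.map_apply (G_measurable t) hS]
  rfl

/-- points with not too many elements in each block -/
def Good : Set Y :=
  {x | ∀ k, ((Finset.univ : Finset (Fin (M k))).filter (fun i => x k i = true)).card ≤ V k}

theorem G_good (t : ℝ) (ω : Omega) : G t ω ∈ Good := by
  intro k
  have h1 : ((Finset.univ : Finset (Fin (M k))).filter (fun i => G t ω k i = true)) ⊆
      ((Finset.univ : Finset (Fin (R k))).filter (fun j => j.val < V k)).image (ω k).2 := by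
    intro i hi
    simp only [Finset.mem_filter, Finset.mem_univ, true_and, G, block, decide_eq_true_eq] at hi
    obtain ⟨j, hj, hji⟩ := hi
    rw [Finset.mem_image]
    exact ⟨j, by simpa using hj.trans (nn_lt_V t k _), hji⟩
  refine (Finset.card_le_card h1).trans (Finset.card_image_le.trans ?_)
  have : ((Finset.univ : Finset (Fin (R k))).filter (fun j => j.val < V k)).card
      ≤ (Finset.range (V k)).card := by
    apply Finset.card_le_card_of_injOn (fun v : Fin (R k) => v.val)
    · intro v hv
      simpa using hv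
    · intro v _ w _ h
      exact Fin.ext h
  simpa using this

theorem Good_measurable : MeasurableSet Good := by
  have : Good = ⋂ k, (fun x : Y => x k) ⁻¹' {z : Yk k |
      ((Finset.univ : Finset (Fin (M k))).filter (fun i => z i = true)).card ≤ V k} := by
    ext x
    simp [Good]
  rw [this]
  exact MeasurableSet.iInter fun k => measurable_pi_apply k MeasurableSet.of_discrete

theorem law_good (μ : Measure ℝ) : ∀ᵐ x ∂(law μ), x ∈ Good := by
  unfold law
  exact (ae_map_iff (p := fun x => x ∈ Good) Gp_measurable.aemeasurable Good_measurable).2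
    (Eventually.of_forall fun p => G_good p.1 p.2)

/-- almost disjointness -/
def ad (x y : Y) : Prop := ∀ᶠ k in atTop, ∀ i, ¬ (x k i = true ∧ y k i = true)

theorem P_eval (k : ℕ) (S : Set (Om k)) : P {ω | ω k ∈ S} = nu k S :=
  (measurePreserving_eval_infinitePi nu k).measure_preimage
    (MeasurableSet.of_discrete).nullMeasurableSet

theorem overlap (x : Y) (hx : x ∈ Good) (t : ℝ) (k : ℕ) :
    lam t {y | ∃ i, x k i = true ∧ y k i = true} ≤ (V k : ℝ≥0∞)⁻¹ := by
  have hmeas : MeasurableSet {y : Y | ∃ i, x k i = true ∧ y k i = true} := by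
    have : {y : Y | ∃ i, x k i = true ∧ y k i = true} =
        (fun y : Y => y k) ⁻¹' {z | ∃ i, x k i = true ∧ z i = true} := rfl
    rw [this]
    exact measurable_pi_apply k MeasurableSet.of_discrete
  unfold lam
  rw [Measure.map_apply (G_measurable t) hmeas]
  have h1 : G t ⁻¹' {y | ∃ i, x k i = true ∧ y k i = true} =
      {ω | ω k ∈ {p : Om k | ∃ i, x k i = true ∧ block t k p i = true}} := rfl
  rw [h1, P_eval]
  have hsub : {p : Om k | ∃ i, x k i = true ∧ block t k p i = true} ⊆
      ⋃ i ∈ (Finset.univ : Finset (Fin (M k))).filter (fun i => x k i = true),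
        {p : Om k | block t k p i = true} := by
    rintro p ⟨i, hi, hi2⟩
    simp only [mem_iUnion, Finset.mem_filter, Finset.mem_univ, true_and]
    exact ⟨i, hi, hi2⟩
  refine (measure_mono hsub).trans ((measure_biUnion_finset_le _ _).trans ?_)
  refine (Finset.sum_le_sum fun j _ => nu_block k t j).trans ?_
  rw [Finset.sum_const, nsmul_eq_mul]
  have h2 := hx k
  have hV0 : (V k : ℝ≥0∞) ≠ 0 := by exact_mod_cast (V_pos k).ne'
  have hVt : (V k : ℝ≥0∞) ≠ ∞ := by simp
  calc _ ≤ (V k : ℝ≥0∞) * ((V k : ℝ≥0∞) * (M k : ℝ≥0∞)⁻¹) := by gcongr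
    _ = (V k : ℝ≥0∞)⁻¹ := by
      unfold M
      push_cast
      rw [← mul_assoc, show (V k : ℝ≥0∞) ^ 3 = ((V k : ℝ≥0∞) * (V k : ℝ≥0∞)) * (V k : ℝ≥0∞) by ring,
        ENNReal.mul_inv (Or.inr hVt) (Or.inr hV0), ← mul_assoc, ENNReal.mul_inv_cancel, one_mul]
      · exact mul_ne_zero hV0 hV0
      · exact ENNReal.mul_ne_top hVt hVt

theorem tsum_V : (∑' k, (V k : ℝ≥0∞)⁻¹) ≠ ∞ := by
  have h : ∀ k, (V k : ℝ≥0∞)⁻¹ ≤ (2⁻¹ : ℝ≥0∞) ^ k := by
    intro k
    rw [← ENNReal.inv_pow]
    apply ENNReal.inv_le_inv.mpr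
    have : 2 ^ k ≤ V k := by
      unfold V
      apply Nat.pow_le_pow_right (by norm_num)
      nlinarith [Nat.zero_le k]
    exact_mod_cast this
  refine ne_top_of_le_ne_top ?_ (ENNReal.tsum_le_tsum h)
  rw [ENNReal.tsum_geometric]
  simp

theorem law_ad (μ : Measure ℝ) [IsFiniteMeasure μ] (hμ : μ univ ≤ 1) (x : Y) (hx : x ∈ Good) :
    ∀ᵐ y ∂(law μ), ad x y := by
  have hmeas : ∀ k, MeasurableSet {y : Y | ∃ i, x k i = true ∧ y k i = true} := by
    intro k
    have : {y : Y | ∃ i, x k i = true ∧ y k i = true} =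
        (fun y : Y => y k) ⁻¹' {z | ∃ i, x k i = true ∧ z i = true} := rfl
    rw [this]
    exact measurable_pi_apply k MeasurableSet.of_discrete
  have h1 : ∀ k, law μ {y : Y | ∃ i, x k i = true ∧ y k i = true} ≤ (V k : ℝ≥0∞)⁻¹ := by
    intro k
    rw [law_apply μ (hmeas k)]
    calc _ ≤ ∫⁻ _, (V k : ℝ≥0∞)⁻¹ ∂μ := lintegral_mono fun t => overlap x hx t k
      _ = (V k : ℝ≥0∞)⁻¹ * μ univ := by rw [lintegral_const]
      _ ≤ (V k : ℝ≥0∞)⁻¹ * 1 := by gcongr
      _ = _ := mul_one _
  have h2 : (∑' k, law μ {y : Y | ∃ i, x k i = true ∧ y k i = true}) ≠ ∞ :=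
    ne_top_of_le_ne_top tsum_V (ENNReal.tsum_le_tsum h1)
  filter_upwards [ae_eventually_notMem h2] with y hy
  unfold ad
  filter_upwards [hy] with k hk i hi
  exact hk ⟨i, hi⟩

end Pool.Agent.TH784.WB
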