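import Mathlib
import Pool.Agent.TH784.WbTyp

/-!
Absorption: adding a truncated smaller typical set does not change the law much.
-/

namespace Pool.Agent.TH784.WB

open MeasureTheory Set Filter Topology
open scoped ENNReal

def join (y x : Y) : Y := fun k i => y k i || x k i

def trunc (m : ℕ) (x : Y) : Y := fun k i => if m ≤ k then x k i else false

/-- the overflow probabilities are summable -/
theorem over_bound (s t : ℝ) (hs : 0 ≤ s) (hst : s < t) (ht : t ≤ 1) (k : ℕ) :
    (Lv s k : ℝ≥0∞) * (Lv t k : ℝ≥0∞)⁻¹ ≤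
      ENNReal.ofReal (2 * ((2 : ℝ) ^ (-(t - s))) ^ k) := by
  have hL : (0 : ℝ) < (Lv t k : ℝ) := by exact_mod_cast Lv_pos t k
  have hk0 : (0 : ℝ) ≤ (k : ℝ) ^ 2 := by positivity
  have key : (Lv s k : ℝ) ≤ 2 * ((2 : ℝ) ^ (-(t - s))) ^ k * (Lv t k : ℝ) := by
    have h1 : (ex s k : ℝ) ≤ (k : ℝ) ^ 2 * s := by
      have : (ex s k : ℝ) ≤ (⌊((k : ℝ) ^ 2) * s⌋₊ : ℝ) := by
        unfold ex
        exact_mod_cast min_le_left _ _
      exact this.trans (Nat.floor_le (mul_nonneg hk0 hs))
    have h2 : (k : ℝ) ^ 2 * t - 1 ≤ (ex t k : ℝ) := by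
      unfold ex
      rw [min_eq_left]
      · have := Nat.lt_floor_add_one ((k : ℝ) ^ 2 * t)
        linarith
      · have h3 : ((k : ℝ) ^ 2) * t ≤ ((k ^ 2 : ℕ) : ℝ) := by
          push_cast
          nlinarith
        exact Nat.floor_le_of_le h3
    have h4 : (Lv s k : ℝ) = (2 : ℝ) ^ (ex s k : ℝ) := by
      unfold Lv
      push_cast
      rw [Real.rpow_natCast]
    have h5 : (Lv t k : ℝ) = (2 : ℝ) ^ (ex t k : ℝ) := by
      unfold Lv
      push_cast
      rw [Real.rpow_natCast]
    rw [h4, h5, ← Real.rpow_natCast, ← Real.rpow_mul (by norm_num)]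
    have h6 : (2 : ℝ) * (2 : ℝ) ^ (-(t - s) * (k : ℝ)) * (2 : ℝ) ^ (ex t k : ℝ) =
        (2 : ℝ) ^ (1 + (-(t - s) * (k : ℝ)) + (ex t k : ℝ)) := by
      rw [Real.rpow_add (by norm_num), Real.rpow_add (by norm_num), Real.rpow_one]
    rw [h6]
    apply Real.rpow_le_rpow_of_exponent_le (by norm_num)
    have h7 : (t - s) * (k : ℝ) ≤ (t - s) * (k : ℝ) ^ 2 := by
      apply mul_le_mul_of_nonneg_left _ (by linarith)
      have : (k : ℕ) ≤ k ^ 2 := by nlinarith [Nat.zero_le k]
      exact_mod_cast this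
    nlinarith
  have hLe : (Lv t k : ℝ≥0∞) ≠ 0 := by exact_mod_cast (Lv_pos t k).ne'
  rw [← div_eq_mul_inv]
  apply ENNReal.div_le_of_le_mul
  rw [← ENNReal.ofReal_natCast (Lv s k), ← ENNReal.ofReal_natCast (Lv t k),
    ← ENNReal.ofReal_mul (by positivity)]
  exact ENNReal.ofReal_le_ofReal key

theorem over_tsum (s t : ℝ) (hs : 0 ≤ s) (hst : s < t) (ht : t ≤ 1) :
    (∑' k, (Lv s k : ℝ≥0∞) * (Lv t k : ℝ≥0∞)⁻¹) ≠ ∞ := by
  refine ne_top_of_le_ne_top ?_ (ENNReal.tsum_le_tsum fun k => over_bound s t hs hst ht k)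
  have hc : (2 : ℝ) ^ (-(t - s)) < 1 :=
    Real.rpow_lt_one_of_one_lt_of_neg (by norm_num) (by linarith)
  have hc0 : 0 ≤ (2 : ℝ) ^ (-(t - s)) := by positivity
  have hsum : Summable (fun k : ℕ => 2 * ((2 : ℝ) ^ (-(t - s))) ^ k) :=
    (summable_geometric_of_lt_one hc0 hc).mul_left 2
  rw [← ENNReal.ofReal_tsum_of_nonneg (fun k => by positivity) hsum]
  exact ENNReal.ofReal_ne_top

/-- no overflow from block `m` on -/
def NoOver (s t : ℝ) (m : ℕ) : Set (∀ k, Om k × Om k) :=
  {z | ∀ k, m ≤ k → nn t k (z k).2.1 + nn s k (z k).1.1 < Lv t k}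

theorem P2_eval (k : ℕ) (S : Set (Om k × Om k)) : P2 {ω | ω k ∈ S} = ((nu k).prod (nu k)) S :=
  (measurePreserving_eval_infinitePi (fun k => (nu k).prod (nu k)) k).measure_preimage
    (MeasurableSet.of_discrete).nullMeasurableSet

theorem NoOver_compl (s t : ℝ) (m : ℕ) :
    P2 (NoOver s t m)ᶜ ≤ ∑' k, (Lv s (k + m) : ℝ≥0∞) * (Lv t (k + m) : ℝ≥0∞)⁻¹ := by
  have hsub : (NoOver s t m)ᶜ ⊆ ⋃ k : ℕ, {z : ∀ k, Om k × Om k | z (k + m) ∈
      (univ : Set (Om (k + m))) ×ˢ {p : Om (k + m) | Lv t (k + m) ≤ nn t (k + m) p.1 + Lv s (k + m)}} := by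
    intro z hz
    simp only [NoOver, mem_compl_iff, mem_ofPred_eq, not_forall, not_lt] at hz
    obtain ⟨k, hk, hz⟩ := hz
    rw [mem_iUnion]
    obtain ⟨j, rfl⟩ : ∃ j, k = j + m := ⟨k - m, by omega⟩
    refine ⟨j, ?_⟩
    simp only [mem_ofPred_eq, mem_prod, mem_univ, true_and]
    have := nn_lt s (j + m) (z (j + m)).1.1
    omega
  refine (measure_mono hsub).trans ((measure_iUnion_le _).trans ?_)
  apply ENNReal.tsum_le_tsum
  intro k
  rw [P2_eval, Measure.prod_prod, measure_univ, one_mul]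
  exact nu_over (k + m) s t

/-- agreeing with a point of `B` on the first `m` blocks -/
def Cm (B : Set Y) (m : ℕ) : Set Y := {y | ∃ y' ∈ B, ∀ k, k < m → y' k = y k}

theorem Cm_measurable (B : Set Y) (m : ℕ) : MeasurableSet (Cm B m) := by
  have : Cm B m = (fun (y : Y) (k : Fin m) => y k.val) ⁻¹'
      ((fun (y : Y) (k : Fin m) => y k.val) '' B) := by
    ext y
    simp only [Cm, mem_ofPred_eq, mem_preimage, mem_image]
    constructor
    · rintro ⟨y', h1, h2⟩
      exact ⟨y', h1, funext fun k => h2 k.val k.isLt⟩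
    · rintro ⟨y', h1, h2⟩
      exact ⟨y', h1, fun k hk => congrFun h2 ⟨k, hk⟩⟩
  rw [this]
  have hm : Measurable (fun (y : Y) (k : Fin m) => y k.val) :=
    measurable_pi_lambda _ fun k => measurable_pi_apply k.val
  exact hm MeasurableSet.of_discrete

theorem Cm_anti (B : Set Y) : Antitone (Cm B) := by
  intro m m' h y hy
  obtain ⟨y', h1, h2⟩ := hy
  exact ⟨y', h1, fun k hk => h2 k (hk.trans_le h)⟩

theorem Cm_inter (B : Set Y) (hB : IsClosed B) : ⋂ m, Cm B m = B := by
  apply Subset.antisymm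
  · intro y hy
    rw [mem_iInter] at hy
    choose z hz hz2 using hy
    have hlim : Tendsto z atTop (𝓝 y) := by
      rw [tendsto_pi_nhds]
      intro k
      apply tendsto_const_nhds.congr'
      filter_upwards [eventually_gt_atTop k] with m hm
      exact (hz2 m k hm).symm
    exact hB.mem_of_tendsto hlim (Eventually.of_forall hz)
  · intro y hy
    rw [mem_iInter]
    exact fun m => ⟨y, hy, fun _ _ => rfl⟩

theorem Cm_tendsto (μ : Measure Y) [IsFiniteMeasure μ] (B : Set Y) (hB : IsClosed B) :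
    Tendsto (fun m => μ (Cm B m \ B)) atTop (𝓝 0) := by
  have h1 : Tendsto (fun m => μ (Cm B m \ B)) atTop (𝓝 (μ (⋂ m, (Cm B m \ B)))) := by
    apply tendsto_measure_iInter_atTop
    · exact fun m => ((Cm_measurable B m).diff hB.measurableSet).nullMeasurableSet
    · intro m m' h
      exact sdiff_subset_sdiff_left (Cm_anti B h)
    · exact ⟨0, measure_ne_top _ _⟩
  have h2 : ⋂ m, (Cm B m \ B) = ∅ := by
    rw [eq_empty_iff_forall_notMem]
    intro y hy
    rw [mem_iInter] at hy
    have h3 : y ∈ ⋂ m, Cm B m := mem_iInter.mpr fun m => (hy m).1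
    rw [Cm_inter B hB] at h3
    exact (hy 0).2 h3
  rw [h2, measure_empty] at h1
  exact h1

/-- the exceptional event of absorption -/
def Exc (B : Set Y) (m : ℕ) : Set (Y × Y) := {q | q.2 ∈ B ∧ join q.2 (trunc m q.1) ∉ B}

theorem join_continuous (m : ℕ) : Continuous (fun q : Y × Y => join q.2 (trunc m q.1)) := by
  apply continuous_pi
  intro k
  apply continuous_pi
  intro i
  have h : (fun q : Y × Y => join q.2 (trunc m q.1) k i) =
      (fun q : Bool × Bool => q.1 || (if m ≤ k then q.2 else false)) ∘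
        (fun q : Y × Y => (q.2 k i, q.1 k i)) := rfl
  rw [h]
  apply (continuous_of_discreteTopology).comp
  exact ((continuous_apply i).comp ((continuous_apply k).comp continuous_snd)).prodMk
    ((continuous_apply i).comp ((continuous_apply k).comp continuous_fst))

theorem Exc_measurable (B : Set Y) (hB : IsClosed B) (m : ℕ) : MeasurableSet (Exc B m) := by
  have : Exc B m = (Prod.snd ⁻¹' B) ∩ ((fun q : Y × Y => join q.2 (trunc m q.1)) ⁻¹' B)ᶜ := rfl
  rw [this]
  exact (measurable_snd hB.measurableSet).inter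
    ((join_continuous m).measurable hB.measurableSet).compl

theorem exc_bound (s t : ℝ) (B : Set Y) (hB : IsClosed B) (m : ℕ) :
    (P.prod P) {q | (G s q.1, G t q.2) ∈ Exc B m} ≤
      (∑' k, (Lv s (k + m) : ℝ≥0∞) * (Lv t (k + m) : ℝ≥0∞)⁻¹) + lam t (Cm B m \ B) := by
  have hpair : Measurable (fun q : Omega × Omega => (G s q.1, G t q.2)) :=
    ((G_measurable s).comp measurable_fst).prodMk ((G_measurable t).comp measurable_snd)
  have hm1 : MeasurableSet {q : Omega × Omega | (G s q.1, G t q.2) ∈ Exc B m} :=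
    hpair (Exc_measurable B hB m)
  rw [← unz_map, Measure.map_apply unz_measurable hm1]
  have hCB : MeasurableSet (Cm B m \ B) := (Cm_measurable B m).diff hB.measurableSet
  have hsub : unz ⁻¹' {q : Omega × Omega | (G s q.1, G t q.2) ∈ Exc B m} ⊆
      (NoOver s t m)ᶜ ∪ Psi s t m ⁻¹' (unz ⁻¹' (Prod.snd ⁻¹' (G t ⁻¹' (Cm B m \ B)))) := by
    intro z hz
    by_cases hno : z ∈ NoOver s t m
    · right
      simp only [mem_preimage, mem_ofPred_eq, Exc] at hz
      obtain ⟨hz1, hz2⟩ := hz
      have hkey : G t (unz (Psi s t m z)).2 = join (G t (unz z).2) (trunc m (G s (unz z).1)) := by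
        funext k i
        simp only [G, unz, Psi, join, trunc]
        by_cases hk : m ≤ k
        · simp only [hk, if_true]
          exact psi_block s t k (z k) (hno k hk) i
        · simp only [hk, if_false, Bool.or_false]
      simp only [mem_preimage]
      rw [hkey]
      refine ⟨⟨_, hz1, ?_⟩, hz2⟩
      intro k hk
      funext i
      simp only [join, trunc]
      rw [if_neg (by omega), Bool.or_false]
    · left
      exact hno
  refine (measure_mono hsub).trans ((measure_union_le _ _).trans ?_)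
  gcongr
  · exact NoOver_compl s t m
  · have hmm : MeasurableSet (unz ⁻¹' (Prod.snd ⁻¹' (G t ⁻¹' (Cm B m \ B)))) :=
      unz_measurable (measurable_snd (G_measurable t hCB))
    rw [← Measure.map_apply (Psi_measurable s t m) hmm, Psi_map,
      ← Measure.map_apply unz_measurable (measurable_snd (G_measurable t hCB)), unz_map]
    have : (Prod.snd ⁻¹' (G t ⁻¹' (Cm B m \ B)) : Set (Omega × Omega)) =
        univ ×ˢ (G t ⁻¹' (Cm B m \ B)) := by
      ext q; simp
    rw [this, Measure.prod_prod, measure_univ, one_mul]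
    unfold lam
    rw [Measure.map_apply (G_measurable t) hCB]

theorem exc_tendsto (s t : ℝ) (hs : 0 ≤ s) (hst : s < t) (ht : t ≤ 1) (B : Set Y)
    (hB : IsClosed B) :
    Tendsto (fun m => (P.prod P) {q | (G s q.1, G t q.2) ∈ Exc B m}) atTop (𝓝 0) := by
  have h1 : Tendsto (fun m => (∑' k, (Lv s (k + m) : ℝ≥0∞) * (Lv t (k + m) : ℝ≥0∞)⁻¹) +
      lam t (Cm B m \ B)) atTop (𝓝 (0 + 0)) :=
    (ENNReal.tendsto_sum_nat_add _ (over_tsum s t hs hst ht)).add (Cm_tendsto (lam t) B hB)
  rw [add_zero] at h1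
  exact tendsto_of_tendsto_of_tendsto_of_le_of_le tendsto_const_nhds h1
    (fun _ => zero_le) (fun m => exc_bound s t B hB m)

/-- **Absorption.** -/
theorem absorb (t : ℝ) (ht : t ≤ 1) (B : Set Y) (hB : IsClosed B) :
    ∀ᵐ x ∂(Lam t), ∀ ε : ℝ≥0∞, 0 < ε → ∀ m0 : ℕ, ∃ m, m0 ≤ m ∧
      lam t {y | y ∈ B ∧ join y (trunc m x) ∉ B} < ε := by
  set f : ℕ → Y → ℝ≥0∞ := fun m x => lam t {y | y ∈ B ∧ join y (trunc m x) ∉ B} with hf
  have hfm : ∀ m, Measurable (f m) := by
    intro m
    exact measurable_measure_prodMk_left (Exc_measurable B hB m)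
  have hint : ∀ m, ∫⁻ x, f m x ∂(Lam t) =
      ∫⁻ s, (P.prod P) {q | (G s q.1, G t q.2) ∈ Exc B m} ∂(tau.restrict (Iio t)) := by
    intro m
    unfold Lam law
    rw [lintegral_map (hfm m) Gp_measurable]
    rw [lintegral_prod (fun a => f m (Gp a)) ((hfm m).comp Gp_measurable).aemeasurable]
    apply lintegral_congr
    intro s
    have hpair : Measurable (fun q : Omega × Omega => (G s q.1, G t q.2)) :=
      ((G_measurable s).comp measurable_fst).prodMk ((G_measurable t).comp measurable_snd)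
    rw [Measure.prod_apply (s := {q : Omega × Omega | (G s q.1, G t q.2) ∈ Exc B m})
      (hpair (Exc_measurable B hB m))]
    apply lintegral_congr
    intro ω
    simp only [hf]
    unfold lam
    rw [Measure.map_apply (G_measurable t)]
    · rfl
    · exact (measurable_prodMk_left (Exc_measurable B hB m) :
        MeasurableSet (Prod.mk (G s ω) ⁻¹' (Exc B m)))
  have hlim : Tendsto (fun m => ∫⁻ x, f m x ∂(Lam t)) atTop (𝓝 0) := by
    simp_rw [hint]
    have h0 : (0 : ℝ≥0∞) = ∫⁻ _ : ℝ, 0 ∂(tau.restrict (Iio t)) := by simp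
    rw [h0]
    apply tendsto_lintegral_of_dominated_convergence (fun _ => 1)
    · intro m
      have : Measurable (fun s : ℝ => ∫⁻ ω, f m (Gp (s, ω)) ∂P) :=
        ((hfm m).comp Gp_measurable).lintegral_prod_right'
      convert this using 2 with s
      have hpair : Measurable (fun q : Omega × Omega => (G s q.1, G t q.2)) :=
        ((G_measurable s).comp measurable_fst).prodMk ((G_measurable t).comp measurable_snd)
      rw [Measure.prod_apply (s := {q : Omega × Omega | (G s q.1, G t q.2) ∈ Exc B m})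
        (hpair (Exc_measurable B hB m))]
      apply lintegral_congr
      intro ω
      simp only [hf]
      unfold lam
      rw [Measure.map_apply (G_measurable t)]
      · rfl
      · exact (measurable_prodMk_left (Exc_measurable B hB m) :
          MeasurableSet (Prod.mk (G s ω) ⁻¹' (Exc B m)))
    · intro m
      exact Eventually.of_forall fun s => prob_le_one
    · simp
    · have hpos : ∀ᵐ s ∂(tau.restrict (Iio t)), 0 ≤ s ∧ s < t := by
        have h1 : ∀ᵐ s ∂(tau.restrict (Iio t)), s < t := ae_restrict_mem measurableSet_Iio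
        have h2 : ∀ᵐ s ∂(tau.restrict (Iio t)), s ∈ Icc (0:ℝ) 1 := by
          apply ae_restrict_of_ae
          unfold tau
          exact ae_restrict_mem measurableSet_Icc
        filter_upwards [h1, h2] with s h1 h2
        exact ⟨h2.1, h1⟩
      filter_upwards [hpos] with s hs
      exact exc_tendsto s t hs.1 hs.2 ht B hB
  have hliminf : ∫⁻ x, liminf (fun m => f m x) atTop ∂(Lam t) = 0 := by
    apply le_antisymm _ zero_le
    refine (lintegral_liminf_le hfm).trans ?_
    rw [hlim.liminf_eq]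
  rw [lintegral_eq_zero_iff (Measurable.liminf hfm)] at hliminf
  filter_upwards [hliminf] with x hx ε hε m0
  have hx' : liminf (fun m => f m x) atTop < ε := by
    rw [hx]; exact hε
  have hfreq := frequently_lt_of_liminf_lt (by isBoundedDefault) hx'
  obtain ⟨m, hm, hm2⟩ := (frequently_atTop.mp hfreq) m0
  exact ⟨m, hm, hm2⟩

end Pool.Agent.TH784.WB
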