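import Mathlib
import Pool.Agent.TH784.WbAbs

/-!
The key lemma: countably many sets that are open in the topology given by free charges and
non-null at lower levels meet every closed set of positive measure at level `t`.
-/

namespace Pool.Agent.TH784.WB

open MeasureTheory Set Filter Topology
open scoped ENNReal

abbrev Idx := Σ k : ℕ, Fin (M k)

/-- the support -/
def S (y : Y) : Set Idx := {p | y p.1 p.2 = true}

theorem ad_finite {x y : Y} (h : ad x y) : (S x ∩ S y).Finite := by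
  obtain ⟨K, hK⟩ := eventually_atTop.mp h
  have hsub : S x ∩ S y ⊆ ⋃ k ∈ Finset.range K, (fun i : Fin (M k) => (⟨k, i⟩ : Idx)) '' univ := by
    rintro ⟨k, i⟩ ⟨h1, h2⟩
    simp only [mem_iUnion, Finset.mem_range]
    refine ⟨k, ?_, i, trivial, rfl⟩
    by_contra hk
    exact hK k (not_lt.mp hk) i ⟨h1, h2⟩
  refine Set.Finite.subset ?_ hsub
  apply Set.Finite.biUnion (Finset.finite_toSet _)
  intro k _
  exact (Set.finite_univ).image _

theorem ad_symm {x y : Y} (h : ad x y) : ad y x := by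
  filter_upwards [h] with k hk i hi
  exact hk i ⟨hi.2, hi.1⟩

/-- typical almost disjointness -/
structure TypAD (κ : Measure Y) : Prop where
  good : ∀ᵐ x ∂κ, x ∈ Good
  had : ∀ x ∈ Good, ∀ᵐ y ∂κ, ad x y

theorem Lam_typ (t : ℝ) : TypAD (Lam t) where
  good := law_good _
  had x hx := by
    apply law_ad _ _ x hx
    calc (tau.restrict (Iio t)) univ ≤ tau univ := Measure.restrict_le_self _
      _ = 1 := measure_univ

theorem lam_typ (t : ℝ) : TypAD (lam t) where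
  good := by rw [lam_eq]; exact law_good _
  had x hx := by
    rw [lam_eq]
    exact law_ad _ (by simp) x hx

variable {κ : Measure Y}

theorem seqAD (hκ : TypAD κ) (D : Set Y) (hD : κ D ≠ 0) :
    ∃ z : ℕ → Y, (∀ n, z n ∈ D) ∧ ∀ m n, m ≠ n → (S (z m) ∩ S (z n)).Finite := by
  have : Std.Symm (fun x y => ad x y) := ⟨fun _ _ h => ad_symm h⟩
  obtain ⟨f, hf, hf2⟩ := exists_seq_of_forall_finset_exists' (fun x => x ∈ D ∧ x ∈ Good)
    (fun x y => ad x y) (by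
      intro s hs
      have h1 : ∀ᵐ y ∂κ, y ∈ Good ∧ ∀ x ∈ s, ad x y := by
        rw [eventually_and]
        refine ⟨hκ.good, ?_⟩
        rw [Finset.eventually_all]
        intro x hx
        exact hκ.had x (hs x hx).2
      obtain ⟨y, hy, hy2⟩ := Measure.exists_mem_of_measure_ne_zero_of_ae hD (ae_restrict_of_ae h1)
      exact ⟨y, ⟨hy, hy2.1⟩, hy2.2⟩)
  refine ⟨f, fun n => (hf n).1, fun m n hmn => ad_finite (hf2 hmn)⟩

theorem charge_large (θ : Charge Idx) (z : ℕ → Y)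
    (hz : ∀ m n, m ≠ n → (S (z m) ∩ S (z n)).Finite) (δ : ℝ) (hδ : 0 < δ)
    (h : ∀ n, δ ≤ θ.m (S (z n))) : False := by
  obtain ⟨N, hN⟩ := exists_nat_gt (θ.m univ / δ)
  have h1 := θ.sum_le_of_ad (Finset.range N) (fun n => S (z n)) (fun i _ j _ hij => hz i j hij)
  have h2 : (N : ℝ) * δ ≤ ∑ i ∈ Finset.range N, θ.m (S (z i)) := by
    have := Finset.card_nsmul_le_sum (Finset.range N) (fun i => θ.m (S (z i))) δ (fun i _ => h i)
    simpa using this
  rw [div_lt_iff₀ hδ] at hN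
  linarith

theorem theta_null (hκ : TypAD κ) (θ : Charge Idx) : ∀ᵐ y ∂κ, θ.m (S y) = 0 := by
  rw [ae_iff]
  by_contra hne
  have hsub : {y | ¬ θ.m (S y) = 0} ⊆ ⋃ n : ℕ, {y | 1 / ((n : ℝ) + 1) ≤ θ.m (S y)} := by
    intro y hy
    have hpos : 0 < θ.m (S y) := lt_of_le_of_ne (θ.nonneg _) (Ne.symm hy)
    obtain ⟨n, hn⟩ := exists_nat_one_div_lt hpos
    exact mem_iUnion.mpr ⟨n, hn.le⟩
  have h2 : κ (⋃ n : ℕ, {y | 1 / ((n : ℝ) + 1) ≤ θ.m (S y)}) ≠ 0 := by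
    intro h0
    exact hne (measure_mono_null hsub h0)
  rw [Ne, measure_iUnion_null_iff] at h2
  push Not at h2
  obtain ⟨n, hn⟩ := h2
  obtain ⟨z, hz1, hz2⟩ := seqAD hκ _ hn
  exact charge_large θ z hz2 (1 / ((n : ℝ) + 1)) (by positivity) hz1

theorem bad_null (hκ : TypAD κ) (W : Set Y) (hW : κ W ≠ 0) (th : Y → Charge Idx) (δ : ℝ)
    (hδ : 0 < δ) : κ {z | κ {x | x ∈ W ∧ (th x).m (S z) < δ} = 0} = 0 := by
  by_contra hne
  -- bounded part
  have hsub : W ⊆ ⋃ n : ℕ, {x | x ∈ W ∧ (th x).m univ ≤ n} := by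
    intro x hx
    obtain ⟨n, hn⟩ := exists_nat_ge ((th x).m univ)
    exact mem_iUnion.mpr ⟨n, hx, hn⟩
  have h2 : κ (⋃ n : ℕ, {x | x ∈ W ∧ (th x).m univ ≤ n}) ≠ 0 := by
    intro h0
    exact hW (measure_mono_null hsub h0)
  rw [Ne, measure_iUnion_null_iff] at h2
  push Not at h2
  obtain ⟨n, hn⟩ := h2
  obtain ⟨z, hz1, hz2⟩ := seqAD hκ _ hne
  have h3 : ∀ᵐ x ∂κ, ∀ i, ¬ (x ∈ W ∧ (th x).m (S (z i)) < δ) := by
    rw [ae_all_iff]
    intro i
    rw [ae_iff]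
    simp only [not_not]
    exact hz1 i
  obtain ⟨x, hx, hx2⟩ := Measure.exists_mem_of_measure_ne_zero_of_ae hn (ae_restrict_of_ae h3)
  refine charge_large (th x) z hz2 δ hδ ?_
  intro i
  by_contra hlt
  exact hx2 i ⟨hx.1, not_le.mp hlt⟩

/-- length of the `i`-th node of the binary tree -/
def len (i : ℕ) : ℕ := ((Encodable.decode (α := List Bool) i).getD []).length

/-- code of the restriction of a branch -/
def code (α : ℕ → Bool) (n : ℕ) : ℕ := Encodable.encode (List.ofFn (fun j : Fin n => α j))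

theorem len_code (α : ℕ → Bool) (n : ℕ) : len (code α n) = n := by
  unfold len code
  rw [Encodable.encodek, Option.getD_some, List.length_ofFn]

theorem code_eq {α β : ℕ → Bool} {n m : ℕ} (h : code α n = code β m) :
    n = m ∧ ∀ j < n, α j = β j := by
  have h1 : n = m := by
    have := congrArg len h
    rwa [len_code, len_code] at this
  subst h1
  refine ⟨rfl, ?_⟩
  unfold code at h
  have h2 := Encodable.encode_injective h
  have h3 := List.ofFn_injective h2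
  intro j hj
  exact congrFun h3 ⟨j, hj⟩

structure St where
  B : Set Y
  Wc : ℕ → Set Y
  A : Set Y
  E : Y

structure Inv (κ : Measure Y) (s : St) : Prop where
  closed : IsClosed s.B
  wpos : ∀ n, κ (s.Wc n) ≠ 0
  anull : κ s.A = 0
  ead : ∀ᵐ x ∂κ, ad s.E x

structure Step (κ' : Measure Y) (th : ℕ → Y → Charge Idx) (ε : ℕ → ℝ≥0∞)
    (i : ℕ) (s : St) (x : Y) (m : ℕ) (s' : St) : Prop where
  xW : x ∈ s.Wc (len i)
  xA : x ∉ s.A
  cut : ∀ k, m ≤ k → ∀ j, ¬ (s.E k j = true ∧ x k j = true)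
  hB : s'.B = {y | y ∈ s.B ∧ join y (trunc m x) ∈ s.B}
  small : κ' (s.B \ s'.B) < ε i
  hWc : ∀ n, s'.Wc n = {z | z ∈ s.Wc n ∧ (th n z).m (S x) < (1 / 2 : ℝ) ^ (i + 2)}
  hA : s'.A = s.A ∪ {z | ¬ (th (len i) x).m (S z) = 0}
  hE : s'.E = join s.E x

theorem step_exists (hκ : TypAD κ) (κ' : Measure Y)
    (habs : ∀ B : Set Y, IsClosed B → ∀ᵐ x ∂κ, ∀ ε : ℝ≥0∞, 0 < ε → ∀ m0 : ℕ, ∃ m, m0 ≤ m ∧
      κ' {y | y ∈ B ∧ join y (trunc m x) ∉ B} < ε)
    (th : ℕ → Y → Charge Idx) (ε : ℕ → ℝ≥0∞) (hε : ∀ i, 0 < ε i) (i : ℕ) (s : St)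
    (hs : Inv κ s) : ∃ (x : Y) (m : ℕ) (s' : St), Step κ' th ε i s x m s' ∧ Inv κ s' := by
  have h1 : ∀ᵐ x ∂κ, x ∉ s.A := by
    rw [ae_iff]; simpa using hs.anull
  have h2 : ∀ᵐ x ∂κ, ∀ n, κ {z | z ∈ s.Wc n ∧ (th n z).m (S x) < (1 / 2 : ℝ) ^ (i + 2)} ≠ 0 := by
    rw [ae_all_iff]
    intro n
    rw [ae_iff]
    simp only [not_not]
    exact bad_null hκ (s.Wc n) (hs.wpos n) (th n) _ (by positivity)
  have h3 := habs s.B hs.closed
  have h4 := hs.ead
  have h5 := hκ.good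
  have hall : ∀ᵐ x ∂κ, x ∉ s.A ∧ (∀ n, κ {z | z ∈ s.Wc n ∧ (th n z).m (S x) < (1 / 2 : ℝ) ^ (i + 2)} ≠ 0)
      ∧ (∀ ε : ℝ≥0∞, 0 < ε → ∀ m0 : ℕ, ∃ m, m0 ≤ m ∧
      κ' {y | y ∈ s.B ∧ join y (trunc m x) ∉ s.B} < ε) ∧ ad s.E x ∧ x ∈ Good := by
    filter_upwards [h1, h2, h3, h4, h5] with x a b c d e
    exact ⟨a, b, c, d, e⟩
  obtain ⟨x, hxW, hxA, hx2, hx3, hx4, hx5⟩ :=
    Measure.exists_mem_of_measure_ne_zero_of_ae (hs.wpos (len i)) (ae_restrict_of_ae hall)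
  obtain ⟨m0, hm0⟩ := eventually_atTop.mp hx4
  obtain ⟨m, hm, hmε⟩ := hx3 (ε i) (hε i) m0
  refine ⟨x, m, ⟨{y | y ∈ s.B ∧ join y (trunc m x) ∈ s.B},
    fun n => {z | z ∈ s.Wc n ∧ (th n z).m (S x) < (1 / 2 : ℝ) ^ (i + 2)},
    s.A ∪ {z | ¬ (th (len i) x).m (S z) = 0}, join s.E x⟩, ?_, ?_⟩
  · refine ⟨hxW, hxA, ?_, rfl, ?_, fun n => rfl, rfl, rfl⟩
    · intro k hk j
      exact hm0 k (hm.trans hk) j
    · refine lt_of_le_of_lt (measure_mono ?_) hmε
      rintro y ⟨hy1, hy2⟩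
      refine ⟨hy1, fun h => hy2 ⟨hy1, h⟩⟩
  · refine ⟨?_, hx2, ?_, ?_⟩
    · have : {y | y ∈ s.B ∧ join y (trunc m x) ∈ s.B} =
          s.B ∩ (fun y => join y (trunc m x)) ⁻¹' s.B := rfl
      simp only [this]
      refine hs.closed.inter (hs.closed.preimage ?_)
      exact (join_continuous m).comp (continuous_const.prodMk continuous_id)
    · simp only
      rw [measure_union_null_iff]
      exact ⟨hs.anull, (theta_null hκ (th (len i) x))⟩
    · have h6 := hκ.had x hx5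
      filter_upwards [hs.ead, h6] with z hz1 hz2
      filter_upwards [hz1, hz2] with k hk1 hk2 j hj
      simp only [join, Bool.or_eq_true] at hj
      rcases hj with ⟨h7 | h7, h8⟩
      · exact hk1 j ⟨h7, h8⟩
      · exact hk2 j ⟨h7, h8⟩

end Pool.Agent.TH784.WB
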