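import Mathlib
import Pool.Agent.TH784.WbKey

namespace Pool.Agent.TH784.WB

open MeasureTheory Set Filter Topology
open scoped ENNReal

theorem S_trunc (m : ℕ) (x : Y) : S (trunc m x) ⊆ S x := by
  rintro ⟨k, i⟩ h
  simp only [S, mem_ofPred_eq, trunc] at h ⊢
  split_ifs at h with hk
  · exact h
  

theorem S_trunc_fin (m : ℕ) (x : Y) : (S x \ S (trunc m x)).Finite := by
  have hsub : S x \ S (trunc m x) ⊆
      ⋃ k ∈ Finset.range m, (fun i : Fin (M k) => (⟨k, i⟩ : Idx)) '' univ := by
    rintro ⟨k, i⟩ ⟨h1, h2⟩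
    simp only [mem_iUnion, Finset.mem_range]
    refine ⟨k, ?_, i, trivial, rfl⟩
    by_contra hk
    apply h2
    simp only [S, mem_ofPred_eq, trunc] at h1 ⊢
    rw [if_pos (not_lt.mp hk)]
    exact h1
  refine Set.Finite.subset ?_ hsub
  apply Set.Finite.biUnion (Finset.finite_toSet _)
  intro k _
  exact (Set.finite_univ).image _

theorem geo_sum (K : ℕ) : ∑ j ∈ Finset.range K, (1 / 2 : ℝ) ^ (j + 2) ≤ 1 / 2 := by
  have h : ∀ K : ℕ, ∑ j ∈ Finset.range K, (1 / 2 : ℝ) ^ (j + 2) = 1 / 2 - (1 / 2 : ℝ) ^ (K + 1) := by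
    intro K
    induction K with
    | zero => norm_num
    | succ n ih =>
      rw [Finset.sum_range_succ, ih]
      ring
  rw [h]
  have : (0 : ℝ) ≤ (1 / 2 : ℝ) ^ (K + 1) := by positivity
  linarith

/-- the sets indexed by the nodes of the branch `α` with code at least `K` -/
def Tl (E : ℕ → Set Idx) (α : ℕ → Bool) (K : ℕ) : Set Idx :=
  {p | ∃ n, K ≤ code α n ∧ p ∈ E (code α n)}

theorem Tl_disj (E : ℕ → Set Idx) (hE : ∀ i j, i < j → Disjoint (E i) (E j))
    (α β : ℕ → Bool) (h : α ≠ β) : ∃ K0, ∀ K, K0 ≤ K → Tl E α K ∩ Tl E β K = ∅ := by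
  obtain ⟨j0, hj0⟩ := Function.ne_iff.mp h
  obtain ⟨K0, hK0⟩ : ∃ K0, ∀ n ≤ j0, code α n < K0 := by
    refine ⟨(Finset.range (j0 + 1)).sup (fun n => code α n) + 1, ?_⟩
    intro n hn
    have := Finset.le_sup (f := fun n => code α n)
      (show n ∈ Finset.range (j0 + 1) from Finset.mem_range.mpr (by omega))
    omega
  refine ⟨K0, fun K hK => ?_⟩
  rw [eq_empty_iff_forall_notMem]
  rintro p ⟨⟨n, hn1, hn2⟩, ⟨n', hn'1, hn'2⟩⟩
  by_cases hc : code α n = code β n'
  · obtain ⟨h1, h2⟩ := code_eq hc
    have h3 : n ≤ j0 := by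
      by_contra hlt
      exact hj0 (h2 j0 (not_le.mp hlt))
    have := hK0 n h3
    omega
  · rcases lt_or_gt_of_ne hc with h1 | h1
    · exact (Set.disjoint_left.mp (hE _ _ h1)) hn2 hn'2
    · exact (Set.disjoint_left.mp (hE _ _ h1)) hn'2 hn2

theorem branch_finite (E : ℕ → Set Idx) (hE : ∀ i j, i < j → Disjoint (E i) (E j))
    (θ : Charge Idx) : {α : ℕ → Bool | ∀ K, 1 / 4 < θ.m (Tl E α K)}.Finite := by
  by_contra hinf
  have hinf' : {α : ℕ → Bool | ∀ K, 1 / 4 < θ.m (Tl E α K)}.Infinite := hinf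
  let f := hinf'.natEmbedding
  obtain ⟨N, hN⟩ := exists_nat_gt (θ.m univ / (1 / 4))
  have hK : ∃ K, ∀ a ∈ Finset.range N, ∀ b ∈ Finset.range N, a ≠ b →
      Tl E (f a).1 K ∩ Tl E (f b).1 K = ∅ := by
    have h1 : ∀ a b : ℕ, ∃ K0, ∀ K, K0 ≤ K → a ≠ b → Tl E (f a).1 K ∩ Tl E (f b).1 K = ∅ := by
      intro a b
      by_cases hab : a = b
      · exact ⟨0, fun K _ h => absurd hab h⟩
      · obtain ⟨K0, hK0⟩ := Tl_disj E hE (f a).1 (f b).1 (by
          intro h
          exact hab (f.injective (Subtype.ext h)))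
        exact ⟨K0, fun K hK _ => hK0 K hK⟩
    choose g hg using h1
    refine ⟨(Finset.range N).sup (fun a => (Finset.range N).sup (fun b => g a b)), ?_⟩
    intro a ha b hb hab
    apply hg a b _ _ hab
    exact (Finset.le_sup (f := fun b => g a b) hb).trans
      (Finset.le_sup (f := fun a => (Finset.range N).sup (fun b => g a b)) ha)
  obtain ⟨K, hK⟩ := hK
  have h1 := θ.sum_le_of_ad (Finset.range N) (fun n => Tl E (f n).1 K) (fun i hi j hj hij => by
    rw [hK i hi j hj hij]; exact finite_empty)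
  have h2 : (N : ℝ) * (1 / 4) ≤ ∑ i ∈ Finset.range N, θ.m (Tl E (f i).1 K) := by
    have := Finset.card_nsmul_le_sum (Finset.range N) (fun i => θ.m (Tl E (f i).1 K)) (1 / 4)
      (fun i _ => ((f i).2 K).le)
    simpa using this
  rw [div_lt_iff₀ (by norm_num)] at hN
  linarith

theorem key (κ κ' : Measure Y) [IsFiniteMeasure κ'] (hκ : TypAD κ) (hκ' : TypAD κ')
    (habs : ∀ B : Set Y, IsClosed B → ∀ᵐ x ∂κ, ∀ ε : ℝ≥0∞, 0 < ε → ∀ m0 : ℕ, ∃ m, m0 ≤ m ∧
      κ' {y | y ∈ B ∧ join y (trunc m x) ∉ B} < ε)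
    (B : Set Y) (hB : IsClosed B) (hBpos : κ' B ≠ 0)
    (W : ℕ → Set Y) (hWpos : ∀ n, κ (W n) ≠ 0) (th : ℕ → Y → Charge Idx)
    (hth : ∀ n, ∀ x ∈ W n, ∀ y, (th n x).m (symmDiff (S x) (S y)) < 1 → y ∈ W n) :
    ∃ y ∈ B, ∀ n, y ∈ W n := by
  obtain ⟨ε, hε, hεsum⟩ := ENNReal.exists_pos_sum_of_countable' hBpos ℕ
  have step := fun (i : ℕ) (s : {s // Inv κ s}) => step_exists hκ κ' habs th ε hε i s.1 s.2
  choose fx fm fs hstep using step
  let s0 : {s // Inv κ s} := ⟨⟨B, W, ∅, fun _ _ => false⟩,
    ⟨hB, hWpos, measure_empty, Eventually.of_forall fun x =>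
      Eventually.of_forall fun k i hi => by simp at hi⟩⟩
  let σ : ℕ → {s // Inv κ s} := fun i =>
    Nat.rec s0 (fun i s => ⟨fs i s, (hstep i s).2⟩) i
  set x : ℕ → Y := fun i => fx i (σ i) with hx
  set m : ℕ → ℕ := fun i => fm i (σ i) with hm
  have hS : ∀ i, Step κ' th ε i (σ i).1 (x i) (m i) (σ (i + 1)).1 := fun i => (hstep i (σ i)).1
  have hB0 : (σ 0).1.B = B := rfl
  have hW0 : (σ 0).1.Wc = W := rfl
  -- monotonicity
  have hBmono : Antitone (fun i => (σ i).1.B) := by
    apply antitone_nat_of_succ_le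
    intro i y hy
    rw [(hS i).hB] at hy
    exact hy.1
  have hAmono : Monotone (fun i => (σ i).1.A) := by
    apply monotone_nat_of_le_succ
    intro i y hy
    rw [(hS i).hA]
    exact Or.inl hy
  have hWmono : ∀ n, Antitone (fun i => (σ i).1.Wc n) := by
    intro n
    apply antitone_nat_of_succ_le
    intro i y hy
    rw [(hS i).hWc] at hy
    exact hy.1
  have hEmono : Monotone (fun i => S (σ i).1.E) := by
    apply monotone_nat_of_le_succ
    rintro i ⟨k, j⟩ hy
    simp only [S, mem_ofPred_eq] at hy ⊢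
    rw [(hS i).hE]
    simp only [join, hy, Bool.true_or]
  have hxE : ∀ i, S (x i) ⊆ S (σ (i + 1)).1.E := by
    rintro i ⟨k, j⟩ hy
    simp only [S, mem_ofPred_eq] at hy ⊢
    rw [(hS i).hE]
    simp only [join, hy, Bool.or_true]
  -- (a), (b)
  have ha : ∀ k i, k < i → (th (len k) (x k)).m (S (x i)) = 0 := by
    intro k i hki
    by_contra hne
    apply (hS i).xA
    apply hAmono (Nat.succ_le_of_lt hki)
    simp only
    rw [(hS k).hA]
    exact Or.inr hne
  have hb : ∀ k i, i < k → (th (len k) (x k)).m (S (x i)) < (1 / 2 : ℝ) ^ (i + 2) := by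
    intro k i hik
    have h1 := (hS k).xW
    have h2 := hWmono (len k) (Nat.succ_le_of_lt hik) h1
    simp only [Nat.succ_eq_add_one] at h2
    rw [(hS i).hWc] at h2
    exact h2.2
  have hxW : ∀ i, x i ∈ W (len i) := by
    intro i
    have h2 := hWmono (len i) (Nat.zero_le i) (hS i).xW
    exact h2
  -- the truncated sets
  set e : ℕ → Y := fun i => trunc (m i) (x i) with he
  have hdisj : ∀ i j, i < j → Disjoint (S (e i)) (S (e j)) := by
    intro i j hij
    rw [Set.disjoint_left]
    rintro ⟨k, l⟩ h1 h2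
    have h3 : (⟨k, l⟩ : Idx) ∈ S (σ j).1.E :=
      hEmono (Nat.succ_le_of_lt hij) (hxE i (S_trunc _ _ h1))
    simp only [S, mem_ofPred_eq, he, trunc] at h2 h3
    split_ifs at h2 with hk
    exact (hS j).cut k hk l ⟨h3, h2⟩
  have hsmall : ∀ k i, i ≠ k → (th (len k) (x k)).m (S (e i)) ≤ (1 / 2 : ℝ) ^ (i + 2) := by
    intro k i hik
    have h1 := (th (len k) (x k)).mono (S_trunc (m i) (x i))
    rcases lt_or_gt_of_ne hik with h | h
    · exact h1.trans (hb k i h).le
    · rw [ha k i h] at h1
      exact h1.trans (by positivity)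
  -- positive measure of the intersection
  have hBinf : κ' (⋂ i, (σ i).1.B) ≠ 0 := by
    intro h0
    have h1 : B \ (⋂ i, (σ i).1.B) ⊆ ⋃ i, ((σ i).1.B \ (σ (i + 1)).1.B) := by
      rintro y ⟨hy1, hy2⟩
      rw [mem_iInter] at hy2
      push Not at hy2
      have hex : ∃ i, y ∉ (σ i).1.B := hy2
      classical
      have hmin := Nat.find_spec hex
      have hpos : Nat.find hex ≠ 0 := by
        intro h
        rw [h] at hmin
        exact hmin hy1
      obtain ⟨i, hi⟩ := Nat.exists_eq_succ_of_ne_zero hpos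
      have h2 : y ∈ (σ i).1.B := by
        by_contra h
        have := Nat.find_min' hex h
        omega
      rw [mem_iUnion]
      refine ⟨i, h2, ?_⟩
      rw [hi] at hmin
      exact hmin
    have h2 : κ' (B \ (⋂ i, (σ i).1.B)) ≤ ∑' i, ε i :=
      (measure_mono h1).trans ((measure_iUnion_le _).trans
        (ENNReal.tsum_le_tsum fun i => (hS i).small.le))
    have h3 : κ' B ≤ κ' (B \ (⋂ i, (σ i).1.B)) + κ' (⋂ i, (σ i).1.B) := by
      refine (measure_mono ?_).trans (measure_union_le _ _)
      intro y hy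
      by_cases h : y ∈ ⋂ i, (σ i).1.B
      · exact Or.inr h
      · exact Or.inl ⟨hy, h⟩
    rw [h0, add_zero] at h3
    exact absurd (h3.trans h2) (not_le.mpr hεsum)
  obtain ⟨ys, hys1, hys2⟩ : ∃ y ∈ (⋂ i, (σ i).1.B), ∀ i, (th (len i) (x i)).m (S y) = 0 := by
    apply Measure.exists_mem_of_measure_ne_zero_of_ae hBinf
    apply ae_restrict_of_ae
    rw [ae_all_iff]
    intro i
    exact theta_null hκ' _
  rw [mem_iInter] at hys1
  -- choice of the branch
  obtain ⟨α, hα⟩ : ∃ α : ℕ → Bool, ∀ i, ∃ K, (th (len i) (x i)).m (Tl (fun j => S (e j)) α K) ≤ 1 / 4 := by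
    have hc : (⋃ i, {α : ℕ → Bool | ∀ K, 1 / 4 < (th (len i) (x i)).m
        (Tl (fun j => S (e j)) α K)}).Countable := by
      apply Set.countable_iUnion
      intro i
      exact (branch_finite _ hdisj _).countable
    have hu : ¬ (univ : Set (ℕ → Bool)).Countable := by
      rw [Set.countable_univ_iff]
      intro h
      have h2 := Cardinal.mk_le_aleph0_iff.mpr h
      have h3 : Cardinal.mk (ℕ → Bool) = 2 ^ Cardinal.aleph0 := by
        rw [← Cardinal.mk_bool, ← Cardinal.mk_nat, Cardinal.power_def]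
      rw [h3] at h2
      exact absurd h2 (not_le.mpr (Cardinal.cantor _))
    by_contra hcon
    push Not at hcon
    apply hu
    refine hc.mono ?_
    intro α _
    obtain ⟨i, hi⟩ := hcon α
    exact mem_iUnion.mpr ⟨i, hi⟩
  classical
  -- the point
  set part : Y → ℕ → Y := fun z K k j =>
    z k j || decide (∃ n, code α n < K ∧ e (code α n) k j = true) with hpart
  set y : Y := fun k j => ys k j || decide (∃ n, e (code α n) k j = true) with hy
  have hpartB : ∀ K, ∀ z ∈ (σ K).1.B, part z K ∈ B := by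
    intro K
    induction K with
    | zero =>
      intro z hz
      have : part z 0 = z := by
        funext k j
        simp [hpart]
      rw [this]
      exact hz
    | succ K ih =>
      intro z hz
      rw [(hS K).hB] at hz
      obtain ⟨hz1, hz2⟩ := hz
      by_cases hK : ∃ n, code α n = K
      · obtain ⟨n0, hn0⟩ := hK
        have h1 := ih _ hz2
        have h2 : part (join z (trunc (m K) (x K))) K = part z (K + 1) := by
          funext k j
          rw [Bool.eq_iff_iff]
          simp only [hpart, join, Bool.or_eq_true, decide_eq_true_eq]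
          constructor
          · rintro ((h | h) | ⟨n, h3, h4⟩)
            · exact Or.inl h
            · exact Or.inr ⟨n0, by omega, by rw [hn0]; exact h⟩
            · exact Or.inr ⟨n, by omega, h4⟩
          · rintro (h | ⟨n, h3, h4⟩)
            · exact Or.inl (Or.inl h)
            · by_cases h5 : code α n = K
              · rw [h5] at h4
                exact Or.inl (Or.inr h4)
              · exact Or.inr ⟨n, by omega, h4⟩
        rw [← h2]
        exact h1
      · have h2 : part z (K + 1) = part z K := by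
          funext k j
          rw [Bool.eq_iff_iff]
          simp only [hpart, Bool.or_eq_true, decide_eq_true_eq]
          constructor
          · rintro (h | ⟨n, h3, h4⟩)
            · exact Or.inl h
            · refine Or.inr ⟨n, ?_, h4⟩
              have : code α n ≠ K := fun h => hK ⟨n, h⟩
              omega
          · rintro (h | ⟨n, h3, h4⟩)
            · exact Or.inl h
            · exact Or.inr ⟨n, by omega, h4⟩
        rw [h2]
        exact ih z hz1
  have hyB : y ∈ B := by
    have hlim : Tendsto (fun K => part ys K) atTop (𝓝 y) := by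
      rw [tendsto_pi_nhds]
      intro k
      rw [tendsto_pi_nhds]
      intro j
      apply tendsto_const_nhds.congr'
      by_cases h : ∃ n, e (code α n) k j = true
      · obtain ⟨n, hn⟩ := h
        filter_upwards [eventually_gt_atTop (code α n)] with K hK
        rw [Bool.eq_iff_iff]
        simp only [hpart, hy, Bool.or_eq_true, decide_eq_true_eq]
        constructor
        · intro _
          exact Or.inr ⟨n, hK, hn⟩
        · intro _
          exact Or.inr ⟨n, hn⟩
      · apply Eventually.of_forall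
        intro K
        rw [Bool.eq_iff_iff]
        simp only [hpart, hy, Bool.or_eq_true, decide_eq_true_eq]
        constructor
        · rintro (h1 | h1)
          · exact Or.inl h1
          · exact absurd h1 h
        · rintro (h1 | ⟨n, _, h1⟩)
          · exact Or.inl h1
          · exact absurd ⟨n, h1⟩ h
    exact hB.mem_of_tendsto hlim (Eventually.of_forall fun K => hpartB K ys (hys1 K))
  refine ⟨y, hyB, ?_⟩
  intro n
  set i := code α n with hi
  have hlen : len i = n := len_code α n
  have hxi : x i ∈ W n := by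
    have := hxW i
    rwa [hlen] at this
  apply hth n (x i) hxi
  obtain ⟨K, hK⟩ := hα i
  rw [hlen] at hK
  have hsm : ∀ j, j ≠ i → (th n (x i)).m (S (e j)) ≤ (1 / 2 : ℝ) ^ (j + 2) := by
    intro j hj
    have := hsmall i j hj
    rwa [hlen] at this
  have hy0 : (th n (x i)).m (S ys) = 0 := by
    have := hys2 i
    rwa [hlen] at this
  have hsub : symmDiff (S (x i)) (S y) ⊆
      (((S (x i) \ S (e i)) ∪ S ys) ∪ (⋃ j ∈ (Finset.range K).erase i, S (e j))) ∪
        Tl (fun j => S (e j)) α K := by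
    rintro ⟨k, l⟩ hp
    rw [Set.mem_symmDiff] at hp
    rcases hp with ⟨h1, h2⟩ | ⟨h1, h2⟩
    · left; left; left
      refine ⟨h1, fun h3 => h2 ?_⟩
      simp only [S, mem_ofPred_eq, hy, Bool.or_eq_true, decide_eq_true_eq] at h3 ⊢
      exact Or.inr ⟨n, h3⟩
    · simp only [S, mem_ofPred_eq, hy, Bool.or_eq_true, decide_eq_true_eq] at h1
      rcases h1 with h1 | ⟨n', h1⟩
      · left; left; right
        exact h1
      · by_cases hc : code α n' = i
        · exfalso
          apply h2
          rw [hc] at h1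
          exact S_trunc _ _ h1
        · by_cases hcK : K ≤ code α n'
          · right
            exact ⟨n', hcK, h1⟩
          · left; right
            simp only [mem_iUnion, Finset.mem_erase, Finset.mem_range]
            exact ⟨code α n', ⟨hc, by omega⟩, h1⟩
  have h1 := (th n (x i)).mono hsub
  have h2 := (th n (x i)).union_le
    (((S (x i) \ S (e i)) ∪ S ys) ∪ (⋃ j ∈ (Finset.range K).erase i, S (e j)))
    (Tl (fun j => S (e j)) α K)
  have h3 := (th n (x i)).union3_le (S (x i) \ S (e i)) (S ys)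
    (⋃ j ∈ (Finset.range K).erase i, S (e j))
  have h4 : (th n (x i)).m (S (x i) \ S (e i)) = 0 := (th n (x i)).fin _ (S_trunc_fin _ _)
  have h5 := (th n (x i)).biUnion_le ((Finset.range K).erase i) (fun j => S (e j))
  have h6 : ∑ j ∈ (Finset.range K).erase i, (th n (x i)).m (S (e j)) ≤ 1 / 2 := by
    calc _ ≤ ∑ j ∈ (Finset.range K).erase i, (1 / 2 : ℝ) ^ (j + 2) :=
          Finset.sum_le_sum fun j hj => hsm j (Finset.ne_of_mem_erase hj)
      _ ≤ ∑ j ∈ Finset.range K, (1 / 2 : ℝ) ^ (j + 2) := by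
          apply Finset.sum_le_sum_of_subset_of_nonneg (Finset.erase_subset _ _)
          intro j _ _
          positivity
      _ ≤ 1 / 2 := geo_sum K
  linarith

end Pool.Agent.TH784.WB
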