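import Mathlib
import Pool.Agent.TH784.WbKey2

/-!
The sigma-ideal and the extended measure.
-/

namespace Pool.Agent.TH784.WB

open MeasureTheory Set Filter Topology
open scoped ENNReal

/-- open in the topology given by the free charges -/
def FreeOpen (W : Set Y) : Prop :=
  ∀ x ∈ W, ∃ θ : Charge Idx, ∀ y, θ.m (symmDiff (S x) (S y)) < 1 → y ∈ W

def Charge.zero (ι : Type) : Charge ι where
  m _ := 0
  nonneg _ := le_rfl
  add _ _ _ := by simp
  fin _ _ := rfl

theorem FreeOpen.univ : FreeOpen (Set.univ : Set Y) :=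
  fun _ _ => ⟨Charge.zero _, fun _ _ => trivial⟩

theorem FreeOpen.sUnion {𝒲 : Set (Set Y)} (h : ∀ W ∈ 𝒲, FreeOpen W) : FreeOpen (⋃₀ 𝒲) := by
  rintro x ⟨W, hW, hx⟩
  obtain ⟨θ, hθ⟩ := h W hW x hx
  exact ⟨θ, fun y hy => ⟨W, hW, hθ y hy⟩⟩

/-- levels above which `W` is non-null -/
def Up (W : Set Y) : Set ℝ := {t | ∃ s, s < t ∧ Lam s W ≠ 0}

theorem Up_open (W : Set Y) : IsOpen (Up W) := by
  have : Up W = ⋃ s ∈ {s | Lam s W ≠ 0}, Ioi s := by
    ext t
    simp only [Up, mem_ofPred_eq, mem_iUnion, mem_Ioi]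
    constructor
    · rintro ⟨s, h1, h2⟩
      exact ⟨s, h2, h1⟩
    · rintro ⟨s, h1, h2⟩
      exact ⟨s, h2, h1⟩
  rw [this]
  exact isOpen_biUnion fun s _ => isOpen_Ioi

noncomputable def mk (p : ℝ × Omega) : ℝ × Y := (p.1, G p.1 p.2)

theorem mk_measurable : Measurable mk := measurable_fst.prodMk Gp_measurable

/-- the joint law -/
noncomputable def LL : Measure (ℝ × Y) := (tau.prod P).map mk

instance LL_prob : IsProbabilityMeasure LL :=
  Measure.isProbabilityMeasure_map mk_measurable.aemeasurable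

theorem Lam_ac {s t : ℝ} (h : s ≤ t) : Lam s ≪ Lam t := by
  unfold Lam law
  apply Measure.AbsolutelyContinuous.map _ Gp_measurable
  apply Measure.AbsolutelyContinuous.prod _ Measure.AbsolutelyContinuous.rfl
  exact (Measure.restrict_mono (Iio_subset_Iio h) le_rfl).absolutelyContinuous

theorem tau_Iio (t : ℝ) (ht : 0 < t) : tau (Iio t) ≠ 0 := by
  unfold tau
  rw [Measure.restrict_apply measurableSet_Iio]
  have h1 : Ioo 0 (min t 1) ⊆ Iio t ∩ Icc 0 1 := by
    intro x hx
    exact ⟨hx.2.trans_le (min_le_left _ _), hx.1.le, (hx.2.trans_le (min_le_right _ _)).le⟩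
  intro h0
  have h2 := measure_mono_null h1 h0
  rw [Real.volume_Ioo, ENNReal.ofReal_eq_zero] at h2
  have : 0 < min t 1 := lt_min ht one_pos
  linarith

theorem Lam_univ (t : ℝ) (ht : 0 < t) : Lam t univ ≠ 0 := by
  unfold Lam
  rw [law_apply _ MeasurableSet.univ]
  simp only [measure_univ, lintegral_const, one_mul, Measure.restrict_apply_univ]
  exact tau_Iio t ht

/-- the sigma-ideal -/
def Small (N : Set (ℝ × Y)) : Prop :=
  ∃ (G0 : Set (ℝ × Y)) (𝒲 : Set (Set Y)), 𝒲.Countable ∧ LL G0 = 0 ∧ (∀ W ∈ 𝒲, FreeOpen W) ∧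
    N ⊆ G0 ∪ ⋃ W ∈ 𝒲, {p | p.1 ∈ Up W ∧ p.2 ∉ W}

theorem Small.mono {N N' : Set (ℝ × Y)} (h : Small N) (hs : N' ⊆ N) : Small N' := by
  obtain ⟨G0, 𝒲, h1, h2, h3, h4⟩ := h
  exact ⟨G0, 𝒲, h1, h2, h3, hs.trans h4⟩

theorem Small.of_null {N : Set (ℝ × Y)} (h : LL N = 0) : Small N :=
  ⟨N, ∅, countable_empty, h, by simp, subset_union_left⟩

theorem Small.union {ι : Type} [Countable ι] {N : ι → Set (ℝ × Y)} (h : ∀ i, Small (N i)) :
    Small (⋃ i, N i) := by
  choose G0 𝒲 h1 h2 h3 h4 using h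
  refine ⟨⋃ i, G0 i, ⋃ i, 𝒲 i, countable_iUnion h1, ?_, ?_, ?_⟩
  · rw [measure_iUnion_null_iff]
    exact h2
  · intro W hW
    obtain ⟨i, hi⟩ := mem_iUnion.mp hW
    exact h3 i W hi
  · intro p hp
    obtain ⟨i, hi⟩ := mem_iUnion.mp hp
    rcases h4 i hi with h | h
    · exact Or.inl (mem_iUnion.mpr ⟨i, h⟩)
    · right
      simp only [mem_iUnion] at h ⊢
      obtain ⟨W, hW, hp⟩ := h
      exact ⟨W, ⟨i, hW⟩, hp⟩

theorem small_null {N : Set (ℝ × Y)} (h : Small N) (hN : MeasurableSet N) : LL N = 0 := by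
  classical
  obtain ⟨G0, 𝒲, h1, h2, h3, h4⟩ := h
  by_contra hne
  set N1 := N \ toMeasurable LL G0 with hN1
  have hG0 : LL (toMeasurable LL G0) = 0 := by rw [measure_toMeasurable]; exact h2
  have hN1m : MeasurableSet N1 := hN.diff (measurableSet_toMeasurable _ _)
  have hN1pos : LL N1 ≠ 0 := by
    intro h0
    apply hne
    have : N ⊆ N1 ∪ toMeasurable LL G0 := by
      intro p hp
      by_cases hq : p ∈ toMeasurable LL G0
      · exact Or.inr hq
      · exact Or.inl ⟨hp, hq⟩
    exact measure_mono_null this (measure_union_null h0 hG0)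
  obtain ⟨K, hKsub, hKc, hKpos⟩ := hN1m.exists_lt_isCompact (pos_iff_ne_zero.mpr hN1pos)
  have hKm : MeasurableSet K := hKc.isClosed.measurableSet
  have hex : ∃ t : ℝ, (0 < t ∧ t ≤ 1) ∧ lam t {y | (t, y) ∈ K} ≠ 0 := by
    by_contra hcon
    push Not at hcon
    apply hKpos.ne'
    unfold LL
    rw [Measure.map_apply mk_measurable hKm, Measure.measure_prod_null (mk_measurable hKm)]
    have hae : ∀ᵐ t ∂tau, 0 < t ∧ t ≤ 1 := by
      have h5 : ∀ᵐ t ∂tau, t ∈ Icc (0 : ℝ) 1 := by
        unfold tau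
        exact ae_restrict_mem measurableSet_Icc
      have h6 : ∀ᵐ t ∂tau, t ≠ 0 := by
        unfold tau
        apply ae_restrict_of_ae
        rw [ae_iff]
        simp
      filter_upwards [h5, h6] with t h5 h6
      exact ⟨lt_of_le_of_ne h5.1 (Ne.symm h6), h5.2⟩
    filter_upwards [hae] with t ht
    have h7 := hcon t ht
    unfold lam at h7
    rw [Measure.map_apply (G_measurable t)] at h7
    · exact h7
    · exact measurable_prodMk_left hKm
  obtain ⟨t, ⟨ht0, ht1⟩, htK⟩ := hex
  -- enumerate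
  have hcount : (insert univ 𝒲 : Set (Set Y)).Countable := h1.insert _
  obtain ⟨W0, hW0⟩ := hcount.exists_eq_range ⟨univ, mem_insert _ _⟩
  have hfree : ∀ n, FreeOpen (W0 n) := by
    intro n
    have : W0 n ∈ (insert univ 𝒲 : Set (Set Y)) := by rw [hW0]; exact mem_range_self n
    rcases this with h | h
    · rw [h]; exact FreeOpen.univ
    · exact h3 _ h
  let W : ℕ → Set Y := fun n => if t ∈ Up (W0 n) then W0 n else univ
  have hWfree : ∀ n, FreeOpen (W n) := by
    intro n
    simp only [W]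
    split_ifs
    · exact hfree n
    · exact FreeOpen.univ
  have hWpos : ∀ n, Lam t (W n) ≠ 0 := by
    intro n
    simp only [W]
    split_ifs with hu
    · obtain ⟨s, hs1, hs2⟩ := hu
      intro h0
      exact hs2 (Lam_ac hs1.le h0)
    · exact Lam_univ t ht0
  choose th hth using hWfree
  let th' : ℕ → Y → Charge Idx := fun n x => if h : x ∈ W n then th n x h else Charge.zero _
  have hBc : IsClosed {y | (t, y) ∈ K} :=
    hKc.isClosed.preimage (continuous_const.prodMk continuous_id)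
  obtain ⟨y, hyB, hyW⟩ := key (Lam t) (lam t) (Lam_typ t) (lam_typ t)
    (fun B hB => absorb t ht1 B hB) {y | (t, y) ∈ K} hBc htK W hWpos th' (by
      intro n x hx y hy
      simp only [th', dif_pos hx] at hy
      exact hth n x hx y hy)
  have hmem := hKsub hyB
  rcases h4 hmem.1 with h | h
  · exact hmem.2 (subset_toMeasurable _ _ h)
  · simp only [mem_iUnion] at h
    obtain ⟨W1, hW1, hp1, hp2⟩ := h
    have : W1 ∈ (insert univ 𝒲 : Set (Set Y)) := Or.inr hW1
    rw [hW0] at this
    obtain ⟨n, hn⟩ := this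
    have h8 := hyW n
    simp only [W] at h8
    rw [hn, if_pos hp1] at h8
    exact hp2 h8

/-- the filter of complements of small sets -/
def lf : Filter (ℝ × Y) where
  sets := {E | Small Eᶜ}
  univ_sets := by
    simp only [mem_ofPred_eq, compl_univ]
    exact Small.of_null measure_empty
  sets_of_superset := by
    intro A B hA hAB
    exact Small.mono hA (compl_subset_compl.mpr hAB)
  inter_sets := by
    intro A B hA hB
    simp only [mem_ofPred_eq] at *
    have : (A ∩ B)ᶜ ⊆ ⋃ b : Bool, (if b then Aᶜ else Bᶜ) := by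
      intro p hp
      rw [compl_inter] at hp
      rcases hp with h | h
      · exact mem_iUnion.mpr ⟨true, by simpa using h⟩
      · exact mem_iUnion.mpr ⟨false, by simpa using h⟩
    refine Small.mono (Small.union (N := fun b : Bool => if b then Aᶜ else Bᶜ) ?_) this
    rintro (_ | _)
    · simpa using hB
    · simpa using hA

theorem mem_lf {E : Set (ℝ × Y)} : E ∈ lf ↔ Small Eᶜ := Iff.rfl

instance : CountableInterFilter lf where
  countable_sInter_mem := by
    intro 𝒮 hc h
    rw [mem_lf, sInter_eq_iInter, compl_iInter]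
    have := hc.to_subtype
    exact Small.union fun i => h i.1 i.2

theorem LL_congr {D D' : Set (ℝ × Y)} (hD : MeasurableSet D) (hD' : MeasurableSet D')
    (h : D =ᶠ[lf] D') : LL D = LL D' := by
  have key : ∀ {D D' : Set (ℝ × Y)}, MeasurableSet D → MeasurableSet D' → D =ᶠ[lf] D' →
      LL D ≤ LL D' := by
    intro D D' hD hD' h
    have h1 : Small (D \ D') := by
      refine Small.mono (mem_lf.mp h) ?_
      rintro p ⟨hp1, hp2⟩ heq
      apply hp2
      have : D p = D' p := heq
      have h3 : D' p := this ▸ hp1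
      exact h3
    have h2 := small_null h1 (hD.diff hD')
    calc LL D ≤ LL (D' ∪ (D \ D')) := measure_mono (by
          intro p hp
          by_cases hq : p ∈ D'
          · exact Or.inl hq
          · exact Or.inr ⟨hp, hq⟩)
      _ ≤ LL D' + LL (D \ D') := measure_union_le _ _
      _ = LL D' := by rw [h2, add_zero]
  exact le_antisymm (key hD hD' h) (key hD' hD h.symm)

end Pool.Agent.TH784.WB
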