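import Mathlib
import Pool.Agent.TH784.WbExt

/-!
The extended measure.
-/

namespace Pool.Agent.TH784.WB

open MeasureTheory Set Filter Topology
open scoped ENNReal

/-- the extended sigma-algebra -/
@[reducible] noncomputable def mS : MeasurableSpace (ℝ × Y) :=
  eventuallyMeasurableSpace (inferInstance : MeasurableSpace (ℝ × Y)) lf

theorem mS_iff {E : Set (ℝ × Y)} : MeasurableSet[mS] E ↔ ∃ D, MeasurableSet D ∧ E =ᶠ[lf] D :=
  Iff.rfl

noncomputable def rep (E : Set (ℝ × Y)) (hE : MeasurableSet[mS] E) : Set (ℝ × Y) :=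
  Classical.choose (mS_iff.mp hE)

theorem rep_meas (E : Set (ℝ × Y)) (hE : MeasurableSet[mS] E) : MeasurableSet (rep E hE) :=
  (Classical.choose_spec (mS_iff.mp hE)).1

theorem rep_eq (E : Set (ℝ × Y)) (hE : MeasurableSet[mS] E) : E =ᶠ[lf] rep E hE :=
  (Classical.choose_spec (mS_iff.mp hE)).2

noncomputable def muS : @Measure (ℝ × Y) mS :=
  @Measure.ofMeasurable (ℝ × Y) mS (fun E hE => LL (rep E hE))
    (by
      have h := LL_congr (rep_meas ∅ (@MeasurableSet.empty _ mS)) MeasurableSet.empty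
        (rep_eq ∅ (@MeasurableSet.empty _ mS)).symm
      rw [h, measure_empty])
    (by
      intro f hf hdisj
      have hU := @MeasurableSet.iUnion _ _ mS _ f hf
      have h1 : rep (⋃ i, f i) hU =ᶠ[lf] ⋃ i, rep (f i) (hf i) :=
        (rep_eq _ hU).symm.trans (Filter.EventuallyEq.countable_iUnion fun i => rep_eq _ (hf i))
      rw [LL_congr (rep_meas _ hU) (MeasurableSet.iUnion fun i => rep_meas _ (hf i)) h1]
      apply measure_iUnion₀
      · intro i j hij
        have h2 : (rep (f i) (hf i) ∩ rep (f j) (hf j) : Set (ℝ × Y)) =ᶠ[lf] (∅ : Set (ℝ × Y)) := by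
          have h3 := ((rep_eq _ (hf i)).symm.inter (rep_eq _ (hf j)).symm)
          rw [Set.disjoint_iff_inter_eq_empty.mp (hdisj hij)] at h3
          exact h3
        have h4 := LL_congr ((rep_meas _ (hf i)).inter (rep_meas _ (hf j))) MeasurableSet.empty h2
        rw [measure_empty] at h4
        exact h4
      · intro i
        exact (rep_meas _ (hf i)).nullMeasurableSet)

theorem muS_apply {E D : Set (ℝ × Y)} (hD : MeasurableSet D) (h : E =ᶠ[lf] D) :
    muS E = LL D := by
  have hE : MeasurableSet[mS] E := ⟨D, hD, h⟩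
  unfold muS
  rw [@Measure.ofMeasurable_apply _ mS _ _ _ E hE]
  exact LL_congr (rep_meas _ hE) hD ((rep_eq _ hE).symm.trans h)

theorem muS_meas {D : Set (ℝ × Y)} (hD : MeasurableSet D) : muS D = LL D :=
  muS_apply hD (EventuallyEq.refl _ _)

theorem muS_univ : muS univ = 1 := by
  rw [muS_meas MeasurableSet.univ]
  exact measure_univ

theorem LL_fst (T : Set ℝ) (hT : MeasurableSet T) : LL {p | p.1 ∈ T} = tau T := by
  unfold LL
  have hm : MeasurableSet {p : ℝ × Y | p.1 ∈ T} := measurable_fst hT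
  rw [Measure.map_apply mk_measurable hm]
  have : mk ⁻¹' {p : ℝ × Y | p.1 ∈ T} = T ×ˢ univ := by
    ext p
    simp [mk]
  rw [this, Measure.prod_prod, measure_univ, mul_one]

theorem LL_low (q : ℝ) (W : Set Y) (h : Lam q W = 0) : LL {p | p.1 < q ∧ p.2 ∈ W} = 0 := by
  obtain ⟨W0, hWW0, hW0m, hW0⟩ : ∃ W0, W ⊆ W0 ∧ MeasurableSet W0 ∧ Lam q W0 = 0 :=
    ⟨toMeasurable (Lam q) W, subset_toMeasurable _ _, measurableSet_toMeasurable _ _,
      by rw [measure_toMeasurable]; exact h⟩
  have hm : MeasurableSet {p : ℝ × Y | p.1 < q ∧ p.2 ∈ W0} :=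
    (measurableSet_lt measurable_fst measurable_const).inter (measurable_snd hW0m)
  refine measure_mono_null (t := {p : ℝ × Y | p.1 < q ∧ p.2 ∈ W0}) ?_ ?_
  · rintro p ⟨h1, h2⟩
    exact ⟨h1, hWW0 h2⟩
  · unfold LL
    rw [Measure.map_apply mk_measurable hm]
    have h1 : (tau.restrict (Iio q)).prod P = (tau.prod P).restrict (Iio q ×ˢ univ) := by
      rw [← Measure.prod_restrict, Measure.restrict_univ]
    unfold Lam law at hW0
    rw [h1, Measure.map_apply Gp_measurable hW0m,
      Measure.restrict_apply (Gp_measurable hW0m)] at hW0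
    refine measure_mono_null ?_ hW0
    rintro p ⟨h2, h3⟩
    exact ⟨h3, h2, trivial⟩

theorem tau_subsingleton (T : Set ℝ) (hT : T.Subsingleton) : tau T = 0 := by
  unfold tau
  apply measure_mono_null (t := T) le_rfl
  have h : (volume : Measure ℝ) T = 0 := hT.measure_zero volume
  exact Measure.absolutelyContinuous_of_le (Measure.restrict_le_self) h

theorem low_null (W : Set Y) : LL {p | p.1 ∉ Up W ∧ p.2 ∈ W} = 0 := by
  set T1 : Set ℝ := {t | t ∉ Up W ∧ ∀ q : ℚ, t < q → Lam q W ≠ 0} with hT1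
  have hsub : {p : ℝ × Y | p.1 ∉ Up W ∧ p.2 ∈ W} ⊆
      (⋃ q : {q : ℚ // Lam (q : ℝ) W = 0}, {p : ℝ × Y | p.1 < (q.1 : ℝ) ∧ p.2 ∈ W}) ∪
        {p : ℝ × Y | p.1 ∈ T1} := by
    rintro p ⟨h1, h2⟩
    by_cases h : ∃ q : ℚ, p.1 < q ∧ Lam q W = 0
    · obtain ⟨q, hq1, hq2⟩ := h
      left
      exact mem_iUnion.mpr ⟨⟨q, hq2⟩, hq1, h2⟩
    · right
      push Not at h
      exact ⟨h1, h⟩
  refine measure_mono_null hsub (measure_union_null ?_ ?_)
  · rw [measure_iUnion_null_iff]
    rintro ⟨q, hq⟩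
    exact LL_low q W hq
  · have hs : T1.Subsingleton := by
      rintro t ⟨ht1, ht2⟩ t' ⟨ht'1, ht'2⟩
      rcases lt_trichotomy t t' with h | h | h
      · exfalso
        obtain ⟨q, hq1, hq2⟩ := exists_rat_btwn h
        exact ht'1 ⟨q, hq2, ht2 q hq1⟩
      · exact h
      · exfalso
        obtain ⟨q, hq1, hq2⟩ := exists_rat_btwn h
        exact ht1 ⟨q, hq2, ht'2 q hq1⟩
    rw [LL_fst T1 hs.measurableSet]
    exact tau_subsingleton T1 hs

theorem free_eq (W : Set Y) (hW : FreeOpen W) :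
    ({p : ℝ × Y | p.2 ∈ W} : Set (ℝ × Y)) =ᶠ[lf] {p : ℝ × Y | p.1 ∈ Up W} := by
  change {p | ({p : ℝ × Y | p.2 ∈ W} : Set (ℝ × Y)) p = ({p : ℝ × Y | p.1 ∈ Up W} : Set (ℝ × Y)) p} ∈ lf
  rw [mem_lf]
  refine ⟨{p | p.1 ∉ Up W ∧ p.2 ∈ W}, {W}, countable_singleton W, low_null W, ?_, ?_⟩
  · rintro W' rfl
    exact hW
  · intro p hp
    by_cases h1 : p.1 ∈ Up W
    · by_cases h2 : p.2 ∈ W
      · exfalso
        apply hp
        have e1 : ({p : ℝ × Y | p.2 ∈ W} : Set (ℝ × Y)) p := h2
        have e2 : ({p : ℝ × Y | p.1 ∈ Up W} : Set (ℝ × Y)) p := h1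
        exact propext ⟨fun _ => e2, fun _ => e1⟩
      · right
        simp only [mem_iUnion]
        exact ⟨W, rfl, h1, h2⟩
    · by_cases h2 : p.2 ∈ W
      · left
        exact ⟨h1, h2⟩
      · exfalso
        apply hp
        exact propext ⟨fun h => absurd h h2, fun h => absurd h h1⟩

theorem free_meas (W : Set Y) (hW : FreeOpen W) : MeasurableSet[mS] {p : ℝ × Y | p.2 ∈ W} :=
  ⟨_, measurable_fst (Up_open W).measurableSet, free_eq W hW⟩

theorem muS_free (W : Set Y) (hW : FreeOpen W) : muS {p : ℝ × Y | p.2 ∈ W} = tau (Up W) := by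
  have hm : MeasurableSet {p : ℝ × Y | p.1 ∈ Up W} := measurable_fst (Up_open W).measurableSet
  rw [muS_apply hm (free_eq W hW), LL_fst _ (Up_open W).measurableSet]

/-- the law of the second coordinate -/
noncomputable def lawY : Measure Y := law tau

instance : IsProbabilityMeasure lawY :=
  Measure.isProbabilityMeasure_map Gp_measurable.aemeasurable

theorem Lam_ac_lawY (t : ℝ) : Lam t ≪ lawY := by
  unfold Lam lawY law
  apply Measure.AbsolutelyContinuous.map _ Gp_measurable
  apply Measure.AbsolutelyContinuous.prod _ Measure.AbsolutelyContinuous.rfl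
  exact Measure.absolutelyContinuous_of_le Measure.restrict_le_self

theorem lam_measurable {W : Set Y} (hW : MeasurableSet W) : Measurable (fun t => lam t W) := by
  have h := measurable_measure_prodMk_left (ν := P) (Gp_measurable hW)
  convert h using 2 with t
  unfold lam
  rw [Measure.map_apply (G_measurable t) hW]
  rfl

theorem lawY_null (W : Set Y) (h : ∀ s, s < 1 → Lam s W = 0) : lawY W = 0 := by
  set s : ℕ → ℝ := fun n => 1 - 1 / ((n : ℝ) + 1) with hs
  have hs1 : ∀ n, s n < 1 := by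
    intro n
    simp only [hs]
    have : (0 : ℝ) < 1 / ((n : ℝ) + 1) := by positivity
    linarith
  set W0 : Set Y := ⋂ n, toMeasurable (Lam (s n)) W with hW0
  have hW0m : MeasurableSet W0 := MeasurableSet.iInter fun n => measurableSet_toMeasurable _ _
  have hsub : W ⊆ W0 := subset_iInter fun n => subset_toMeasurable _ _
  refine measure_mono_null hsub ?_
  unfold lawY
  rw [law_apply tau hW0m, lintegral_eq_zero_iff (lam_measurable hW0m)]
  have h1 : ∀ n, ∀ᵐ t ∂tau, t < s n → lam t W0 = 0 := by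
    intro n
    have h2 : Lam (s n) W0 = 0 := by
      refine measure_mono_null (iInter_subset _ n) ?_
      rw [measure_toMeasurable]
      exact h _ (hs1 n)
    unfold Lam at h2
    rw [law_apply _ hW0m, lintegral_eq_zero_iff (lam_measurable hW0m),
      Filter.EventuallyEq, ae_restrict_iff' measurableSet_Iio] at h2
    filter_upwards [h2] with t ht hts
    exact ht hts
  have h3 : ∀ᵐ t ∂tau, t < 1 := by
    have h5 : ∀ᵐ t ∂tau, t ∈ Icc (0 : ℝ) 1 := by
      unfold tau
      exact ae_restrict_mem measurableSet_Icc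
    have h6 : ∀ᵐ t ∂tau, t ≠ 1 := by
      unfold tau
      apply ae_restrict_of_ae
      rw [ae_iff]
      simp
    filter_upwards [h5, h6] with t h5 h6
    exact lt_of_le_of_ne h5.2 h6
  filter_upwards [ae_all_iff.mpr h1, h3] with t ht ht3
  obtain ⟨n, hn⟩ := exists_nat_one_div_lt (sub_pos.mpr ht3)
  apply ht n
  simp only [hs]
  linarith

theorem tau_Up (W : Set Y) : tau (Up W) = 0 ↔ lawY W = 0 := by
  constructor
  · intro h
    apply lawY_null
    intro s hs
    by_contra hne
    have h1 : Ioo (max s 0) 1 ⊆ Up W := by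
      intro t ht
      exact ⟨s, (le_max_left _ _).trans_lt ht.1, hne⟩
    have h2 := measure_mono_null h1 h
    unfold tau at h2
    rw [Measure.restrict_apply measurableSet_Ioo] at h2
    have h3 : Ioo (max s 0) 1 ∩ Icc (0 : ℝ) 1 = Ioo (max s 0) 1 := by
      apply inter_eq_left.mpr
      intro t ht
      exact ⟨(le_max_right _ _).trans ht.1.le, ht.2.le⟩
    rw [h3, Real.volume_Ioo, ENNReal.ofReal_eq_zero] at h2
    have : max s 0 < 1 := max_lt hs one_pos
    linarith
  · intro h
    have : Up W = ∅ := by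
      rw [eq_empty_iff_forall_notMem]
      rintro t ⟨s, _, hs⟩
      exact hs (Lam_ac_lawY s h)
    rw [this, measure_empty]

end Pool.Agent.TH784.WB
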