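import Mathlib
import Pool.Agent.TH784.WbMeas

/-!
Bounded functionals on `ℓ^∞` and free charges.
-/

namespace Pool.Agent.TH784.WB

open MeasureTheory Set Filter Topology
open scoped ENNReal

/-- the Banach space of bounded real sequences -/
abbrev Linf : Type := ↥(lp (fun _ : ℕ => ℝ) ∞)

noncomputable def mkL (g : ℕ → ℝ) (C : ℝ) (h : ∀ n, |g n| ≤ C) : Linf :=
  ⟨g, memℓp_infty ⟨C, by rintro _ ⟨n, rfl⟩; simpa using h n⟩⟩

@[simp] theorem mkL_apply (g : ℕ → ℝ) (C : ℝ) (h : ∀ n, |g n| ≤ C) (n : ℕ) : mkL g C h n = g n := rfl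

theorem abs_le_norm (x : Linf) (n : ℕ) : |x n| ≤ ‖x‖ := by
  have := lp.norm_apply_le_norm (p := ∞) ENNReal.top_ne_zero x n
  simpa using this

theorem norm_le_of (x : Linf) (C : ℝ) (hC : 0 ≤ C) (h : ∀ n, |x n| ≤ C) : ‖x‖ ≤ C :=
  lp.norm_le_of_forall_le hC (fun n => by simpa using h n)

/-- the embedding of the index set -/
def en (p : Idx) : ℕ := Encodable.encode p + 1

theorem en_inj : Function.Injective en := by
  intro p q h
  apply Encodable.encode_injective
  unfold en at h
  omega

theorem en_ne (p : Idx) : en p ≠ 0 := by unfold en; omega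

/-- restriction to a set of coordinates -/
noncomputable def res (B : Set ℕ) (g : Linf) : Linf := by
  classical
  exact mkL (fun n => if n ∈ B then g n else 0) ‖g‖ (fun n => by
    split_ifs
    · exact abs_le_norm g n
    · simp)

theorem res_apply (B : Set ℕ) (g : Linf) (n : ℕ) [Decidable (n ∈ B)] :
    res B g n = if n ∈ B then g n else 0 := by
  unfold res
  rw [mkL_apply]
  congr

/-- elements of the unit ball supported on `A` -/
def Cand (A : Set Idx) : Set Linf := {g | (∀ n, |g n| ≤ 1) ∧ ∀ n, g n ≠ 0 → ∃ p ∈ A, en p = n}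

theorem zero_cand (A : Set Idx) : (0 : Linf) ∈ Cand A := by
  constructor
  · intro n; simp
  · intro n hn; simp at hn

theorem neg_cand {A : Set Idx} {g : Linf} (h : g ∈ Cand A) : -g ∈ Cand A := by
  constructor
  · intro n
    simpa using h.1 n
  · intro n hn
    apply h.2 n
    simpa using hn

theorem Cand.norm_le {A : Set Idx} {g : Linf} (h : g ∈ Cand A) : ‖g‖ ≤ 1 :=
  norm_le_of g 1 zero_le_one h.1

variable (φ : StrongDual ℝ Linf)

noncomputable def rho (A : Set Idx) : ℝ := sSup (φ '' Cand A)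

theorem rho_bdd (A : Set Idx) : BddAbove (φ '' Cand A) := by
  refine ⟨‖φ‖, ?_⟩
  rintro _ ⟨g, hg, rfl⟩
  calc φ g ≤ |φ g| := le_abs_self _
    _ ≤ ‖φ‖ * ‖g‖ := φ.le_opNorm g
    _ ≤ ‖φ‖ * 1 := by gcongr; exact Cand.norm_le hg
    _ = ‖φ‖ := mul_one _

theorem le_rho {A : Set Idx} {g : Linf} (hg : g ∈ Cand A) : φ g ≤ rho φ A :=
  le_csSup (rho_bdd φ A) ⟨g, hg, rfl⟩

theorem abs_le_rho {A : Set Idx} {g : Linf} (hg : g ∈ Cand A) : |φ g| ≤ rho φ A := by
  rw [abs_le]
  constructor
  · have := le_rho φ (neg_cand hg)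
    rw [map_neg] at this
    linarith
  · exact le_rho φ hg

theorem rho_nonneg (A : Set Idx) : 0 ≤ rho φ A := by
  have := le_rho φ (zero_cand A)
  simpa using this

theorem rho_le {A : Set Idx} {C : ℝ} (h : ∀ g ∈ Cand A, φ g ≤ C) : rho φ A ≤ C := by
  refine csSup_le ⟨φ 0, 0, zero_cand A, rfl⟩ ?_
  rintro _ ⟨g, hg, rfl⟩
  exact h g hg

theorem rho_empty : rho φ ∅ = 0 := by
  apply le_antisymm _ (rho_nonneg φ ∅)
  apply rho_le
  intro g hg
  have : g = 0 := by
    ext n
    by_contra hn
    obtain ⟨p, hp, _⟩ := hg.2 n hn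
    exact hp
  rw [this, map_zero]

theorem rho_add (A B : Set Idx) (h : Disjoint A B) : rho φ (A ∪ B) = rho φ A + rho φ B := by
  classical
  apply le_antisymm
  · apply rho_le
    intro g hg
    have hsplit : g = res (en '' A) g + res (en '' B) g := by
      ext n
      rw [lp.coeFn_add, Pi.add_apply, res_apply, res_apply]
      by_cases hA : n ∈ en '' A
      · have hB : n ∉ en '' B := by
          rintro ⟨q, hq, hqn⟩
          obtain ⟨p, hp, hpn⟩ := hA
          have : p = q := en_inj (hpn.trans hqn.symm)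
          subst this
          exact Set.disjoint_left.mp h hp hq
        rw [if_pos hA, if_neg hB, add_zero]
      · by_cases hB : n ∈ en '' B
        · rw [if_neg hA, if_pos hB, zero_add]
        · rw [if_neg hA, if_neg hB, add_zero]
          by_contra hn
          obtain ⟨p, hp, hpn⟩ := hg.2 n hn
          rcases hp with hp | hp
          · exact hA ⟨p, hp, hpn⟩
          · exact hB ⟨p, hp, hpn⟩
    have hc : ∀ C : Set Idx, res (en '' C) g ∈ Cand C := by
      intro C
      constructor
      · intro n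
        rw [res_apply]
        split_ifs
        · exact hg.1 n
        · simp
      · intro n hn
        rw [res_apply] at hn
        split_ifs at hn with h1
        · obtain ⟨p, hp, hpn⟩ := h1
          exact ⟨p, hp, hpn⟩
        · exact absurd rfl hn
    rw [hsplit, map_add]
    exact add_le_add (le_rho φ (hc A)) (le_rho φ (hc B))
  · have key : ∀ g ∈ Cand A, ∀ g' ∈ Cand B, φ g + φ g' ≤ rho φ (A ∪ B) := by
      intro g hg g' hg'
      rw [← map_add]
      apply le_rho
      have hdis : ∀ n, g n = 0 ∨ g' n = 0 := by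
        intro n
        by_contra hcon
        push Not at hcon
        obtain ⟨p, hp, hpn⟩ := hg.2 n hcon.1
        obtain ⟨q, hq, hqn⟩ := hg'.2 n hcon.2
        have : p = q := en_inj (hpn.trans hqn.symm)
        subst this
        exact Set.disjoint_left.mp h hp hq
      constructor
      · intro n
        rw [lp.coeFn_add, Pi.add_apply]
        rcases hdis n with h0 | h0
        · rw [h0, zero_add]; exact hg'.1 n
        · rw [h0, add_zero]; exact hg.1 n
      · intro n hn
        rw [lp.coeFn_add, Pi.add_apply] at hn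
        rcases hdis n with h0 | h0
        · rw [h0, zero_add] at hn
          obtain ⟨p, hp, hpn⟩ := hg'.2 n hn
          exact ⟨p, Or.inr hp, hpn⟩
        · rw [h0, add_zero] at hn
          obtain ⟨p, hp, hpn⟩ := hg.2 n hn
          exact ⟨p, Or.inl hp, hpn⟩
    have h1 : ∀ g' ∈ Cand B, φ g' ≤ rho φ (A ∪ B) - rho φ A := by
      intro g' hg'
      have : rho φ A ≤ rho φ (A ∪ B) - φ g' := rho_le φ (fun g hg => by linarith [key g hg g' hg'])
      linarith
    have := rho_le φ h1
    linarith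

theorem rho_mono {A B : Set Idx} (h : A ⊆ B) : rho φ A ≤ rho φ B := by
  apply rho_le
  intro g hg
  apply le_rho
  refine ⟨hg.1, fun n hn => ?_⟩
  obtain ⟨p, hp, hpn⟩ := hg.2 n hn
  exact ⟨p, h hp, hpn⟩

/-- tails of the index set -/
def Tn (n : ℕ) : Set Idx := {p | n ≤ p.1}

theorem Tn_anti : Antitone Tn := fun _ _ h _ hp => le_trans h hp

theorem Tn_compl_fin (n : ℕ) : (Tn n)ᶜ.Finite := by
  have hsub : (Tn n)ᶜ ⊆
      ⋃ k ∈ Finset.range n, (fun i : Fin (M k) => (⟨k, i⟩ : Idx)) '' univ := by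
    rintro ⟨k, i⟩ h
    simp only [mem_iUnion, Finset.mem_range]
    refine ⟨k, ?_, i, trivial, rfl⟩
    by_contra hk
    exact h (not_lt.mp hk)
  refine Set.Finite.subset ?_ hsub
  apply Set.Finite.biUnion (Finset.finite_toSet _)
  intro k _
  exact (Set.finite_univ).image _

noncomputable def thf (A : Set Idx) : ℝ := ⨅ n, rho φ (A ∩ Tn n)

theorem thf_tendsto (A : Set Idx) :
    Tendsto (fun n => rho φ (A ∩ Tn n)) atTop (𝓝 (thf φ A)) := by
  apply tendsto_atTop_ciInf
  · intro n m h
    exact rho_mono φ (inter_subset_inter_right _ (Tn_anti h))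
  · refine ⟨0, ?_⟩
    rintro _ ⟨n, rfl⟩
    exact rho_nonneg φ _

theorem thf_le (A : Set Idx) (n : ℕ) : thf φ A ≤ rho φ (A ∩ Tn n) := by
  apply ciInf_le
  refine ⟨0, ?_⟩
  rintro _ ⟨n, rfl⟩
  exact rho_nonneg φ _

/-- the free part of the variation of `φ` -/
noncomputable def chg : Charge Idx where
  m := thf φ
  nonneg A := le_ciInf fun n => rho_nonneg φ _
  add A B h := by
    apply tendsto_nhds_unique (thf_tendsto φ (A ∪ B))
    have h1 := (thf_tendsto φ A).add (thf_tendsto φ B)
    refine h1.congr ?_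
    intro n
    rw [union_inter_distrib_right, rho_add]
    exact h.mono inter_subset_left inter_subset_left
  fin A hA := by
    apply le_antisymm _ (le_ciInf fun n => rho_nonneg φ _)
    have hex : ∃ n, A ∩ Tn n = ∅ := by
      obtain ⟨N, hN⟩ := (hA.image (fun p : Idx => p.1)).bddAbove
      refine ⟨N + 1, ?_⟩
      rw [eq_empty_iff_forall_notMem]
      rintro p ⟨hp1, hp2⟩
      have h1 : p.1 ≤ N := hN ⟨p, hp1, rfl⟩
      have h2 : N + 1 ≤ p.1 := hp2
      omega
    obtain ⟨n, hn⟩ := hex
    have := thf_le φ A n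
    rw [hn, rho_empty] at this
    exact this

theorem approx (ε : ℝ) (hε : 0 < ε) : ∃ n, ∀ m, n ≤ m → ∀ D ⊆ Tn m, rho φ D ≤ (chg φ).m D + ε := by
  have h1 : ∃ n, rho φ (univ ∩ Tn n) < thf φ univ + ε := by
    have := (thf_tendsto φ univ).eventually (gt_mem_nhds (show thf φ univ < thf φ univ + ε by linarith))
    exact this.exists
  obtain ⟨n, hn⟩ := h1
  refine ⟨n, fun m hm D hD => ?_⟩
  rw [univ_inter] at hn
  have hDn : D ⊆ Tn n := hD.trans (Tn_anti hm)
  have h2 : rho φ (Tn n) = rho φ D + rho φ (Tn n \ D) := by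
    rw [← rho_add φ _ _ disjoint_sdiff_right, union_sdiff_cancel hDn]
  have h3 : (chg φ).m (Tn n \ D) ≤ rho φ (Tn n \ D) :=
    (thf_le φ _ 0).trans (rho_mono φ inter_subset_left)
  have h4 : (chg φ).m univ ≤ (chg φ).m D + (chg φ).m (Tn n \ D) := by
    have h5 : (chg φ).m univ ≤ (chg φ).m (D ∪ (Tn n \ D)) := by
      apply (chg φ).mono_fin
      apply (Tn_compl_fin n).subset
      rintro p ⟨_, hp⟩ hpT
      apply hp
      by_cases hpD : p ∈ D
      · exact Or.inl hpD
      · exact Or.inr ⟨hpT, hpD⟩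
    exact h5.trans ((chg φ).union_le _ _)
  have h6 : (chg φ).m univ = thf φ univ := rfl
  linarith

end Pool.Agent.TH784.WB
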