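import Mathlib
import Pool.Agent.TH784.WbLinf

/-!
The embedding into `ℓ^∞` and measurability of preimages of weakly open sets.
-/

namespace Pool.Agent.TH784.WB

open MeasureTheory Set Filter Topology
open scoped ENNReal

noncomputable def ind (A : Set Idx) : Linf := by
  classical
  exact mkL (fun n => if n ∈ en '' A then 1 else 0) 1 (fun n => by split_ifs <;> simp)

theorem ind_apply (A : Set Idx) (n : ℕ) [Decidable (n ∈ en '' A)] :
    ind A n = if n ∈ en '' A then 1 else 0 := by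
  unfold ind
  rw [mkL_apply]
  congr

noncomputable def u0 : Linf :=
  mkL (fun n => if n = 0 then 1 else 0) 1 (fun n => by split_ifs <;> simp)

theorem u0_apply (n : ℕ) : u0 n = if n = 0 then 1 else 0 := rfl

noncomputable def Fm (p : ℝ × Y) : Linf := p.1 • u0 + ind (S p.2)

theorem Fm_apply (p : ℝ × Y) (n : ℕ) : Fm p n = p.1 * u0 n + ind (S p.2) n := by
  unfold Fm
  rw [lp.coeFn_add, Pi.add_apply, lp.coeFn_smul, Pi.smul_apply, smul_eq_mul]

theorem Fm_sub (p q : ℝ × Y) : Fm q - Fm p = (q.1 - p.1) • u0 + (ind (S q.2) - ind (S p.2)) := by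
  unfold Fm
  rw [sub_smul]
  abel

theorem ind_sub_cand (A A' : Set Idx) : ind A' - ind A ∈ Cand (symmDiff A A') := by
  classical
  constructor
  · intro n
    rw [lp.coeFn_sub, Pi.sub_apply, ind_apply, ind_apply]
    split_ifs <;> simp
  · intro n hn
    rw [lp.coeFn_sub, Pi.sub_apply, ind_apply, ind_apply] at hn
    by_cases h1 : n ∈ en '' A <;> by_cases h2 : n ∈ en '' A'
    · simp [h1, h2] at hn
    · obtain ⟨p, hp, hpn⟩ := h1
      refine ⟨p, Or.inl ⟨hp, fun h => h2 ⟨p, h, hpn⟩⟩, hpn⟩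
    · obtain ⟨p, hp, hpn⟩ := h2
      refine ⟨p, Or.inr ⟨hp, fun h => h1 ⟨p, h, hpn⟩⟩, hpn⟩
    · simp [h1, h2] at hn

theorem weak_nhd (U : Set (WeakSpace ℝ Linf)) (hU : IsOpen U) (x : Linf)
    (hx : toWeakSpace ℝ Linf x ∈ U) : ∃ (s : Finset (StrongDual ℝ Linf)) (ε : ℝ), 0 < ε ∧
      ∀ z : Linf, (∀ φ ∈ s, |φ (z - x)| < ε) → toWeakSpace ℝ Linf z ∈ U := by
  classical
  obtain ⟨V, hV, rfl⟩ := isOpen_induced_iff.mp hU
  obtain ⟨I, u, hu1, hu2⟩ := isOpen_pi_iff.mp hV _ hx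
  have hev : ∀ᶠ ε in 𝓝[>] (0 : ℝ), ∀ φ ∈ I, Metric.ball (φ x) ε ⊆ u φ := by
    rw [Finset.eventually_all]
    intro φ hφ
    obtain ⟨δ, hδ, hball⟩ := Metric.isOpen_iff.mp (hu1 φ hφ).1 _ (hu1 φ hφ).2
    filter_upwards [Ioo_mem_nhdsGT hδ] with ε hε
    exact (Metric.ball_subset_ball hε.2.le).trans hball
  obtain ⟨ε, hε1, hε2⟩ := (hev.and self_mem_nhdsWithin).exists
  refine ⟨I, ε, hε2, fun z hz => hu2 ?_⟩
  intro φ hφ
  apply hε1 φ hφ
  rw [Metric.mem_ball, Real.dist_eq]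
  have := hz φ hφ
  rw [map_sub] at this
  exact this

theorem nbhd (U : Set (WeakSpace ℝ Linf)) (hU : IsOpen U) (p : ℝ × Y)
    (hp : toWeakSpace ℝ Linf (Fm p) ∈ U) : ∃ (θ : Charge Idx) (δ : ℝ) (n : ℕ), 0 < δ ∧
      ∀ q : ℝ × Y, |q.1 - p.1| < δ → (∀ k, k < n → q.2 k = p.2 k) →
        θ.m (symmDiff (S p.2) (S q.2)) < 1 → toWeakSpace ℝ Linf (Fm q) ∈ U := by
  obtain ⟨s, ε, hε, hs⟩ := weak_nhd U hU (Fm p) hp
  have h3 : 0 < ε / 3 := by positivity
  choose N hN using fun φ : StrongDual ℝ Linf => approx φ (ε / 3) h3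
  set C : ℝ := 1 + ∑ φ ∈ s, |φ u0| with hC
  have hC1 : 0 < C := by
    have : 0 ≤ ∑ φ ∈ s, |φ u0| := Finset.sum_nonneg fun φ _ => abs_nonneg _
    linarith
  refine ⟨Charge.sum s (fun φ => (chg φ).smul (3 / ε) (by positivity)), ε / (3 * C),
    s.sup N, by positivity, ?_⟩
  intro q hq1 hq2 hq3
  apply hs
  intro φ hφ
  rw [Fm_sub, map_add, map_smul, smul_eq_mul]
  have e1 : |(q.1 - p.1) * φ u0| < ε / 3 := by
    rw [abs_mul]
    have hle : |φ u0| ≤ C := by
      have := Finset.single_le_sum (f := fun φ => |φ u0|) (fun φ _ => abs_nonneg _) hφ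
      linarith
    rcases eq_or_lt_of_le (abs_nonneg (φ u0)) with h0 | h0
    · rw [← h0, mul_zero]; exact h3
    · calc |q.1 - p.1| * |φ u0| < ε / (3 * C) * |φ u0| := by
            exact mul_lt_mul_of_pos_right hq1 h0
        _ ≤ ε / (3 * C) * C := by
            apply mul_le_mul_of_nonneg_left hle
            positivity
        _ = ε / 3 := by
            field_simp
  have e2 : |φ (ind (S q.2) - ind (S p.2))| ≤ rho φ (symmDiff (S p.2) (S q.2)) :=
    abs_le_rho φ (ind_sub_cand _ _)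
  have e3 : symmDiff (S p.2) (S q.2) ⊆ Tn (s.sup N) := by
    rintro ⟨k, i⟩ hki
    change s.sup N ≤ k
    by_contra hlt
    have hk := hq2 k (not_le.mp hlt)
    have hiff : (⟨k, i⟩ : Idx) ∈ S p.2 ↔ (⟨k, i⟩ : Idx) ∈ S q.2 := by
      simp only [S, mem_ofPred_eq, hk]
    rcases hki with h | h
    · exact h.2 (hiff.mp h.1)
    · exact h.2 (hiff.mpr h.1)
  have e4 := hN φ (s.sup N) (Finset.le_sup hφ) _ e3
  have e5 : (chg φ).m (symmDiff (S p.2) (S q.2)) < ε / 3 := by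
    have h6 : (3 / ε) * (chg φ).m (symmDiff (S p.2) (S q.2)) ≤
        ∑ φ ∈ s, (3 / ε) * (chg φ).m (symmDiff (S p.2) (S q.2)) :=
      Finset.single_le_sum (f := fun φ => (3 / ε) * (chg φ).m (symmDiff (S p.2) (S q.2)))
        (fun φ _ => mul_nonneg (by positivity) ((chg φ).nonneg _)) hφ
    have h7 : ∑ φ ∈ s, (3 / ε) * (chg φ).m (symmDiff (S p.2) (S q.2)) < 1 := hq3
    have h8 := h6.trans_lt h7
    rw [lt_div_iff₀ (by norm_num)]
    rw [div_mul_eq_mul_div, div_lt_one hε] at h8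
    linarith
  calc |(q.1 - p.1) * φ u0 + φ (ind (S q.2) - ind (S p.2))|
      ≤ |(q.1 - p.1) * φ u0| + |φ (ind (S q.2) - ind (S p.2))| := abs_add_le _ _
    _ < ε := by linarith

theorem ball_free (θ : Charge Idx) (y : Y) : FreeOpen {z | θ.m (symmDiff (S y) (S z)) < 1} := by
  intro x hx
  simp only [mem_ofPred_eq] at hx
  have hc : 0 < 1 - θ.m (symmDiff (S y) (S x)) := by linarith
  refine ⟨θ.smul (1 / (1 - θ.m (symmDiff (S y) (S x)))) (by positivity), ?_⟩
  intro z hz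
  have hz' : (1 / (1 - θ.m (symmDiff (S y) (S x)))) * θ.m (symmDiff (S x) (S z)) < 1 := hz
  rw [div_mul_eq_mul_div, div_lt_one hc, one_mul] at hz'
  have := θ.symmDiff_triangle (S y) (S x) (S z)
  simp only [mem_ofPred_eq]
  linarith

theorem preimage_meas (U : Set (WeakSpace ℝ Linf)) (hU : IsOpen U) :
    MeasurableSet[mS] {p : ℝ × Y | toWeakSpace ℝ Linf (Fm p) ∈ U} := by
  set WO : Set (ℝ × Y) → Set Y := fun O =>
    ⋃₀ {W | FreeOpen W ∧ ∀ p ∈ O, p.2 ∈ W → toWeakSpace ℝ Linf (Fm p) ∈ U} with hWO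
  have hfree : ∀ O, FreeOpen (WO O) := fun O => FreeOpen.sUnion (fun W hW => hW.1)
  have heq : {p : ℝ × Y | toWeakSpace ℝ Linf (Fm p) ∈ U} =
      ⋃ O ∈ TopologicalSpace.countableBasis (ℝ × Y), (O ∩ {p : ℝ × Y | p.2 ∈ WO O}) := by
    ext p
    simp only [mem_ofPred_eq, mem_iUnion, mem_inter_iff]
    constructor
    · intro hp
      obtain ⟨θ, δ, n, hδ, hθ⟩ := nbhd U hU p hp
      have hOopen : IsOpen {q : ℝ × Y | |q.1 - p.1| < δ ∧ ∀ k, k < n → q.2 k = p.2 k} := by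
        have h1 : {q : ℝ × Y | |q.1 - p.1| < δ ∧ ∀ k, k < n → q.2 k = p.2 k} =
            {q : ℝ × Y | |q.1 - p.1| < δ} ∩ ⋂ k ∈ Finset.range n, {q : ℝ × Y | q.2 k = p.2 k} := by
          ext q
          simp
        rw [h1]
        apply IsOpen.inter
        · exact isOpen_lt (by fun_prop) continuous_const
        · apply isOpen_biInter_finset
          intro k _
          have : {q : ℝ × Y | q.2 k = p.2 k} = (fun q : ℝ × Y => q.2 k) ⁻¹' {p.2 k} := rfl
          rw [this]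
          exact (isOpen_discrete _).preimage (by fun_prop)
      obtain ⟨O, hO1, hO2, hO3⟩ :=
        (TopologicalSpace.isBasis_countableBasis (ℝ × Y)).exists_subset_of_mem_open
          (show p ∈ {q : ℝ × Y | |q.1 - p.1| < δ ∧ ∀ k, k < n → q.2 k = p.2 k} from
            ⟨by simpa using hδ, fun _ _ => rfl⟩) hOopen
      refine ⟨O, hO1, hO2, {z | θ.m (symmDiff (S p.2) (S z)) < 1}, ⟨ball_free θ p.2, ?_⟩, ?_⟩
      · intro q hq hq2
        exact hθ q (hO3 hq).1 (hO3 hq).2 hq2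
      · simp only [mem_ofPred_eq, symmDiff_self]
        have : θ.m (⊥ : Set Idx) = 0 := θ.empty
        rw [this]
        exact one_pos
    · rintro ⟨O, _, hpO, W, ⟨_, hW⟩, hpW⟩
      exact hW p hpO hpW
  rw [heq]
  apply MeasurableSet.biUnion (TopologicalSpace.countable_countableBasis (ℝ × Y))
  intro O hO
  apply MeasurableSet.inter
  · exact le_eventuallyMeasurableSpace _
      (TopologicalSpace.isOpen_of_mem_countableBasis hO).measurableSet
  · exact free_meas _ (hfree O)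

/-- the embedding as a map into the weak space -/
noncomputable def Fw (p : ℝ × Y) : WeakSpace ℝ Linf := toWeakSpace ℝ Linf (Fm p)

theorem Fw_measurable : @Measurable _ _ mS (borel (WeakSpace ℝ Linf)) Fw := by
  apply @measurable_generateFrom _ _ mS
  intro U hU
  exact preimage_meas U hU

end Pool.Agent.TH784.WB
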