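import Mathlib

/-!
A measure on all subsets cannot have the same null members of a union-closed family as a Borel
measure for which almost every point is covered by null members of the family.
-/

namespace Pool.Agent.TH784.WB

open MeasureTheory Set Filter Topology
open scoped ENNReal

/-- type synonym with the discrete sigma-algebra -/
def Disc (X : Type) : Type := X

instance (X : Type) : MeasurableSpace (Disc X) := ⊤

theorem total_aux {X J : Type} [TopologicalSpace X] [SecondCountableTopology X] [MeasurableSpace X]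
    [BorelSpace X] (κ : Measure X) [IsFiniteMeasure κ] [κ.OuterRegular]
    (ρ : Measure (Disc X)) [IsFiniteMeasure ρ]
    (𝒲 : Set (Set X)) (hU : ∀ 𝒮 ⊆ 𝒲, ⋃₀ 𝒮 ∈ 𝒲)
    (h : ∀ W ∈ 𝒲, ρ (W : Set X) = 0 ↔ κ W = 0)
    (F : J → Set X) (hF : ∀ i, F i ∈ 𝒲 ∧ κ (F i) = 0)
    (hcov : ∀ᵐ y ∂κ, ∃ i, y ∈ F i) : κ univ = 0 := by
  classical
  by_contra hne
  obtain ⟨ord, hwf⟩ := exists_wellFoundedLT J
  have hwf' : WellFounded (fun a b : WithTop J => a < b) := wellFounded_lt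
  have hbad : ∃ j : WithTop J, κ (⋃₀ {W | ∃ i : J, (i : WithTop J) < j ∧ W = F i}) ≠ 0 := by
    refine ⟨⊤, fun h0 => hne ?_⟩
    have h1 : ∀ᵐ y ∂κ, y ∉ ⋃₀ {W | ∃ i : J, (i : WithTop J) < ⊤ ∧ W = F i} := by
      rw [ae_iff]
      simp only [not_not]
      exact h0
    have h2 : ∀ᵐ _ ∂κ, False := by
      filter_upwards [hcov, h1] with y hy1 hy2
      obtain ⟨i, hi⟩ := hy1
      exact hy2 ⟨_, ⟨i, WithTop.coe_lt_top _, rfl⟩, hi⟩
    rw [ae_iff] at h2
    simpa using h2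
  set j0 := hwf'.min {j | κ (⋃₀ {W | ∃ i : J, (i : WithTop J) < j ∧ W = F i}) ≠ 0} hbad with hj0
  have hj0bad : κ (⋃₀ {W | ∃ i : J, (i : WithTop J) < j0 ∧ W = F i}) ≠ 0 :=
    hwf'.min_mem {j | κ (⋃₀ {W | ∃ i : J, (i : WithTop J) < j ∧ W = F i}) ≠ 0} hbad
  have hj0min : ∀ i : J, (i : WithTop J) < j0 →
      κ (⋃₀ {W | ∃ i' : J, (i' : WithTop J) < (i : WithTop J) ∧ W = F i'}) = 0 := by
    intro i hi
    by_contra hc
    exact hwf'.not_lt_min {j | κ (⋃₀ {W | ∃ i : J, (i : WithTop J) < j ∧ W = F i}) ≠ 0} hc hi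
  set W : Set X := ⋃₀ {W | ∃ i : J, (i : WithTop J) < j0 ∧ W = F i} with hW
  have hW𝒲 : W ∈ 𝒲 := by
    apply hU
    rintro _ ⟨i, _, rfl⟩
    exact (hF i).1
  have hρW : ρ (W : Set X) ≠ 0 := fun h0 => hj0bad ((h W hW𝒲).1 h0)
  -- initial unions
  let W' : J → Set X := fun i => ⋃₀ {W | ∃ i' : J, i' ≤ i ∧ W = F i'}
  have hW'𝒲 : ∀ i, W' i ∈ 𝒲 := by
    intro i
    apply hU
    rintro _ ⟨i', _, rfl⟩
    exact (hF i').1
  have hW'null : ∀ i : J, (i : WithTop J) < j0 → κ (W' i) = 0 := by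
    intro i hi
    have hsub : W' i ⊆ (⋃₀ {W | ∃ i' : J, (i' : WithTop J) < (i : WithTop J) ∧ W = F i'}) ∪ F i := by
      rintro y ⟨_, ⟨i', hi', rfl⟩, hy⟩
      rcases lt_or_eq_of_le hi' with hlt | heq
      · exact Or.inl ⟨_, ⟨i', WithTop.coe_lt_coe.mpr hlt, rfl⟩, hy⟩
      · right
        rw [← heq]
        exact hy
    exact measure_mono_null hsub (measure_union_null (hj0min i hi) (hF i).2)
  have hρW' : ∀ i : J, (i : WithTop J) < j0 → ρ (W' i : Set X) = 0 := fun i hi =>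
    (h _ (hW'𝒲 i)).2 (hW'null i hi)
  -- the rank function
  have hex : ∀ x ∈ W, ∃ i : J, (i : WithTop J) < j0 ∧ x ∈ F i := by
    rintro x ⟨_, ⟨i, hi, rfl⟩, hx⟩
    exact ⟨i, hi, hx⟩
  have hwfJ : WellFounded (fun a b : J => a < b) := wellFounded_lt
  obtain ⟨i00, _, _⟩ : ∃ i : J, (i : WithTop J) < j0 ∧ True := by
    obtain ⟨x, hx⟩ := nonempty_of_measure_ne_zero hj0bad
    obtain ⟨i, hi, _⟩ := hex x hx
    exact ⟨i, hi, trivial⟩
  let rk : X → J := fun x => if hx : x ∈ W then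
    hwfJ.min {i : J | (i : WithTop J) < j0 ∧ x ∈ F i} (hex x hx) else i00
  have hrk1 : ∀ x ∈ W, (rk x : WithTop J) < j0 ∧ x ∈ F (rk x) := by
    intro x hx
    simp only [rk, dif_pos hx]
    exact hwfJ.min_mem {i : J | (i : WithTop J) < j0 ∧ x ∈ F i} (hex x hx)
  -- open approximations
  have hopen : ∀ (i : J) (n : ℕ), ∃ O : Set X, IsOpen O ∧
      ((i : WithTop J) < j0 → W' i ⊆ O ∧ κ O ≤ ((n : ℝ≥0∞) + 1)⁻¹) := by
    intro i n
    by_cases hi : (i : WithTop J) < j0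
    · have hlt : κ (W' i) < ((n : ℝ≥0∞) + 1)⁻¹ := by
        rw [hW'null i hi]
        simp
      obtain ⟨O, hO1, hO2, hO3⟩ := (W' i).exists_isOpen_lt_of_lt _ hlt
      exact ⟨O, hO2, fun _ => ⟨hO1, hO3.le⟩⟩
    · exact ⟨∅, isOpen_empty, fun h => absurd h hi⟩
  choose O hO1 hO2 using hopen
  -- the estimate
  have hest : ∀ n : ℕ, ρ (W : Set X) * κ W ≤ ρ univ * ((n : ℝ≥0∞) + 1)⁻¹ := by
    intro n
    set E : Set (Disc X × X) := {q | (q.1 : X) ∈ W ∧ q.2 ∈ O (rk q.1) n} with hE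
    have hEm : MeasurableSet E := by
      have : E = ⋃ b ∈ TopologicalSpace.countableBasis X,
          ({x : Disc X | (x : X) ∈ W ∧ b ⊆ O (rk x) n} : Set (Disc X)) ×ˢ b := by
        ext ⟨x, y⟩
        simp only [hE, mem_ofPred_eq, mem_iUnion, mem_prod]
        constructor
        · rintro ⟨hx, hy⟩
          obtain ⟨b, hb1, hb2, hb3⟩ :=
            (TopologicalSpace.isBasis_countableBasis X).exists_subset_of_mem_open hy (hO1 _ _)
          exact ⟨b, hb1, ⟨hx, hb3⟩, hb2⟩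
        · rintro ⟨b, _, ⟨hx, hb⟩, hy⟩
          exact ⟨hx, hb hy⟩
      rw [this]
      apply MeasurableSet.biUnion (TopologicalSpace.countable_countableBasis X)
      intro b hb
      exact (MeasurableSpace.measurableSet_top).prod
        (TopologicalSpace.isOpen_of_mem_countableBasis hb).measurableSet
    have h1 : (ρ.prod κ) E ≤ ρ univ * ((n : ℝ≥0∞) + 1)⁻¹ := by
      rw [Measure.prod_apply hEm]
      calc ∫⁻ x, κ (Prod.mk x ⁻¹' E) ∂ρ ≤ ∫⁻ _, ((n : ℝ≥0∞) + 1)⁻¹ ∂ρ := by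
            apply lintegral_mono
            intro x
            by_cases hx : (x : X) ∈ W
            · refine (measure_mono ?_).trans ((hO2 (rk x) n (hrk1 x hx).1).2)
              intro y hy
              exact hy.2
            · have : (Prod.mk x ⁻¹' E : Set X) = ∅ := by
                rw [eq_empty_iff_forall_notMem]
                intro y hy
                exact hx hy.1
              simp only [this, measure_empty]
              exact zero_le
        _ = ρ univ * ((n : ℝ≥0∞) + 1)⁻¹ := by rw [lintegral_const, mul_comm]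
    rw [Measure.prod_apply_symm hEm] at h1
    set f : X → ℝ≥0∞ := fun y => ρ ((fun x : Disc X => (x, y)) ⁻¹' E) with hf
    have hfm : Measurable f := measurable_measure_prodMk_right hEm
    have h2 : W ⊆ {y | ρ (W : Set X) ≤ f y} := by
      intro y hy
      have hsub : (W : Set X) ⊆ (W' (rk y)) ∪ ((fun x : Disc X => (x, y)) ⁻¹' E : Set (Disc X)) := by
        intro x hx
        rcases lt_or_ge (rk x) (rk y) with hlt | hge
        · left
          exact ⟨_, ⟨rk x, hlt.le, rfl⟩, (hrk1 x hx).2⟩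
        · right
          refine ⟨hx, ?_⟩
          apply (hO2 (rk x) n (hrk1 x hx).1).1
          exact ⟨_, ⟨rk y, hge, rfl⟩, (hrk1 y hy).2⟩
      calc ρ (W : Set X) ≤ ρ ((W' (rk y)) ∪ ((fun x : Disc X => (x, y)) ⁻¹' E : Set (Disc X))) :=
            measure_mono hsub
        _ ≤ ρ (W' (rk y) : Set X) + f y := measure_union_le _ _
        _ = f y := by rw [hρW' _ (hrk1 y hy).1, zero_add]
    calc ρ (W : Set X) * κ W ≤ ρ (W : Set X) * κ {y | ρ (W : Set X) ≤ f y} := by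
          gcongr
      _ ≤ ∫⁻ y, f y ∂κ := mul_meas_ge_le_lintegral hfm _
      _ ≤ _ := h1
  have hlim : Tendsto (fun n : ℕ => ρ univ * ((n : ℝ≥0∞) + 1)⁻¹) atTop (𝓝 (ρ univ * 0)) := by
    apply ENNReal.Tendsto.const_mul
    · have h3 : Tendsto (fun n : ℕ => ((n + 1 : ℕ) : ℝ≥0∞)⁻¹) atTop (𝓝 0) :=
        ENNReal.tendsto_inv_nat_nhds_zero.comp (tendsto_add_atTop_nat 1)
      simpa using h3
    · right
      exact measure_ne_top _ _
  rw [mul_zero] at hlim
  have hfin := ge_of_tendsto' hlim hest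
  have hzero : ρ (W : Set X) * κ W = 0 := le_antisymm hfin zero_le
  rcases mul_eq_zero.mp hzero with h0 | h0
  · exact hρW h0
  · exact hj0bad h0

theorem total {X : Type} [TopologicalSpace X] [SecondCountableTopology X] [MeasurableSpace X]
    [BorelSpace X] (κ : Measure X) [IsFiniteMeasure κ] [κ.OuterRegular]
    (ρ : Measure (Disc X)) [IsFiniteMeasure ρ]
    (𝒲 : Set (Set X)) (hU : ∀ 𝒮 ⊆ 𝒲, ⋃₀ 𝒮 ∈ 𝒲)
    (h : ∀ W ∈ 𝒲, ρ (W : Set X) = 0 ↔ κ W = 0)
    (hcov : ∀ᵐ y ∂κ, ∃ W ∈ 𝒲, y ∈ W ∧ κ W = 0) : κ univ = 0 := by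
  apply total_aux κ ρ 𝒲 hU h (fun i : {W : Set X // W ∈ 𝒲 ∧ κ W = 0} => i.1) (fun i => i.2)
  filter_upwards [hcov] with y hy
  obtain ⟨W, h1, h2, h3⟩ := hy
  exact ⟨⟨W, h1, h3⟩, h2⟩

end Pool.Agent.TH784.WB
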