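import Mathlib
import Pool.Agent.TH784.WbEmb
import Pool.Agent.TH784.WbTotal

/-!
Free functionals and the final argument.
-/

namespace Pool.Agent.TH784.WB

open MeasureTheory Set Filter Topology
open scoped ENNReal

/-- functionals vanishing on finitely supported sequences -/
def Fr (φ : StrongDual ℝ Linf) : Prop := ∀ g : Linf, (∃ N, ∀ n, N ≤ n → g n = 0) → φ g = 0

def c00 : Submodule ℝ Linf where
  carrier := {g | ∃ N, ∀ n, N ≤ n → g n = 0}
  add_mem' := by
    rintro a b ⟨N, hN⟩ ⟨N', hN'⟩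
    refine ⟨max N N', fun n hn => ?_⟩
    rw [lp.coeFn_add, Pi.add_apply, hN n ((le_max_left _ _).trans hn),
      hN' n ((le_max_right _ _).trans hn), add_zero]
  zero_mem' := ⟨0, fun n _ => by simp⟩
  smul_mem' := by
    rintro c a ⟨N, hN⟩
    refine ⟨N, fun n hn => ?_⟩
    rw [lp.coeFn_smul, Pi.smul_apply, hN n hn, smul_zero]

theorem exists_free (A : Set Idx) (hA : A.Infinite) :
    ∃ φ : StrongDual ℝ Linf, Fr φ ∧ φ (ind A) = 1 := by
  classical
  have hnot : ind A ∉ (c00.topologicalClosure : Set Linf) := by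
    intro h
    rw [Submodule.topologicalClosure_coe, Metric.mem_closure_iff] at h
    obtain ⟨g, ⟨N, hN⟩, hg⟩ := h 1 one_pos
    have hinf : (en '' A).Infinite := hA.image en_inj.injOn
    obtain ⟨n, hn, hnN⟩ := hinf.exists_gt N
    have h1 := abs_le_norm (ind A - g) n
    rw [lp.coeFn_sub, Pi.sub_apply, ind_apply, if_pos hn, hN n hnN.le, sub_zero, abs_one] at h1
    rw [dist_eq_norm] at hg
    linarith
  obtain ⟨f, u, hf1, hf2⟩ := geometric_hahn_banach_closed_point
    (c00.topologicalClosure.convex) (c00.isClosed_topologicalClosure) hnot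
  have hu : 0 < u := by
    have := hf1 0 (Submodule.zero_mem _)
    simpa using this
  have hfx : 0 < f (ind A) := hu.trans hf2
  have hf0 : ∀ g ∈ c00, f g = 0 := by
    intro g hg
    by_contra hne
    have h1 := hf1 (((u + 1) / f g) • g) (by
      apply Submodule.smul_mem
      exact c00.le_topologicalClosure hg)
    rw [map_smul, smul_eq_mul, div_mul_cancel₀ _ hne] at h1
    linarith
  refine ⟨(1 / f (ind A)) • f, ?_, ?_⟩
  · intro g hg
    have : f g = 0 := hf0 g hg
    simp [this]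
  · change (1 / f (ind A)) * f (ind A) = 1
    field_simp

theorem Fr_est (φ : StrongDual ℝ Linf) (h : Fr φ) (A A' : Set Idx) :
    |φ (ind A') - φ (ind A)| ≤ (chg φ).m (symmDiff A A') := by
  classical
  rw [← map_sub]
  apply le_ciInf
  intro n
  set g := ind A' - ind A with hg
  have hgc := ind_sub_cand A A'
  have hdec : g = (g - res (en '' (Tn n)) g) + res (en '' (Tn n)) g := by abel
  have h1 : φ (g - res (en '' (Tn n)) g) = 0 := by
    apply h
    obtain ⟨N, hN⟩ := ((Tn_compl_fin n).image en).bddAbove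
    refine ⟨N + 1, fun k hk => ?_⟩
    rw [lp.coeFn_sub, Pi.sub_apply, res_apply]
    split_ifs with hmem
    · ring
    · rw [sub_zero]
      by_contra hne
      obtain ⟨p, hp, hpk⟩ := hgc.2 k hne
      have : p ∈ (Tn n)ᶜ := by
        intro hpT
        exact hmem ⟨p, hpT, hpk⟩
      have h2 : k ≤ N := hN ⟨p, this, hpk⟩
      omega
  rw [hdec, map_add, h1, zero_add]
  apply abs_le_rho
  constructor
  · intro k
    rw [res_apply]
    split_ifs
    · exact hgc.1 k
    · simp
  · intro k hk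
    rw [res_apply] at hk
    split_ifs at hk with hmem
    · obtain ⟨p, hp, hpk⟩ := hgc.2 k hk
      obtain ⟨q, hq, hqk⟩ := hmem
      have : p = q := en_inj (hpk.trans hqk.symm)
      subst this
      exact ⟨p, ⟨hp, hq⟩, hpk⟩
    · exact absurd rfl hk

/-- half space -/
def H (φ : StrongDual ℝ Linf) : Set Y := {y | 1 / 2 < φ (ind (S y))}

theorem H_free (φ : StrongDual ℝ Linf) (h : Fr φ) : FreeOpen (H φ) := by
  intro y hy
  have hy' : 1 / 2 < φ (ind (S y)) := hy
  have hc : 0 < φ (ind (S y)) - 1 / 2 := by linarith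
  refine ⟨(chg φ).smul (1 / (φ (ind (S y)) - 1 / 2)) (by positivity), fun z hz => ?_⟩
  have hz' : (1 / (φ (ind (S y)) - 1 / 2)) * (chg φ).m (symmDiff (S y) (S z)) < 1 := hz
  rw [div_mul_eq_mul_div, div_lt_one hc, one_mul] at hz'
  have h1 := Fr_est φ h (S y) (S z)
  have h2 := (abs_le.mp h1).1
  change 1 / 2 < φ (ind (S z))
  linarith

theorem lawY_typ : TypAD lawY where
  good := law_good _
  had x hx := law_ad _ (by simp) x hx

theorem ind_empty : ind ∅ = 0 := by
  classical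
  ext n
  rw [ind_apply, if_neg (by simp)]
  simp

theorem H_null (φ : StrongDual ℝ Linf) (h : Fr φ) : lawY (H φ) = 0 := by
  have h1 := theta_null lawY_typ (chg φ)
  have h2 : ∀ᵐ y ∂lawY, y ∉ H φ := by
    filter_upwards [h1] with y hy hyH
    have h3 := Fr_est φ h ∅ (S y)
    rw [ind_empty, map_zero, sub_zero] at h3
    have h4 : symmDiff (∅ : Set Idx) (S y) = S y := bot_symmDiff _
    rw [h4, hy] at h3
    have h5 : φ (ind (S y)) = 0 := by
      have := abs_nonneg (φ (ind (S y)))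
      exact abs_eq_zero.mp (le_antisymm h3 this)
    have h6 : 1 / 2 < φ (ind (S y)) := hyH
    rw [h5] at h6
    norm_num at h6
  rw [ae_iff] at h2
  simpa using h2

/-- union of half spaces -/
def HU (Φ : Set (StrongDual ℝ Linf)) : Set Y := ⋃ φ ∈ Φ, H φ

theorem HU_free (Φ : Set (StrongDual ℝ Linf)) (h : ∀ φ ∈ Φ, Fr φ) : FreeOpen (HU Φ) := by
  intro y hy
  simp only [HU, mem_iUnion] at hy
  obtain ⟨φ, hφ, hy⟩ := hy
  obtain ⟨θ, hθ⟩ := H_free φ (h φ hφ) y hy
  refine ⟨θ, fun z hz => ?_⟩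
  simp only [HU, mem_iUnion]
  exact ⟨φ, hφ, hθ z hz⟩

/-- weakly open counterpart -/
def VU (Φ : Set (StrongDual ℝ Linf)) : Set (WeakSpace ℝ Linf) :=
  ⋃ φ ∈ Φ, {x | 1 / 2 < φ ((toWeakSpace ℝ Linf).symm x)}

theorem eval_cont (φ : StrongDual ℝ Linf) :
    Continuous (fun x : WeakSpace ℝ Linf => φ ((toWeakSpace ℝ Linf).symm x)) :=
  WeakBilin.eval_continuous (topDualPairing ℝ Linf).flip φ

theorem VU_open (Φ : Set (StrongDual ℝ Linf)) : IsOpen (VU Φ) :=
  isOpen_biUnion fun φ _ => isOpen_lt continuous_const (eval_cont φ)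

theorem Fr_Fm (φ : StrongDual ℝ Linf) (h : Fr φ) (p : ℝ × Y) : φ (Fm p) = φ (ind (S p.2)) := by
  unfold Fm
  rw [map_add, map_smul]
  have : φ u0 = 0 := by
    apply h
    refine ⟨1, fun n hn => ?_⟩
    rw [u0_apply, if_neg (by omega)]
  rw [this, smul_zero, zero_add]

theorem VU_preimage (Φ : Set (StrongDual ℝ Linf)) (h : ∀ φ ∈ Φ, Fr φ) :
    Fw ⁻¹' (VU Φ) = {p | p.2 ∈ HU Φ} := by
  ext p
  simp only [VU, HU, mem_preimage, mem_iUnion, mem_ofPred_eq, H, Fw, LinearEquiv.symm_apply_apply]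
  constructor
  · rintro ⟨φ, hφ, h1⟩
    rw [Fr_Fm φ (h φ hφ)] at h1
    exact ⟨φ, hφ, h1⟩
  · rintro ⟨φ, hφ, h1⟩
    refine ⟨φ, hφ, ?_⟩
    rw [Fr_Fm φ (h φ hφ)]
    exact h1

/-- the measure on the weak Borel sets -/
noncomputable def muW : @Measure (WeakSpace ℝ Linf) (borel (WeakSpace ℝ Linf)) :=
  @Measure.map _ _ mS (borel (WeakSpace ℝ Linf)) Fw muS

theorem muW_apply (E : Set (WeakSpace ℝ Linf)) (hE : MeasurableSet[borel (WeakSpace ℝ Linf)] E) :
    muW E = muS (Fw ⁻¹' E) :=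
  @Measure.map_apply _ _ mS (borel (WeakSpace ℝ Linf)) muS Fw Fw_measurable E hE

theorem open_meas {E : Set (WeakSpace ℝ Linf)} (hE : IsOpen E) :
    MeasurableSet[borel (WeakSpace ℝ Linf)] E :=
  MeasurableSpace.measurableSet_generateFrom hE

theorem muW_univ : muW univ = 1 := by
  rw [muW_apply _ (open_meas isOpen_univ), preimage_univ, muS_univ]

theorem muW_VU (Φ : Set (StrongDual ℝ Linf)) (h : ∀ φ ∈ Φ, Fr φ) :
    muW (VU Φ) = tau (Up (HU Φ)) := by
  rw [muW_apply _ (open_meas (VU_open Φ)), VU_preimage Φ h, muS_free _ (HU_free Φ h)]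

theorem muW_VU_zero (Φ : Set (StrongDual ℝ Linf)) (h : ∀ φ ∈ Φ, Fr φ) :
    muW (VU Φ) = 0 ↔ lawY (HU Φ) = 0 := by
  rw [muW_VU Φ h, tau_Up]

/-! ### typical points are infinite -/

theorem Lv_large (t : ℝ) (ht : 0 < t) (N m : ℕ) : ∃ k, m ≤ k ∧ N ≤ Lv t k := by
  obtain ⟨K, hK⟩ := exists_nat_gt ((N : ℝ) / t)
  refine ⟨max m (max K (N + 1)), le_max_left _ _, ?_⟩
  set k := max m (max K (N + 1)) with hk
  have hkK : (K : ℝ) ≤ k := by exact_mod_cast (le_max_left K (N+1)).trans (le_max_right m _)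
  have hkN : N + 1 ≤ k := (le_max_right K (N+1)).trans (le_max_right m _)
  have h1 : N ≤ ex t k := by
    unfold ex
    apply le_min
    · apply Nat.le_floor
      rw [div_lt_iff₀ ht] at hK
      have hk1 : (1 : ℝ) ≤ k := by exact_mod_cast (show 1 ≤ k by omega)
      calc (N : ℝ) ≤ K * t := hK.le
        _ ≤ k * t := by gcongr
        _ ≤ (k : ℝ) ^ 2 * t := by
          apply mul_le_mul_of_nonneg_right _ ht.le
          nlinarith
    · nlinarith
  calc N ≤ 2 ^ N := Nat.lt_two_pow_self.le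
    _ ≤ 2 ^ (ex t k) := Nat.pow_le_pow_right (by norm_num) h1

theorem lam_finite_null (t : ℝ) (ht : 0 < t) (m : ℕ) :
    lam t {y | ∀ k, m ≤ k → ∀ i, y k i = false} = 0 := by
  have hmeas : MeasurableSet {y : Y | ∀ k, m ≤ k → ∀ i, y k i = false} := by
    have : {y : Y | ∀ k, m ≤ k → ∀ i, y k i = false} =
        ⋂ k, ⋂ (_ : m ≤ k), (fun y : Y => y k) ⁻¹' {z | ∀ i, z i = false} := by
      ext y; simp
    rw [this]
    exact MeasurableSet.iInter fun k => MeasurableSet.iInter fun _ =>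
      measurable_pi_apply k MeasurableSet.of_discrete
  have hb : ∀ k, m ≤ k → lam t {y | ∀ k, m ≤ k → ∀ i, y k i = false} ≤ (Lv t k : ℝ≥0∞)⁻¹ := by
    intro k hk
    unfold lam
    rw [Measure.map_apply (G_measurable t) hmeas]
    have hsub : G t ⁻¹' {y | ∀ k, m ≤ k → ∀ i, y k i = false} ⊆
        {ω | ω k ∈ {p : Om k | nn t k p.1 = 0}} := by
      intro ω hω
      have h1 := hω k hk
      simp only [mem_ofPred_eq]
      by_contra hne
      have hpos : 0 < nn t k (ω k).1 := Nat.pos_of_ne_zero hne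
      have h2 := h1 ((ω k).2 ⟨0, R_pos k⟩)
      simp only [G, block, decide_eq_false_iff_not] at h2
      exact h2 ⟨⟨0, R_pos k⟩, hpos, rfl⟩
    refine (measure_mono hsub).trans ?_
    rw [P_eval]
    exact nu_mod k t 0
  rw [← nonpos_iff_eq_zero]
  refine le_of_forall_pos_le_add ?_
  intro ε hε
  rw [zero_add]
  obtain ⟨N, hN⟩ := ENNReal.exists_inv_nat_lt hε.ne'
  obtain ⟨k, hk1, hk2⟩ := Lv_large t ht N m
  refine (hb k hk1).trans (le_trans ?_ hN.le)
  apply ENNReal.inv_le_inv.mpr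
  exact_mod_cast hk2

theorem lawY_infinite : ∀ᵐ y ∂lawY, (S y).Infinite := by
  have h1 : ∀ m : ℕ, lawY {y | ∀ k, m ≤ k → ∀ i, y k i = false} = 0 := by
    intro m
    have hmeas : MeasurableSet {y : Y | ∀ k, m ≤ k → ∀ i, y k i = false} := by
      have : {y : Y | ∀ k, m ≤ k → ∀ i, y k i = false} =
          ⋂ k, ⋂ (_ : m ≤ k), (fun y : Y => y k) ⁻¹' {z | ∀ i, z i = false} := by
        ext y; simp
      rw [this]
      exact MeasurableSet.iInter fun k => MeasurableSet.iInter fun _ =>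
        measurable_pi_apply k MeasurableSet.of_discrete
    unfold lawY
    rw [law_apply tau hmeas, lintegral_eq_zero_iff (lam_measurable hmeas)]
    have hae : ∀ᵐ t ∂tau, 0 < t := by
      have h5 : ∀ᵐ t ∂tau, t ∈ Icc (0 : ℝ) 1 := by
        unfold tau
        exact ae_restrict_mem measurableSet_Icc
      have h6 : ∀ᵐ t ∂tau, t ≠ 0 := by
        unfold tau
        apply ae_restrict_of_ae
        rw [ae_iff]
        simp
      filter_upwards [h5, h6] with t h5 h6
      exact lt_of_le_of_ne h5.1 (Ne.symm h6)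
    filter_upwards [hae] with t ht
    exact lam_finite_null t ht m
  rw [ae_iff]
  have hsub : {y | ¬ (S y).Infinite} ⊆ ⋃ m : ℕ, {y | ∀ k, m ≤ k → ∀ i, y k i = false} := by
    intro y hy
    have hfin : (S y).Finite := Set.not_infinite.mp hy
    obtain ⟨N, hN⟩ := (hfin.image (fun p : Idx => p.1)).bddAbove
    refine mem_iUnion.mpr ⟨N + 1, fun k hk i => ?_⟩
    by_contra hne
    have : y k i = true := by simpa using hne
    have h2 : k ≤ N := hN ⟨⟨k, i⟩, this, rfl⟩
    omega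
  refine measure_mono_null hsub ?_
  rw [measure_iUnion_null_iff]
  exact h1

theorem cover : ∀ᵐ y ∂lawY, ∃ φ, Fr φ ∧ y ∈ H φ := by
  filter_upwards [lawY_infinite] with y hy
  obtain ⟨φ, h1, h2⟩ := exists_free (S y) hy
  refine ⟨φ, h1, ?_⟩
  change 1 / 2 < φ (ind (S y))
  rw [h2]
  norm_num

end Pool.Agent.TH784.WB
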