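import Mathlib
import Pool.Agent.TH784.WbFin

/-!
The weak Borel probability `muW` has no extension to the norm Borel sets and is not Radon.
-/

namespace Pool.Agent.TH784.WB

open MeasureTheory Set Filter Topology
open scoped ENNReal

noncomputable def evn (n : ℕ) : StrongDual ℝ Linf :=
  LinearMap.mkContinuous
    { toFun := fun x : Linf => x n
      map_add' := fun x y => by rw [lp.coeFn_add, Pi.add_apply]
      map_smul' := fun c x => by rw [lp.coeFn_smul, Pi.smul_apply]; rfl } 1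
    (fun x => by
      rw [one_mul]
      exact abs_le_norm x n)

theorem evn_apply (n : ℕ) (x : Linf) : evn n x = x n := rfl

/-- the image of the embedding, as a subset of the weak space -/
def XX : Set (WeakSpace ℝ Linf) :=
  {x | ∀ n : ℕ, n ≠ 0 → ((n ∉ range en → evn n ((toWeakSpace ℝ Linf).symm x) = 0) ∧
    evn n ((toWeakSpace ℝ Linf).symm x) ∈ ({0, 1} : Set ℝ))}

theorem XX_closed : IsClosed XX := by
  have : XX = ⋂ n : ℕ, ⋂ (_ : n ≠ 0),
      ((⋂ (_ : n ∉ range en), {x | evn n ((toWeakSpace ℝ Linf).symm x) = 0}) ∩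
        {x | evn n ((toWeakSpace ℝ Linf).symm x) ∈ ({0, 1} : Set ℝ)}) := by
    ext x
    simp only [XX, mem_ofPred_eq, mem_iInter, mem_inter_iff]
  rw [this]
  apply isClosed_iInter
  intro n
  apply isClosed_iInter
  intro _
  apply IsClosed.inter
  · apply isClosed_iInter
    intro _
    exact isClosed_eq (eval_cont (evn n)) continuous_const
  · exact (Set.toFinite ({0, 1} : Set ℝ)).isClosed.preimage (eval_cont (evn n))

theorem Fw_mem (p : ℝ × Y) : Fw p ∈ XX := by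
  classical
  intro n hn
  simp only [Fw, LinearEquiv.symm_apply_apply, evn_apply, Fm_apply]
  rw [u0_apply, if_neg hn, mul_zero, zero_add, ind_apply]
  constructor
  · intro h
    rw [if_neg]
    rintro ⟨q, _, hq⟩
    exact h ⟨q, hq⟩
  · split_ifs <;> simp

theorem mem_XX (x : WeakSpace ℝ Linf) (hx : x ∈ XX) : ∃ p, x = Fw p := by
  classical
  set z := (toWeakSpace ℝ Linf).symm x with hz
  refine ⟨(z 0, fun k i => decide (z (en ⟨k, i⟩) = 1)), ?_⟩
  apply (toWeakSpace ℝ Linf).symm.injective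
  rw [Fw, LinearEquiv.symm_apply_apply, ← hz]
  ext n
  rw [Fm_apply, u0_apply, ind_apply]
  by_cases hn : n = 0
  · subst hn
    rw [if_pos rfl, if_neg]
    · simp
    · rintro ⟨q, _, hq⟩
      exact en_ne q hq
  · rw [if_neg hn, mul_zero, zero_add]
    obtain ⟨h1, h2⟩ := hx n hn
    rw [← hz, evn_apply] at h1 h2
    by_cases hr : n ∈ range en
    · obtain ⟨⟨k, i⟩, rfl⟩ := hr
      rcases h2 with h2 | h2
      · rw [h2, if_neg]
        rintro ⟨q, hq, hqe⟩
        have : q = ⟨k, i⟩ := en_inj hqe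
        subst this
        simp only [S, mem_ofPred_eq, decide_eq_true_eq, h2] at hq
        norm_num at hq
      · have h3 : z (en ⟨k, i⟩) = 1 := h2
        rw [h3, if_pos]
        refine ⟨⟨k, i⟩, ?_, rfl⟩
        simp only [S, mem_ofPred_eq, decide_eq_true_eq, h3]
    · rw [h1 hr, if_neg]
      rintro ⟨q, _, hq⟩
      exact hr ⟨q, hq⟩

theorem muW_XX : muW XX = 1 := by
  rw [muW_apply _ (by
    have := (open_meas XX_closed.isOpen_compl)
    exact (@MeasurableSet.compl_iff _ _ (borel (WeakSpace ℝ Linf))).mp this)]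
  have : Fw ⁻¹' XX = univ := by
    ext p; simp [Fw_mem p]
  rw [this, muS_univ]

theorem XX_meas : MeasurableSet[borel (WeakSpace ℝ Linf)] XX :=
  (@MeasurableSet.compl_iff _ _ (borel (WeakSpace ℝ Linf))).mp (open_meas XX_closed.isOpen_compl)

/-- norm neighbourhood of the part of the image lying over `A` -/
def Nb (A : Set Y) : Set Linf := {x | ∃ p : ℝ × Y, p.2 ∈ A ∧ ‖x - Fm p‖ < 1 / 2}

theorem Nb_open (A : Set Y) : IsOpen (Nb A) := by
  have : Nb A = ⋃ p ∈ {p : ℝ × Y | p.2 ∈ A}, Metric.ball (Fm p) (1 / 2) := by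
    ext x
    simp only [Nb, mem_ofPred_eq, mem_iUnion, Metric.mem_ball, dist_eq_norm]
    constructor
    · rintro ⟨p, h1, h2⟩; exact ⟨p, h1, h2⟩
    · rintro ⟨p, h1, h2⟩; exact ⟨p, h1, h2⟩
  rw [this]
  exact isOpen_biUnion fun p _ => Metric.isOpen_ball

theorem Fm_sep (p q : ℝ × Y) (h : ‖Fm p - Fm q‖ < 1) : p.2 = q.2 := by
  classical
  funext k
  funext i
  have h1 := (abs_le_norm (Fm p - Fm q) (en ⟨k, i⟩)).trans_lt h
  rw [lp.coeFn_sub, Pi.sub_apply, Fm_apply, Fm_apply, u0_apply, if_neg (en_ne _), mul_zero,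
    mul_zero, zero_add, zero_add, ind_apply, ind_apply] at h1
  have hmem : ∀ y : Y, en ⟨k, i⟩ ∈ en '' S y ↔ y k i = true := by
    intro y
    constructor
    · rintro ⟨r, hr, hre⟩
      have : r = ⟨k, i⟩ := en_inj hre
      subst this
      exact hr
    · intro h
      exact ⟨⟨k, i⟩, h, rfl⟩
  by_cases h2 : p.2 k i = true <;> by_cases h3 : q.2 k i = true
  · rw [h2, h3]
  · rw [if_pos ((hmem _).mpr h2), if_neg (fun h => h3 ((hmem _).mp h))] at h1
    norm_num at h1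
  · rw [if_neg (fun h => h2 ((hmem _).mp h)), if_pos ((hmem _).mpr h3)] at h1
    norm_num at h1
  · rw [Bool.not_eq_true] at h2 h3
    rw [h2, h3]

theorem Nb_disj (A B : Set Y) (h : Disjoint A B) : Disjoint (Nb A) (Nb B) := by
  rw [Set.disjoint_left]
  rintro x ⟨p, hp, hpx⟩ ⟨q, hq, hqx⟩
  have h1 : p.2 = q.2 := by
    apply Fm_sep
    have : Fm p - Fm q = (x - Fm q) - (x - Fm p) := by abel
    rw [this]
    calc _ ≤ ‖x - Fm q‖ + ‖x - Fm p‖ := norm_sub_le _ _
      _ < 1 := by linarith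
  exact Set.disjoint_left.mp h hp (h1 ▸ hq)

theorem Nb_iUnion (A : ℕ → Set Y) : Nb (⋃ i, A i) = ⋃ i, Nb (A i) := by
  ext x
  simp only [Nb, mem_ofPred_eq, mem_iUnion]
  constructor
  · rintro ⟨p, ⟨i, hi⟩, h⟩
    exact ⟨i, p, hi, h⟩
  · rintro ⟨i, p, hi, h⟩
    exact ⟨p, ⟨i, hi⟩, h⟩

theorem Nb_inter_XX (Φ : Set (StrongDual ℝ Linf)) (h : ∀ φ ∈ Φ, Fr φ) :
    Nb (HU Φ) ∩ (toWeakSpace ℝ Linf) ⁻¹' XX = (toWeakSpace ℝ Linf) ⁻¹' (VU Φ ∩ XX) := by
  ext x
  simp only [mem_inter_iff, mem_preimage]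
  constructor
  · rintro ⟨⟨p, hp, hpx⟩, hx⟩
    refine ⟨?_, hx⟩
    obtain ⟨q, hq⟩ := mem_XX _ hx
    have hxq : x = Fm q := (toWeakSpace ℝ Linf).injective hq
    have h1 : q.2 = p.2 := by
      apply Fm_sep
      rw [← hxq]
      linarith
    have h2 : q ∈ Fw ⁻¹' (VU Φ) := by
      rw [VU_preimage Φ h]
      simp only [mem_ofPred_eq, h1]
      exact hp
    rw [hq]
    exact h2
  · rintro ⟨hV, hx⟩
    refine ⟨?_, hx⟩
    obtain ⟨q, hq⟩ := mem_XX _ hx
    have hxq : x = Fm q := (toWeakSpace ℝ Linf).injective hq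
    refine ⟨q, ?_, by rw [hxq]; simp⟩
    have h2 : q ∈ Fw ⁻¹' (VU Φ) := by
      rw [mem_preimage, ← hq]; exact hV
    rw [VU_preimage Φ h] at h2
    exact h2

/-- a measure on all subsets -/
noncomputable def discMeas {X : Type} (m : Set X → ℝ≥0∞) (m0 : m ∅ = 0)
    (mU : ∀ f : ℕ → Set X, Pairwise (Function.onFun Disjoint f) → m (⋃ i, f i) = ∑' i, m (f i)) :
    Measure (Disc X) :=
  @Measure.ofMeasurable (Disc X) _ (fun A _ => m A) m0 (fun f _ hd => mU f hd)

theorem discMeas_apply {X : Type} (m : Set X → ℝ≥0∞) (m0 : m ∅ = 0)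
    (mU : ∀ f : ℕ → Set X, Pairwise (Function.onFun Disjoint f) → m (⋃ i, f i) = ∑' i, m (f i))
    (A : Set X) : discMeas m m0 mU (A : Set X) = m A :=
  @Measure.ofMeasurable_apply (Disc X) _ (fun A _ => m A) m0 (fun f _ hd => mU f hd) A
    (MeasurableSpace.measurableSet_top)

theorem no_ext (ν : @Measure Linf (borel Linf)) (hν : @IsProbabilityMeasure Linf (borel Linf) ν)
    (hext : ∀ E, MeasurableSet[borel (WeakSpace ℝ Linf)] E →
      ν ((toWeakSpace ℝ Linf) ⁻¹' E) = muW E) : False := by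
  let _ : MeasurableSpace Linf := borel Linf
  have : BorelSpace Linf := ⟨rfl⟩
  have hν' : IsProbabilityMeasure ν := hν
  -- the total measure
  have hm0 : ν (Nb (∅ : Set Y)) = 0 := by
    have : Nb (∅ : Set Y) = ∅ := by
      ext x; simp [Nb]
    rw [this, measure_empty]
  have hmU : ∀ f : ℕ → Set Y, Pairwise (Function.onFun Disjoint f) →
      ν (Nb (⋃ i, f i)) = ∑' i, ν (Nb (f i)) := by
    intro f hdisj
    rw [Nb_iUnion, measure_iUnion]
    · intro i j hij
      exact Nb_disj _ _ (hdisj hij)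
    · intro i
      exact (Nb_open _).measurableSet
  let ρ : Measure (Disc Y) := discMeas (fun A => ν (Nb A)) hm0 hmU
  have hρ : ∀ A : Set Y, ρ (A : Set Y) = ν (Nb A) := fun A => discMeas_apply _ hm0 hmU A
  have hρfin : IsFiniteMeasure ρ := by
    constructor
    have := hρ univ
    change ρ (univ : Set Y) < ∞
    rw [this]
    exact measure_lt_top ν _
  -- `ν` is carried by the image
  have hXXm : MeasurableSet ((toWeakSpace ℝ Linf) ⁻¹' XX) := by
    apply IsClosed.measurableSet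
    exact XX_closed.preimage (toWeakSpaceCLM ℝ Linf).continuous
  have hcar : ν ((toWeakSpace ℝ Linf) ⁻¹' XX)ᶜ = 0 := by
    rw [prob_compl_eq_zero_iff hXXm, hext XX XX_meas, muW_XX]
  have hkey : ∀ Φ : Set (StrongDual ℝ Linf), (∀ φ ∈ Φ, Fr φ) →
      (ρ (HU Φ : Set Y) = 0 ↔ lawY (HU Φ) = 0) := by
    intro Φ hΦ
    rw [hρ, ← muW_VU_zero Φ hΦ, ← hext _ (open_meas (VU_open Φ))]
    have h1 : ν (Nb (HU Φ)) = ν (Nb (HU Φ) ∩ (toWeakSpace ℝ Linf) ⁻¹' XX) :=
      (measure_inter_conull hcar).symm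
    have h2 : ν ((toWeakSpace ℝ Linf) ⁻¹' (VU Φ)) =
        ν ((toWeakSpace ℝ Linf) ⁻¹' (VU Φ) ∩ (toWeakSpace ℝ Linf) ⁻¹' XX) :=
      (measure_inter_conull hcar).symm
    rw [h1, h2, Nb_inter_XX Φ hΦ, preimage_inter]
  have hfinal := total lawY ρ {W | ∃ Φ : Set (StrongDual ℝ Linf), (∀ φ ∈ Φ, Fr φ) ∧ W = HU Φ}
    (by
      intro 𝒮 h𝒮
      have hch : ∀ W : 𝒮, ∃ Φ : Set (StrongDual ℝ Linf), (∀ φ ∈ Φ, Fr φ) ∧ W.1 = HU Φ :=
        fun W => h𝒮 W.2
      choose Ψ hΨ1 hΨ2 using hch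
      refine ⟨⋃ W, Ψ W, ?_, ?_⟩
      · intro φ hφ
        obtain ⟨W, hW⟩ := mem_iUnion.mp hφ
        exact hΨ1 W φ hW
      · ext y
        constructor
        · rintro ⟨W, hW, hy⟩
          have hW2 : W = HU (Ψ ⟨W, hW⟩) := hΨ2 ⟨W, hW⟩
          rw [hW2] at hy
          simp only [HU, mem_iUnion] at hy ⊢
          obtain ⟨φ, hφ, hy⟩ := hy
          exact ⟨φ, ⟨⟨W, hW⟩, hφ⟩, hy⟩
        · intro hy
          simp only [HU, mem_iUnion] at hy
          obtain ⟨φ, ⟨W, hφ⟩, hy⟩ := hy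
          refine ⟨W.1, W.2, ?_⟩
          rw [hΨ2 W]
          simp only [HU, mem_iUnion]
          exact ⟨φ, hφ, hy⟩)
    (by
      rintro W ⟨Φ, hΦ, rfl⟩
      exact hkey Φ hΦ)
    (by
      filter_upwards [cover] with y hy
      obtain ⟨φ, hφ, hyφ⟩ := hy
      refine ⟨HU {φ}, ⟨{φ}, ?_, rfl⟩, ?_, ?_⟩
      · rintro _ rfl; exact hφ
      · simpa [HU] using hyφ
      · have : HU {φ} = H φ := by simp [HU]
        rw [this]
        exact H_null φ hφ)
  rw [measure_univ] at hfinal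
  exact one_ne_zero hfinal

/-- all free functionals -/
def AllFr : Set (StrongDual ℝ Linf) := {φ | Fr φ}

theorem muW_all : muW (VU AllFr) = 1 := by
  rw [muW_VU AllFr (fun φ h => h)]
  apply le_antisymm prob_le_one
  have hcov : ∀ᵐ y ∂lawY, y ∈ HU AllFr := by
    filter_upwards [cover] with y hy
    obtain ⟨φ, hφ, hyφ⟩ := hy
    simp only [HU, mem_iUnion]
    exact ⟨φ, hφ, hyφ⟩
  have hsub : Ioi (0 : ℝ) ⊆ Up (HU AllFr) := by
    intro t ht
    refine ⟨t / 2, half_lt_self ht, ?_⟩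
    intro h0
    have h1 : ∀ᵐ y ∂(Lam (t / 2)), y ∈ HU AllFr := (Lam_ac_lawY (t / 2)).ae_le hcov
    have h2 : ∀ᵐ y ∂(Lam (t / 2)), y ∉ HU AllFr := by
      rw [ae_iff]; simpa using h0
    have h3 : ∀ᵐ _ ∂(Lam (t / 2)), False := by
      filter_upwards [h1, h2] with y a b
      exact b a
    rw [ae_iff] at h3
    exact Lam_univ (t / 2) (half_pos ht) (by simpa using h3)
  calc (1 : ℝ≥0∞) = tau (Ioi 0) := by
        unfold tau
        rw [Measure.restrict_apply measurableSet_Ioi]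
        have : Ioi (0 : ℝ) ∩ Icc 0 1 = Ioc 0 1 := by
          ext x
          simp only [mem_inter_iff, mem_Ioi, mem_Icc, mem_Ioc]
          constructor
          · rintro ⟨h1, _, h2⟩; exact ⟨h1, h2⟩
          · rintro ⟨h1, h2⟩; exact ⟨h1, h1.le, h2⟩
        rw [this, Real.volume_Ioc]
        simp
    _ ≤ _ := measure_mono hsub

theorem muW_compact (K : Set (WeakSpace ℝ Linf)) (hK : IsCompact K) (hsub : K ⊆ VU AllFr) :
    muW K = 0 := by
  obtain ⟨s, hs⟩ := hK.elim_finite_subcover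
    (fun φ : AllFr => VU {φ.1}) (fun φ => VU_open _) (by
      intro x hx
      have := hsub hx
      simp only [VU, mem_iUnion] at this
      obtain ⟨φ, hφ, h⟩ := this
      refine mem_iUnion.mpr ⟨⟨φ, hφ⟩, ?_⟩
      simp only [VU, mem_iUnion]
      exact ⟨φ, rfl, h⟩)
  refine measure_mono_null hs ?_
  refine (measure_biUnion_null_iff (I := (s : Set AllFr)) s.countable_toSet).2 ?_
  intro φ _
  rw [muW_VU_zero]
  · have : HU {φ.1} = H φ.1 := by simp [HU]
    rw [this]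
    exact H_null φ.1 φ.2
  · rintro _ rfl
    exact φ.2

end Pool.Agent.TH784.WB
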