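import Mathlib
import Pool.Agent.Helper996.DowkerTree

/-!
Nodes of a coherent Aronszajn tree on a well order `W` with countable initial segments, and the
two wedge topologies on it.
-/

set_option autoImplicit false
set_option linter.unusedSectionVars false

namespace Pool.Agent.TH784.Roth

open Set

variable {W : Type} [LinearOrder W] [WellFoundedLT W]

/-- The nodes: pairs of a height `a` (not the least element of `W`) and a function which agrees
with `e a` below `a` up to finitely many places, and vanishes from `a` on. -/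
def Node (e : W → W → ℕ) : Type :=
  {x : W × (W → ℕ) // (∃ c, c < x.1) ∧ (∀ c, x.1 ≤ c → x.2 c = 0) ∧
    {c | c < x.1 ∧ x.2 c ≠ e x.1 c}.Finite}

variable {e : W → W → ℕ}

/-- height -/
def Node.ht (x : Node e) : W := x.1.1

/-- the function -/
def Node.fn (x : Node e) : W → ℕ := x.1.2

theorem Node.pos (x : Node e) : ∃ c, c < x.ht := x.2.1

theorem Node.zero (x : Node e) {c : W} (h : x.ht ≤ c) : x.fn c = 0 := x.2.2.1 c h

theorem Node.fin (x : Node e) : {c | c < x.ht ∧ x.fn c ≠ e x.ht c}.Finite := x.2.2.2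

theorem Node.ext' {x y : Node e} (h : x.ht = y.ht) (h' : ∀ c < x.ht, x.fn c = y.fn c) : x = y := by
  apply Subtype.ext
  apply Prod.ext h
  funext c
  by_cases hc : c < x.ht
  · exact h' c hc
  · have h1 : x.fn c = 0 := x.zero (not_lt.1 hc)
    have h2 : y.fn c = 0 := y.zero (h ▸ not_lt.1 hc)
    exact h1.trans h2.symm

/-- `y` is an initial segment of `x` (possibly `x` itself) -/
def Below (y x : Node e) : Prop := y.ht ≤ x.ht ∧ ∀ b < y.ht, y.fn b = x.fn b

/-- `y` splits from `x` on the `r`-side -/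
def Side (r : ℕ → ℕ → Prop) (x y : Node e) : Prop :=
  ∃ d, d < x.ht ∧ d < y.ht ∧ (∀ b < d, y.fn b = x.fn b) ∧ r (x.fn d) (y.fn d)

/-- basic neighbourhoods of `x` -/
def Wd (r : ℕ → ℕ → Prop) (x : Node e) (c : W) : Set (Node e) :=
  {y | c < y.ht ∧ (∀ b ≤ c, y.fn b = x.fn b) ∧ (Below y x ∨ Side r x y)}

theorem mem_Wd_self (r : ℕ → ℕ → Prop) (x : Node e) {c : W} (hc : c < x.ht) : x ∈ Wd r x c :=
  ⟨hc, fun _ _ => rfl, Or.inl ⟨le_rfl, fun _ _ => rfl⟩⟩

theorem Wd_anti (r : ℕ → ℕ → Prop) (x : Node e) {c c' : W} (hc : c ≤ c') :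
    Wd r x c' ⊆ Wd r x c := fun _ hy =>
  ⟨hc.trans_lt hy.1, fun b hb => hy.2.1 b (hb.trans hc), hy.2.2⟩

/-- every point of a basic neighbourhood has a basic neighbourhood inside it -/
theorem Wd_open (r : ℕ → ℕ → Prop) (x : Node e) (c : W) (y : Node e) (hy : y ∈ Wd r x c) :
    ∃ c' < y.ht, Wd r y c' ⊆ Wd r x c := by
  obtain ⟨h1, h2, h3 | ⟨d, hdx, hdy, hd, hr⟩⟩ := hy
  · refine ⟨c, h1, fun z hz => ⟨hz.1, fun b hb => (hz.2.1 b hb).trans (h2 b hb), ?_⟩⟩
    rcases hz.2.2 with h4 | ⟨d, hdy, hdz, hd, hr⟩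
    · exact Or.inl ⟨h4.1.trans h3.1, fun b hb => (h4.2 b hb).trans (h3.2 b (hb.trans_le h4.1))⟩
    · refine Or.inr ⟨d, hdy.trans_le h3.1, hdz, fun b hb => ?_, ?_⟩
      · exact (hd b hb).trans (h3.2 b (hb.trans hdy))
      · rw [← h3.2 d hdy]; exact hr
  · refine ⟨max c d, max_lt h1 hdy, fun z hz => ⟨(le_max_left c d).trans_lt hz.1, fun b hb => ?_,
      Or.inr ⟨d, hdx, (le_max_right c d).trans_lt hz.1, fun b hb => ?_, ?_⟩⟩⟩
    · exact (hz.2.1 b (hb.trans (le_max_left c d))).trans (h2 b hb)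
    · exact (hz.2.1 b (hb.le.trans (le_max_right c d))).trans (hd b hb)
    · rw [hz.2.1 d (le_max_right c d)]; exact hr

/-- the requirements on the relation `r` -/
structure Good (r : ℕ → ℕ → Prop) : Prop where
  tri : ∀ a b, a ≠ b → r a b ∨ r b a
  asymm : ∀ a b, r a b → ¬ r b a

theorem Good.ne {r : ℕ → ℕ → Prop} (hr : Good r) {a b : ℕ} (h : r a b) : a ≠ b := by
  rintro rfl
  exact hr.asymm _ _ h h

/-- the first difference of two functions -/
theorem first_diff (f g : W → ℕ) (a : W) (h : ∃ b < a, f b ≠ g b) :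
    ∃ d < a, (∀ b < d, f b = g b) ∧ f d ≠ g d := by
  obtain ⟨b, hb, hb'⟩ := h
  let S : Set W := {b | f b ≠ g b}
  have hS : S.Nonempty := ⟨b, hb'⟩
  refine ⟨wellFounded_lt.min S hS, ?_, ?_, wellFounded_lt.min_mem S hS⟩
  · exact lt_of_le_of_lt (wellFounded_lt.min_le hb') hb
  · intro c hc
    by_contra hcon
    exact absurd hc (not_lt.2 (wellFounded_lt.min_le hcon))

theorem below_or_side (x y : Node e) (hne : ∀ b < min x.ht y.ht, y.fn b = x.fn b) :
    Below y x ∨ (x.ht < y.ht ∧ ∀ b < x.ht, y.fn b = x.fn b) := by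
  rcases le_or_gt y.ht x.ht with h | h
  · exact Or.inl ⟨h, fun b hb => hne b (lt_min (hb.trans_le h) hb)⟩
  · exact Or.inr ⟨h, fun b hb => hne b (lt_min hb (hb.trans h))⟩

/-- every point outside of a basic neighbourhood has a basic neighbourhood disjoint from it -/
theorem Wd_closed {r : ℕ → ℕ → Prop} (hr : Good r) (x : Node e) (c : W) (y : Node e)
    (hy : y ∉ Wd r x c) : ∃ c' < y.ht, ∀ z ∈ Wd r y c', z ∉ Wd r x c := by
  by_cases hd : ∃ b < min x.ht y.ht, y.fn b ≠ x.fn b
  · -- incomparable nodes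
    obtain ⟨d, hd1, hd2, hd3⟩ := first_diff y.fn x.fn _ hd
    have hdx : d < x.ht := hd1.trans_le (min_le_left _ _)
    have hdy : d < y.ht := hd1.trans_le (min_le_right _ _)
    by_cases hc : c < y.ht
    · refine ⟨max c d, max_lt hc hdy, fun z hz hzx => hy ?_⟩
      have hzd : z.fn d = y.fn d := hz.2.1 d (le_max_right _ _)
      have hdz : d < z.ht := (le_max_right _ _).trans_lt hz.1
      refine ⟨hc, fun b hb => ?_, Or.inr ⟨d, hdx, hdy, hd2, ?_⟩⟩
      · rw [← hz.2.1 b (hb.trans (le_max_left _ _))]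
        exact hzx.2.1 b hb
      · rcases hzx.2.2 with h | ⟨d', h1, h2, h3, h4⟩
        · exfalso
          exact hd3 (hzd.symm.trans (h.2 d hdz))
        · rcases lt_trichotomy d d' with h5 | h5 | h5
          · exact absurd (hzd.symm.trans (h3 d h5)) hd3
          · subst h5
            rw [← hzd]; exact h4
          · exfalso
            have : z.fn d' = y.fn d' := hz.2.1 d' (h5.le.trans (le_max_right _ _))
            rw [this, hd2 d' h5] at h4
            exact hr.asymm _ _ h4 h4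
    · refine ⟨d, hdy, fun z hz hzx => ?_⟩
      have hdc : d ≤ c := (hdy.trans_le (not_lt.1 hc)).le
      exact hd3 ((hz.2.1 d le_rfl).symm.trans (hzx.2.1 d hdc))
  · push Not at hd
    rcases below_or_side x y hd with h | h
    · -- `y` is below `x`, hence of height at most `c`
      have hc : y.ht ≤ c := by
        by_contra hcon
        push Not at hcon
        exact hy ⟨hcon, fun b hb => h.2 b (hb.trans_lt hcon), Or.inl h⟩
      obtain ⟨c0, hc0⟩ := y.pos
      refine ⟨c0, hc0, fun z hz hzx => ?_⟩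
      rcases hz.2.2 with h1 | ⟨d, h1, h2, h3, h4⟩
      · exact absurd (hzx.1.trans_le (h1.1.trans hc)) (lt_irrefl _)
      · have h5 : z.fn d = x.fn d := hzx.2.1 d (h1.le.trans hc)
        rw [h5, h.2 d h1] at h4
        exact hr.asymm _ _ h4 h4
    · refine ⟨x.ht, h.1, fun z hz hzx => ?_⟩
      have h1 : ∀ b < x.ht, z.fn b = x.fn b := fun b hb => (hz.2.1 b hb.le).trans (h.2 b hb)
      rcases hzx.2.2 with h2 | ⟨d, h2, h3, h4, h5⟩
      · exact absurd (hz.1.trans_le h2.1) (lt_irrefl _)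
      · rw [h1 d h2] at h5
        exact hr.asymm _ _ h5 h5

/-- distinct nodes have disjoint basic neighbourhoods, whichever the sides -/
theorem Wd_sep {r r' : ℕ → ℕ → Prop} (hr : Good r) (hr' : Good r') (x y : Node e) (hxy : x ≠ y) :
    ∃ c < x.ht, ∃ c' < y.ht, ∀ z, z ∈ Wd r x c → z ∉ Wd r' y c' := by
  by_cases hd : ∃ b < min x.ht y.ht, y.fn b ≠ x.fn b
  · obtain ⟨d, hd1, hd2, hd3⟩ := first_diff y.fn x.fn _ hd
    have hdx : d < x.ht := hd1.trans_le (min_le_left _ _)
    have hdy : d < y.ht := hd1.trans_le (min_le_right _ _)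
    refine ⟨d, hdx, d, hdy, fun z hz hz' => ?_⟩
    exact hd3 ((hz'.2.1 d le_rfl).symm.trans (hz.2.1 d le_rfl))
  · push Not at hd
    rcases lt_trichotomy x.ht y.ht with h | h | h
    · obtain ⟨c0, hc0⟩ := x.pos
      refine ⟨c0, hc0, x.ht, h, fun z hz hz' => ?_⟩
      have h1 : ∀ b < x.ht, z.fn b = x.fn b := fun b hb =>
        (hz'.2.1 b hb.le).trans (hd b (lt_min hb (hb.trans h)))
      rcases hz.2.2 with h2 | ⟨d, h2, h3, h4, h5⟩
      · exact absurd (hz'.1.trans_le h2.1) (lt_irrefl _)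
      · rw [h1 d h2] at h5
        exact hr.asymm _ _ h5 h5
    · exact absurd (Node.ext' h (fun b hb => (hd b (lt_min hb (h ▸ hb))).symm)) hxy
    · obtain ⟨c0, hc0⟩ := y.pos
      refine ⟨y.ht, h, c0, hc0, fun z hz hz' => ?_⟩
      have h1 : ∀ b < y.ht, z.fn b = y.fn b := fun b hb =>
        (hz.2.1 b hb.le).trans (hd b (lt_min (hb.trans h) hb)).symm
      rcases hz'.2.2 with h2 | ⟨d, h2, h3, h4, h5⟩
      · exact absurd (hz.1.trans_le h2.1) (lt_irrefl _)
      · rw [h1 d h2] at h5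
        exact hr'.asymm _ _ h5 h5

/-- the restriction of a node to a smaller height -/
theorem exists_restrict (he : ∀ a b, b < a → {c | c < b ∧ e a c ≠ e b c}.Finite)
    (x : Node e) (δ : W) (hδ : δ ≤ x.ht) (hpos : ∃ c, c < δ) :
    ∃ y : Node e, y.ht = δ ∧ ∀ b < δ, y.fn b = x.fn b := by
  classical
  refine ⟨⟨(δ, fun c => if c < δ then x.fn c else 0), hpos, fun c hc => ?_, ?_⟩, rfl, fun b hb => ?_⟩
  · simp only [if_neg (not_lt.2 hc)]
  · have h1 : {c | c < δ ∧ e x.ht c ≠ e δ c}.Finite := by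
      rcases hδ.lt_or_eq with h | h
      · exact he _ _ h
      · subst h
        simp
    refine (x.fin.union h1).subset ?_
    rintro c ⟨h2, h3⟩
    simp only [if_pos h2] at h3
    by_cases h4 : x.fn c = e x.ht c
    · right
      refine ⟨h2, ?_⟩
      rw [← h4]; exact h3
    · left
      exact ⟨h2.trans_le hδ, h4⟩
  · show (if b < δ then x.fn b else 0) = x.fn b
    rw [if_pos hb]

/-- membership of high nodes in a basic neighbourhood of a low node only depends on the
restriction -/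
theorem mem_Wd_congr {r : ℕ → ℕ → Prop} {y x x' : Node e} {c δ : W} (hy : y.ht < δ)
    (hx : δ ≤ x.ht) (hx' : δ ≤ x'.ht) (hxx : ∀ b < δ, x.fn b = x'.fn b) (hc : c < y.ht)
    (h : x ∈ Wd r y c) : x' ∈ Wd r y c := by
  refine ⟨hc.trans (hy.trans_le hx'), fun b hb => ?_, ?_⟩
  · rw [← hxx b (hb.trans_lt (hc.trans hy))]
    exact h.2.1 b hb
  · rcases h.2.2 with h1 | ⟨d, h1, h2, h3, h4⟩
    · exact absurd (hy.trans_le (hx.trans h1.1)) (lt_irrefl _)
    · refine Or.inr ⟨d, h1, h1.trans (hy.trans_le hx'), fun b hb => ?_, ?_⟩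
      · rw [← hxx b (hb.trans (h1.trans hy))]
        exact h3 b hb
      · rw [← hxx d (h1.trans hy)]
        exact h4

/-- countable many restrictions -/
theorem countable_level (hc : ∀ a : W, (Set.Iio a).Countable)
    (he : ∀ a b, b < a → {c | c < b ∧ e a c ≠ e b c}.Finite) (d : W) :
    {h : W → ℕ | ∃ x : Node e, d ≤ x.ht ∧ h = fun c => if c < d then x.fn c else 0}.Countable := by
  classical
  have hcount : ({t : Set (W × ℕ) | t.Finite ∧ t ⊆ (Set.Iio d) ×ˢ (Set.univ : Set ℕ)}).Countable :=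
    Set.countable_ofPred_finite_subset ((hc d).prod Set.countable_univ)
  refine Set.MapsTo.countable_of_injOn
    (f := fun h : W → ℕ => {q : W × ℕ | q.1 < d ∧ h q.1 ≠ e d q.1 ∧ q.2 = h q.1}) ?_ ?_ hcount
  · rintro h ⟨x, hdx, rfl⟩
    refine ⟨?_, ?_⟩
    · have h1 : {c | c < d ∧ e x.ht c ≠ e d c}.Finite := by
        rcases hdx.lt_or_eq with h | h
        · exact he _ _ h
        · subst h
          simp
      refine ((x.fin.union h1).image (fun c => (c, x.fn c))).subset ?_
      rintro ⟨c, k⟩ ⟨h1, h2, h3⟩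
      simp only [h1, if_true] at h2 h3
      refine ⟨c, ?_, by simp [h3]⟩
      by_cases h4 : x.fn c = e x.ht c
      · right
        exact ⟨h1, by rw [← h4]; exact h2⟩
      · left
        exact ⟨h1.trans_le hdx, h4⟩
    · rintro ⟨c, k⟩ ⟨h1, _, _⟩
      exact ⟨h1, trivial⟩
  · rintro h ⟨a, hda, rfl⟩ g ⟨b, hdb, rfl⟩ heq
    funext c
    by_cases hcd : c < d
    · simp only [hcd, if_true]
      have key : ∀ q : W × ℕ, (q.1 < d ∧ (if q.1 < d then a.fn q.1 else 0) ≠ e d q.1 ∧
          q.2 = (if q.1 < d then a.fn q.1 else 0)) ↔ (q.1 < d ∧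
          (if q.1 < d then b.fn q.1 else 0) ≠ e d q.1 ∧
          q.2 = (if q.1 < d then b.fn q.1 else 0)) := fun q => Set.ext_iff.mp heq q
      by_cases h1 : a.fn c = e d c
      · by_cases h2 : b.fn c = e d c
        · rw [h1, h2]
        · have h3 := (key (c, b.fn c)).mpr ⟨hcd, by simpa [hcd] using h2, by simp [hcd]⟩
          have h4 : b.fn c = a.fn c := by
            have := h3.2.2
            simpa [hcd] using this
          exact h4.symm
      · have h3 := (key (c, a.fn c)).mp ⟨hcd, by simpa [hcd] using h1, by simp [hcd]⟩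
        have := h3.2.2
        simpa [hcd] using this
    · simp [hcd]

end Pool.Agent.TH784.Roth
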