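import Mathlib
import Pool.Agent.TH784.RothBase

/-!
The covering lemma: the wedge topologies on the nodes of a coherent Aronszajn tree are Lindelöf.
-/

set_option autoImplicit false
set_option linter.unusedSectionVars false

namespace Pool.Agent.TH784.Roth

open Set

variable {W : Type} [LinearOrder W] [WellFoundedLT W] {e : W → W → ℕ}

theorem Iic_countable (hc : ∀ a : W, (Set.Iio a).Countable) (a : W) : (Set.Iic a).Countable := by
  rw [← Set.Iio_union_right]
  exact (hc a).union (Set.countable_singleton a)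

theorem exists_gt_of_countable (hc : ∀ a : W, (Set.Iio a).Countable)
    (hu : ¬ (Set.univ : Set W).Countable) {A : Set W} (hA : A.Countable) : ∃ d, ∀ a ∈ A, a < d := by
  by_contra hcon
  push Not at hcon
  apply hu
  refine (hA.biUnion (fun a _ => Iic_countable hc a)).mono ?_
  intro d _
  obtain ⟨a, ha, had⟩ := hcon d
  simp only [Set.mem_iUnion]
  exact ⟨a, ha, had⟩

theorem exists_mem_gt (hc : ∀ a : W, (Set.Iio a).Countable) {S : Set W} (hS : ¬ S.Countable)
    (a : W) : ∃ b ∈ S, a < b := by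
  by_contra hcon
  push Not at hcon
  exact hS ((Iic_countable hc a).mono (fun b hb => hcon b hb))

/-- there is no uncountable branch -/
theorem no_branch (hc : ∀ a : W, (Set.Iio a).Countable) (hu : ¬ (Set.univ : Set W).Countable)
    (he1 : ∀ a k, {b | b < a ∧ e a b = k}.Finite) (b : W → ℕ)
    (hb : ∀ a, {c | c < a ∧ b c ≠ e a c}.Finite) : False := by
  have h1 : ∃ n, ¬ {c | b c = n}.Countable := by
    by_contra hcon
    push Not at hcon
    apply hu
    refine (Set.countable_iUnion hcon).mono ?_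
    intro c _
    exact Set.mem_iUnion.2 ⟨b c, rfl⟩
  obtain ⟨n, hn⟩ := h1
  have hinf : {c | b c = n}.Infinite := fun h => hn h.countable
  obtain ⟨a, ha⟩ := exists_gt_of_countable hc hu
    (Set.countable_range (fun k => (Set.Infinite.natEmbedding _ hinf k : W)))
  have hfin : {c | c < a ∧ b c = n}.Finite := by
    refine ((he1 a n).union (hb a)).subset ?_
    rintro c ⟨h1, h2⟩
    by_cases h3 : b c = e a c
    · left; exact ⟨h1, by rw [← h3]; exact h2⟩
    · right; exact ⟨h1, h3⟩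
  have hinj : Function.Injective (fun k => (Set.Infinite.natEmbedding _ hinf k : W)) :=
    Subtype.val_injective.comp (Set.Infinite.natEmbedding _ hinf).injective
  refine (Set.infinite_range_of_injective hinj) (hfin.subset ?_)
  rintro _ ⟨k, rfl⟩
  exact ⟨ha _ ⟨k, rfl⟩, (Set.Infinite.natEmbedding _ hinf k).2⟩

/-- there is no uncountable family which is decreasing for the lexicographic order in the weak
sense that later members extend or precede earlier ones -/
theorem no_decreasing (hc : ∀ a : W, (Set.Iio a).Countable) (hu : ¬ (Set.univ : Set W).Countable)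
    (he1 : ∀ a k, {b | b < a ∧ e a b = k}.Finite)
    (he : ∀ a b, b < a → {c | c < b ∧ e a c ≠ e b c}.Finite)
    {r : ℕ → ℕ → Prop} (hr : Good r) (S : Set W) (hS : ¬ S.Countable) (t : W → Node e)
    (ht : ∀ δ ∈ S, (t δ).ht = δ)
    (hP : ∀ δ ∈ S, ∀ δ' ∈ S, δ < δ' → (∀ b < δ, (t δ').fn b = (t δ).fn b) ∨
      ∃ d < δ, (∀ b < d, (t δ').fn b = (t δ).fn b) ∧ r ((t δ').fn d) ((t δ).fn d)) : False := by
  classical
  let R : W → Node e → (W → ℕ) := fun a x c => if c < a then x.fn c else 0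
  have hR : ∀ a x y, R a x = R a y → ∀ c < a, x.fn c = y.fn c := by
    intro a x y h c hca
    have := congrFun h c
    simpa [R, hca] using this
  let F : W → (W → ℕ) → Set W := fun a h => {δ | δ ∈ S ∧ a ≤ δ ∧ R a (t δ) = h}
  -- two different restrictions cannot both occur uncountably often
  have hA : ∀ a h h', ¬ (F a h).Countable → ¬ (F a h').Countable → h = h' := by
    intro a h h' hh hh'
    by_contra hne
    obtain ⟨δ1, ⟨hδ1, ha1, hR1⟩, _⟩ := exists_mem_gt hc hh a
    obtain ⟨δ2, ⟨hδ2, ha2, hR2⟩, h12⟩ := exists_mem_gt hc hh' δ1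
    obtain ⟨δ3, ⟨hδ3, ha3, hR3⟩, h23⟩ := exists_mem_gt hc hh δ2
    have hval : ∀ δ k, R a (t δ) = k → ∀ b < a, (t δ).fn b = k b := by
      intro δ k hk b hb
      rw [← hk]; simp [R, hb]
    have hzero : ∀ δ k, R a (t δ) = k → ∀ b, a ≤ b → k b = 0 := by
      intro δ k hk b hb
      rw [← hk]; simp [R, not_lt.2 hb]
    have hex : ∃ b < a, h b ≠ h' b := by
      by_contra hcon
      push Not at hcon
      apply hne
      funext b
      rcases lt_or_ge b a with hb | hb
      · exact hcon b hb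
      · rw [hzero δ1 h hR1 b hb, hzero δ2 h' hR2 b hb]
    obtain ⟨d, hda, hd1, hd2⟩ := first_diff h h' a hex
    have key : ∀ δ δ' k k', δ ∈ S → δ' ∈ S → δ < δ' → a ≤ δ → a ≤ δ' → R a (t δ) = k →
        R a (t δ') = k' → (∀ b < d, k b = k' b) → k d ≠ k' d → r (k' d) (k d) := by
      intro δ δ' k k' hδ hδ' hlt haδ haδ' hk hk' hag hdf
      rcases hP δ hδ δ' hδ' hlt with h0 | ⟨d', hd', hag', hr'⟩
      · exfalso
        apply hdf
        rw [← hval δ k hk d hda, ← hval δ' k' hk' d hda]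
        exact (h0 d (hda.trans_le haδ)).symm
      · rcases lt_trichotomy d d' with h5 | h5 | h5
        · exfalso
          apply hdf
          rw [← hval δ k hk d hda, ← hval δ' k' hk' d hda]
          exact (hag' d h5).symm
        · subst h5
          rw [← hval δ k hk d hda, ← hval δ' k' hk' d hda]
          exact hr'
        · exfalso
          have h6 : (t δ').fn d' = (t δ).fn d' := by
            rw [hval δ k hk d' (h5.trans hda), hval δ' k' hk' d' (h5.trans hda)]
            exact (hag d' h5).symm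
          exact hr.ne hr' h6
    have k1 := key δ1 δ2 h h' hδ1 hδ2 h12 ha1 ha2 hR1 hR2 hd1 hd2
    have k2 := key δ2 δ3 h' h hδ2 hδ3 h23 ha2 ha3 hR2 hR3 (fun b hb => (hd1 b hb).symm)
      (fun h7 => hd2 h7.symm)
    exact hr.asymm _ _ k1 k2
  -- almost all restrictions are equal
  have hB : ∀ a, ∃ s : W → ℕ, {δ | δ ∈ S ∧ ¬ (a ≤ δ ∧ ∀ b < a, (t δ).fn b = s b)}.Countable := by
    intro a
    have hL := countable_level (e := e) hc he a
    have hcover : S ⊆ Set.Iio a ∪ ⋃ h ∈ {h : W → ℕ | ∃ x : Node e, a ≤ x.ht ∧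
        h = fun c => if c < a then x.fn c else 0}, F a h := by
      intro δ hδ
      rcases lt_or_ge δ a with h1 | h1
      · exact Or.inl h1
      · right
        simp only [Set.mem_iUnion]
        exact ⟨R a (t δ), ⟨t δ, by rw [ht δ hδ]; exact h1, rfl⟩, hδ, h1, rfl⟩
    have hex : ∃ h, ¬ (F a h).Countable := by
      by_contra hcon
      push Not at hcon
      exact hS (((hc a).union (hL.biUnion (fun h _ => hcon h))).mono hcover)
    obtain ⟨h, hh⟩ := hex
    refine ⟨h, ?_⟩
    have hcnt : (Set.Iio a ∪ ⋃ h' ∈ ({h : W → ℕ | ∃ x : Node e, a ≤ x.ht ∧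
        h = fun c => if c < a then x.fn c else 0} \ {h}), F a h').Countable := by
      refine (hc a).union ((hL.mono Set.sdiff_subset).biUnion ?_)
      intro h' hh'
      by_contra hcon
      exact hh'.2 (hA a h' h hcon hh)
    refine hcnt.mono ?_
    rintro δ ⟨hδ, hnot⟩
    rcases lt_or_ge δ a with h1 | h1
    · exact Or.inl h1
    · right
      simp only [Set.mem_iUnion]
      refine ⟨R a (t δ), ⟨⟨t δ, by rw [ht δ hδ]; exact h1, rfl⟩, ?_⟩, hδ, h1, rfl⟩
      intro heq
      apply hnot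
      refine ⟨h1, fun b hb => ?_⟩
      have : R a (t δ) = h := heq
      rw [← this]; simp [R, hb]
  have hC : ∀ c, ∃ n, {δ | δ ∈ S ∧ (t δ).fn c ≠ n}.Countable := by
    intro c
    obtain ⟨a, ha⟩ := exists_gt_of_countable hc hu (Set.countable_singleton c)
    obtain ⟨s, hs⟩ := hB a
    refine ⟨s c, hs.mono ?_⟩
    rintro δ ⟨h1, h2⟩
    exact ⟨h1, fun h3 => h2 (h3.2 c (ha c rfl))⟩
  choose b hb using hC
  refine no_branch hc hu he1 b (fun a => ?_)
  have h1 : {δ | δ ∈ S ∧ ¬ (a ≤ δ ∧ ∀ c < a, (t δ).fn c = b c)}.Countable := by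
    have h2 : (Set.Iio a ∪ ⋃ c ∈ Set.Iio a, {δ | δ ∈ S ∧ (t δ).fn c ≠ b c}).Countable :=
      (hc a).union ((hc a).biUnion (fun c _ => hb c))
    refine h2.mono ?_
    rintro δ ⟨h3, h4⟩
    rcases lt_or_ge δ a with h5 | h5
    · exact Or.inl h5
    · right
      have : ∃ c < a, (t δ).fn c ≠ b c := by
        by_contra hcon
        push Not at hcon
        exact h4 ⟨h5, hcon⟩
      obtain ⟨c, hca, hcb⟩ := this
      simp only [Set.mem_iUnion]
      exact ⟨c, hca, h3, hcb⟩
  have h2 : ∃ δ ∈ S, a ≤ δ ∧ ∀ c < a, (t δ).fn c = b c := by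
    by_contra hcon
    push Not at hcon
    apply hS
    refine h1.mono ?_
    intro δ hδ
    refine ⟨hδ, ?_⟩
    rintro ⟨h3, h4⟩
    obtain ⟨c, hca, hcb⟩ := hcon δ hδ h3
    exact hcb (h4 c hca)
  obtain ⟨δ, hδ, haδ, hδb⟩ := h2
  have h3 : {c | c < a ∧ e δ c ≠ e a c}.Finite := by
    rcases haδ.lt_or_eq with h | h
    · exact he _ _ h
    · subst h
      simp
  have h4 := (t δ).fin
  rw [ht δ hδ] at h4
  refine (h4.union h3).subset ?_
  rintro c ⟨h5, h6⟩
  by_cases h7 : (t δ).fn c = e δ c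
  · right
    exact ⟨h5, by rw [← h7, hδb c h5]; exact h6⟩
  · left
    exact ⟨h5.trans_le haδ, h7⟩

/-- the covering lemma -/
theorem cover_low (hc : ∀ a : W, (Set.Iio a).Countable) (hu : ¬ (Set.univ : Set W).Countable)
    (he1 : ∀ a k, {b | b < a ∧ e a b = k}.Finite)
    (he : ∀ a b, b < a → {c | c < b ∧ e a c ≠ e b c}.Finite)
    {r : ℕ → ℕ → Prop} (hr : Good r) (ρ : Node e → W) (hρ : ∀ x, ρ x < x.ht) :
    ∃ δ, ∀ x : Node e, ∃ y : Node e, y.ht < δ ∧ x ∈ Wd r y (ρ y) := by
  classical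
  by_contra hcon
  push Not at hcon
  have hne : Nonempty W := by
    by_contra h
    rw [not_nonempty_iff] at h
    exact hu (Set.toFinite _).countable
  obtain ⟨b0, -, hb0⟩ := wellFounded_lt.has_min (Set.univ : Set W) Set.univ_nonempty
  have hb0' : ∀ b, b0 ≤ b := fun b => not_lt.1 (hb0 b trivial)
  have hex : ∀ δ, b0 < δ → ∃ t : Node e, t.ht = δ ∧ ∀ y : Node e, y.ht < δ → t ∉ Wd r y (ρ y) := by
    intro δ hδ
    obtain ⟨x, hx⟩ := hcon δ
    have hxδ : δ ≤ x.ht := by
      by_contra h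
      push Not at h
      exact hx x h (mem_Wd_self r x (hρ x))
    obtain ⟨y, hy1, hy2⟩ := exists_restrict he x δ hxδ ⟨b0, hδ⟩
    refine ⟨y, hy1, fun z hz hyz => hx z hz ?_⟩
    exact mem_Wd_congr hz hy1.ge hxδ hy2 (hρ z) hyz
  have hex' : ∀ δ, ∃ t : Node e, b0 < δ → t.ht = δ ∧ ∀ y : Node e, y.ht < δ → t ∉ Wd r y (ρ y) := by
    intro δ
    by_cases h : b0 < δ
    · obtain ⟨t, ht⟩ := hex δ h
      exact ⟨t, fun _ => ht⟩
    · obtain ⟨d, hd⟩ := exists_gt_of_countable hc hu (Set.countable_singleton b0)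
      obtain ⟨t, _⟩ := hex d (hd b0 rfl)
      exact ⟨t, fun h' => absurd h' h⟩
  choose t ht using hex'
  obtain ⟨g, hg⟩ := Helper996.Dowker.pressing_down hc hu b0 (fun δ => ρ (t δ)) (fun δ hδ => by
    have := hρ (t δ)
    rw [(ht δ hδ).1] at this
    exact this)
  obtain ⟨γ, hγ⟩ := exists_gt_of_countable hc hu (Set.countable_singleton g)
  have hγ' : g < γ := hγ g rfl
  -- same restriction
  let R : Node e → (W → ℕ) := fun x c => if c < γ then x.fn c else 0
  have hL := countable_level (e := e) hc he γ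
  have hex2 : ∃ h : W → ℕ, ¬ {δ | b0 < δ ∧ ρ (t δ) = g ∧ γ ≤ δ ∧ R (t δ) = h}.Countable := by
    by_contra hcon2
    push Not at hcon2
    apply hg
    refine ((hc γ).union (hL.biUnion (fun h _ => hcon2 h))).mono ?_
    rintro δ ⟨h1, h2⟩
    rcases lt_or_ge δ γ with h3 | h3
    · exact Or.inl h3
    · right
      simp only [Set.mem_iUnion]
      exact ⟨R (t δ), ⟨t δ, by rw [(ht δ h1).1]; exact h3, rfl⟩, h1, h2, h3, rfl⟩
  obtain ⟨h, hh⟩ := hex2
  refine no_decreasing hc hu he1 he hr _ hh t (fun δ hδ => (ht δ hδ.1).1) ?_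
  rintro δ ⟨h1, h2, h3, h4⟩ δ' ⟨h1', h2', h3', h4'⟩ hlt
  by_cases hd : ∃ b < δ, (t δ').fn b ≠ (t δ).fn b
  · right
    obtain ⟨d, hd1, hd2, hd3⟩ := first_diff _ _ _ hd
    refine ⟨d, hd1, hd2, ?_⟩
    rcases hr.tri _ _ hd3 with h5 | h5
    · exact h5
    · exfalso
      have hnot := (ht δ' h1').2 (t δ) (by rw [(ht δ h1).1]; exact hlt)
      apply hnot
      refine ⟨?_, fun b hb => ?_, Or.inr ⟨d, ?_, ?_, hd2, h5⟩⟩
      · rw [(ht δ' h1').1, h2]
        exact hγ'.trans_le h3'
      · rw [h2] at hb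
        have hbγ : b < γ := hb.trans_lt hγ'
        have := congrFun (h4'.trans h4.symm) b
        simpa [R, hbγ] using this
      · rw [(ht δ h1).1]; exact hd1
      · rw [(ht δ' h1').1]; exact hd1.trans hlt
  · left
    push Not at hd
    exact hd

end Pool.Agent.TH784.Roth
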