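import Mathlib
import Pool.Agent.TH784.RothKey

/-!
The disjoint union of the two wedge topologies on the nodes of a coherent Aronszajn tree.
-/

set_option autoImplicit false
set_option linter.unusedSectionVars false

namespace Pool.Agent.TH784.Roth

open Set Topology Cardinal

/-- the two strict orders on the natural numbers -/
def sgn (b : Bool) (m n : ℕ) : Prop := if b = true then m < n else n < m

theorem good_sgn (b : Bool) : Good (sgn b) := by
  cases b
  · refine ⟨fun m n h => ?_, fun m n h => ?_⟩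
    · simp only [sgn] at *
      rcases lt_or_gt_of_ne h with h | h
      · exact Or.inr h
      · exact Or.inl h
    · simp only [sgn] at *
      exact not_lt.2 (le_of_lt h)
  · refine ⟨fun m n h => ?_, fun m n h => ?_⟩
    · simp only [sgn] at *
      rcases lt_or_gt_of_ne h with h | h
      · exact Or.inl h
      · exact Or.inr h
    · simp only [sgn] at *
      exact not_lt.2 (le_of_lt h)

variable {W : Type} [LinearOrder W] [WellFoundedLT W]

/-- two copies of the set of nodes -/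
def Dbl (e : W → W → ℕ) : Type := Node e × Bool

variable {e : W → W → ℕ}

/-- basic neighbourhoods -/
def Nb (z : Dbl e) (c : W) : Set (Dbl e) := {w | w.2 = z.2 ∧ w.1 ∈ Wd (sgn z.2) z.1 c}

theorem mem_Nb_self (z : Dbl e) {c : W} (hc : c < z.1.ht) : z ∈ Nb z c :=
  ⟨rfl, mem_Wd_self _ _ hc⟩

theorem Nb_anti (z : Dbl e) {c c' : W} (h : c ≤ c') : Nb z c' ⊆ Nb z c := fun _ hw =>
  ⟨hw.1, Wd_anti _ _ h hw.2⟩

instance topDbl : TopologicalSpace (Dbl e) where
  IsOpen U := ∀ z ∈ U, ∃ c < z.1.ht, Nb z c ⊆ U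
  isOpen_univ := fun z _ => by
    obtain ⟨c, hc⟩ := z.1.pos
    exact ⟨c, hc, subset_univ _⟩
  isOpen_inter := fun U V hU hV z hz => by
    obtain ⟨c, hc, hc'⟩ := hU z hz.1
    obtain ⟨d, hd, hd'⟩ := hV z hz.2
    exact ⟨max c d, max_lt hc hd, fun w hw => ⟨hc' (Nb_anti z (le_max_left _ _) hw),
      hd' (Nb_anti z (le_max_right _ _) hw)⟩⟩
  isOpen_sUnion := fun S hS z hz => by
    obtain ⟨U, hU, hzU⟩ := hz
    obtain ⟨c, hc, hc'⟩ := hS U hU z hzU
    exact ⟨c, hc, hc'.trans (subset_sUnion_of_mem hU)⟩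

theorem isOpen_iff' {U : Set (Dbl e)} : IsOpen U ↔ ∀ z ∈ U, ∃ c < z.1.ht, Nb z c ⊆ U := Iff.rfl

theorem isOpen_Nb (z : Dbl e) (c : W) : IsOpen (Nb z c) := by
  rintro w ⟨hw, hw'⟩
  obtain ⟨c', hc', h⟩ := Wd_open (sgn z.2) z.1 c w.1 hw'
  refine ⟨c', hc', fun v hv => ⟨hv.1.trans hw, h ?_⟩⟩
  have := hv.2
  rw [hw] at this
  exact this

theorem isClosed_Nb (z : Dbl e) (c : W) : IsClosed (Nb z c) := by
  rw [← isOpen_compl_iff]
  intro w hw
  by_cases h : w.2 = z.2
  · have hw' : w.1 ∉ Wd (sgn z.2) z.1 c := fun h' => hw ⟨h, h'⟩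
    obtain ⟨c', hc', h'⟩ := Wd_closed (good_sgn z.2) z.1 c w.1 hw'
    refine ⟨c', hc', fun v hv hv' => ?_⟩
    have := hv.2
    rw [h] at this
    exact h' _ this hv'.2
  · obtain ⟨c', hc'⟩ := w.1.pos
    exact ⟨c', hc', fun v hv hv' => h (hv.1.symm.trans hv'.1)⟩

theorem isClopen_Nb (z : Dbl e) (c : W) : IsClopen (Nb z c) := ⟨isClosed_Nb z c, isOpen_Nb z c⟩

theorem nhds_basis (z : Dbl e) : (𝓝 z).HasBasis (fun c => c < z.1.ht) (Nb z) := by
  refine ⟨fun U => ⟨fun hU => ?_, fun ⟨c, hc, h⟩ => ?_⟩⟩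
  · obtain ⟨V, hV, hVo, hzV⟩ := mem_nhds_iff.1 hU
    obtain ⟨c, hc, h⟩ := isOpen_iff'.1 hVo z hzV
    exact ⟨c, hc, h.trans hV⟩
  · exact Filter.mem_of_superset ((isOpen_Nb z c).mem_nhds (mem_Nb_self z hc)) h

theorem firstCountable (hc : ∀ a : W, (Set.Iio a).Countable) : FirstCountableTopology (Dbl e) :=
  ⟨fun z => (Filter.HasCountableBasis.mk (nhds_basis z) (hc z.1.ht)).isCountablyGenerated⟩

theorem clopen_base (z : Dbl e) (U : Set (Dbl e)) (hU : IsOpen U) (hz : z ∈ U) :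
    ∃ V, IsClopen V ∧ z ∈ V ∧ V ⊆ U := by
  obtain ⟨c, hc, h⟩ := isOpen_iff'.1 hU z hz
  exact ⟨Nb z c, isClopen_Nb z c, mem_Nb_self z hc, h⟩

theorem t2 : T2Space (Dbl e) := by
  refine ⟨fun z w hzw => ?_⟩
  by_cases h : z.2 = w.2
  · have hne : z.1 ≠ w.1 := fun h' => hzw (Prod.ext h' h)
    obtain ⟨c, hc, c', hc', hd⟩ := Wd_sep (good_sgn z.2) (good_sgn w.2) z.1 w.1 hne
    exact ⟨Nb z c, Nb w c', isOpen_Nb _ _, isOpen_Nb _ _, mem_Nb_self _ hc, mem_Nb_self _ hc',
      Set.disjoint_left.2 fun v hv hv' => hd _ hv.2 hv'.2⟩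
  · obtain ⟨c, hc⟩ := z.1.pos
    obtain ⟨c', hc'⟩ := w.1.pos
    exact ⟨Nb z c, Nb w c', isOpen_Nb _ _, isOpen_Nb _ _, mem_Nb_self _ hc, mem_Nb_self _ hc',
      Set.disjoint_left.2 fun v hv hv' => h (hv.1.symm.trans hv'.1)⟩

/-- countably many nodes of height at most `a` -/
theorem countable_low (hc : ∀ a : W, (Set.Iio a).Countable)
    (he : ∀ a b, b < a → {c | c < b ∧ e a c ≠ e b c}.Finite) (a : W) :
    {x : Node e | x.ht ≤ a}.Countable := by
  classical
  have h1 : ∀ d, {x : Node e | x.ht = d}.Countable := by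
    intro d
    refine Set.MapsTo.countable_of_injOn (f := fun x : Node e => x.fn) ?_ ?_
      (countable_level (e := e) hc he d)
    · intro x hx
      refine ⟨x, (show x.ht = d from hx).ge, ?_⟩
      funext c
      by_cases h : c < d
      · simp [h]
      · simp only [if_neg h]
        exact x.zero ((show x.ht = d from hx).le.trans (not_lt.1 h))
    · intro x hx y hy hxy
      exact Node.ext' ((show x.ht = d from hx).trans (show y.ht = d from hy).symm)
        (fun c _ => congrFun hxy c)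
  refine ((Iic_countable hc a).biUnion (fun d _ => h1 d)).mono ?_
  intro x hx
  simp only [Set.mem_iUnion]
  exact ⟨x.ht, hx, rfl⟩

theorem rothberger (hc : ∀ a : W, (Set.Iio a).Countable) (hu : ¬ (Set.univ : Set W).Countable)
    (he1 : ∀ a k, {b | b < a ∧ e a b = k}.Finite)
    (he : ∀ a b, b < a → {c | c < b ∧ e a c ≠ e b c}.Finite)
    (𝒰 : ℕ → Set (Set (Dbl e))) (h𝒰 : ∀ n, (∀ U ∈ 𝒰 n, IsOpen U) ∧ ⋃₀ 𝒰 n = Set.univ) :
    ∃ U : ℕ → Set (Dbl e), (∀ n, U n ∈ 𝒰 n) ∧ ⋃ n, U n = Set.univ := by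
  classical
  have h1 : ∀ n (z : Dbl e), ∃ V ∈ 𝒰 n, ∃ c < z.1.ht, Nb z c ⊆ V := by
    intro n z
    have : z ∈ ⋃₀ 𝒰 n := by rw [(h𝒰 n).2]; trivial
    obtain ⟨V, hV, hzV⟩ := this
    obtain ⟨c, hc, h⟩ := isOpen_iff'.1 ((h𝒰 n).1 V hV) z hzV
    exact ⟨V, hV, c, hc, h⟩
  choose V hV ρ hρ hρV using h1
  have h2 : ∀ n (b : Bool), ∃ δ, ∀ x : Node e, ∃ y : Node e, y.ht < δ ∧
      x ∈ Wd (sgn b) y (ρ n (y, b)) := fun n b =>
    cover_low hc hu he1 he (good_sgn b) (fun y => ρ n (y, b)) (fun y => hρ n (y, b))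
  choose D hD using h2
  obtain ⟨δ, hδ⟩ := exists_gt_of_countable hc hu
    (Set.countable_range (fun q : ℕ × Bool => D q.1 q.2))
  have hcount : {z : Dbl e | z.1.ht ≤ δ}.Countable := by
    have : {z : Dbl e | z.1.ht ≤ δ} = {x : Node e | x.ht ≤ δ} ×ˢ (Set.univ : Set Bool) := by
      ext z
      exact ⟨fun h => ⟨h, trivial⟩, fun h => h.1⟩
    rw [this]
    exact (countable_low hc he δ).prod Set.countable_univ
  -- there is a node of height at most `δ`
  have hne : {z : Dbl e | z.1.ht ≤ δ}.Nonempty := by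
    have hpos : ∃ c, c < δ := ⟨D 0 true, hδ _ ⟨(0, true), rfl⟩⟩
    exact ⟨(⟨(δ, fun c => if c < δ then e δ c else 0), hpos, fun c hc => if_neg (not_lt.2 hc), by
      have : {c | c < δ ∧ (if c < δ then e δ c else 0) ≠ e δ c} = ∅ := by
        ext c
        simp only [Set.mem_ofPred_eq, Set.mem_empty_iff_false, iff_false, not_and]
        intro h
        simp [h]
      show {c | c < δ ∧ (if c < δ then e δ c else 0) ≠ e δ c}.Finite
      rw [this]
      exact Set.finite_empty⟩, true), (le_rfl : δ ≤ δ)⟩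
  obtain ⟨f, hf⟩ := hcount.exists_eq_range hne
  have h3 : ∀ n, ∃ y : Node e, y.ht < δ ∧ (f n).1 ∈ Wd (sgn (f n).2) y (ρ n (y, (f n).2)) := by
    intro n
    obtain ⟨y, hy, hy'⟩ := hD n (f n).2 (f n).1
    exact ⟨y, hy.trans (hδ _ ⟨(n, (f n).2), rfl⟩), hy'⟩
  choose y hy hy' using h3
  refine ⟨fun n => V n (y n, (f n).2), fun n => hV _ _, ?_⟩
  ext z
  simp only [Set.mem_iUnion, Set.mem_univ, iff_true]
  by_cases hz : z.1.ht ≤ δ
  · have : z ∈ Set.range f := by rw [← hf]; exact hz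
    obtain ⟨n, rfl⟩ := this
    exact ⟨n, hρV n (y n, (f n).2) ⟨rfl, hy' n⟩⟩
  · push Not at hz
    obtain ⟨x, hx1, hx2⟩ := exists_restrict he z.1 δ hz.le ⟨_, hδ _ ⟨(0, true), rfl⟩⟩
    have : ((x, z.2) : Dbl e) ∈ Set.range f := by rw [← hf]; exact hx1.le
    obtain ⟨n, hn⟩ := this
    refine ⟨n, hρV n (y n, (f n).2) ⟨?_, ?_⟩⟩
    · show z.2 = (f n).2
      rw [hn]
    · have h4 := hy' n
      have h5 : (f n).1 = x := by rw [hn]
      have h6 := mem_Wd_congr (x' := z.1) (hy n) (x := (f n).1) (by rw [h5, hx1]) hz.le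
        (by rw [h5]; exact hx2) (hρ n (y n, (f n).2)) h4
      exact h6

/-- the diagonal of an open set -/
def Dg (U : Set (Dbl e)) : Set (Node e) := {x | ∀ b : Bool, ((x, b) : Dbl e) ∈ U}

theorem countable_both (hc : ∀ a : W, (Set.Iio a).Countable) (x : Node e) (c c' : W) (b : Bool) :
    (Wd (sgn b) x c ∩ Wd (sgn !b) x c').Countable := by
  have h1 : (Wd (sgn b) x c ∩ Wd (sgn !b) x c') ⊆ {y | Below y x} := by
    rintro y ⟨hy, hy'⟩
    rcases hy.2.2 with h | ⟨d, h1, h2, h3, h4⟩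
    · exact h
    · rcases hy'.2.2 with h | ⟨d', h1', h2', h3', h4'⟩
      · exact h
      · exfalso
        have hdd : d = d' := by
          rcases lt_trichotomy d d' with h | h | h
          · have := h3' d h
            rw [this] at h4
            exact absurd h4 (fun h5 => (good_sgn b).ne h5 rfl)
          · exact h
          · have := h3 d' h
            rw [this] at h4'
            exact absurd h4' (fun h5 => (good_sgn _).ne h5 rfl)
        subst hdd
        cases b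
        · simp only [sgn] at h4 h4'
          exact absurd h4 (not_lt.2 (le_of_lt h4'))
        · simp only [sgn] at h4 h4'
          exact absurd h4 (not_lt.2 (le_of_lt h4'))
  refine Set.Countable.mono h1 ?_
  refine Set.MapsTo.countable_of_injOn (f := fun y : Node e => y.ht) (t := Set.Iic x.ht) ?_ ?_
    (Iic_countable hc _)
  · intro y hy
    exact hy.1
  · intro y hy z hz hyz
    refine Node.ext' hyz (fun b hb => ?_)
    rw [hy.2 b hb, hz.2 b ((show y.ht = z.ht from hyz) ▸ hb)]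

theorem exists_bound (x : Node e) (F : Set (Node e)) (hF : F.Finite) (k : Node e → W)
    (hk : ∀ y ∈ F, k y < x.ht) : ∃ c < x.ht, ∀ y ∈ F, k y ≤ c := by
  induction F, hF using Set.Finite.induction_on with
  | empty =>
    obtain ⟨c, hc⟩ := x.pos
    exact ⟨c, hc, fun y hy => absurd hy (Set.notMem_empty y)⟩
  | insert _ _ ih =>
    obtain ⟨c, hc, h⟩ := ih (fun y hy => hk y (Set.mem_insert_of_mem _ hy))
    refine ⟨max c (k _), max_lt hc (hk _ (Set.mem_insert _ _)), fun y hy => ?_⟩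
    rcases Set.mem_insert_iff.1 hy with rfl | hy
    · exact le_max_right _ _
    · exact (h y hy).trans (le_max_left _ _)

theorem omega_cover (hc : ∀ a : W, (Set.Iio a).Countable) (F : Set (Dbl e)) (hF : F.Finite) :
    ∃ U : Set (Dbl e), IsOpen U ∧ (Dg U).Countable ∧ F ⊆ U := by
  classical
  have hsep : ∀ (b b' : Bool) (x y : Node e), x ≠ y → ∃ c < x.ht, ∃ c' < y.ht,
      ∀ z, z ∈ Wd (sgn b) x c → z ∉ Wd (sgn b') y c' := fun b b' x y h =>
    Wd_sep (good_sgn b) (good_sgn b') x y h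
  -- separate pairs, in a symmetric way
  have hsep' : ∀ p q : Node e, ∃ k < p.ht, ∃ k' < q.ht, p ≠ q → ∀ b b' z,
      z ∈ Wd (sgn b) p k → z ∉ Wd (sgn b') q k' := by
    intro p q
    by_cases hpq : p = q
    · obtain ⟨c, hc⟩ := p.pos
      obtain ⟨c', hc'⟩ := q.pos
      exact ⟨c, hc, c', hc', fun h => absurd hpq h⟩
    · obtain ⟨c1, h1, c1', h1', H1⟩ := hsep true true p q hpq
      obtain ⟨c2, h2, c2', h2', H2⟩ := hsep true false p q hpq
      obtain ⟨c3, h3, c3', h3', H3⟩ := hsep false true p q hpq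
      obtain ⟨c4, h4, c4', h4', H4⟩ := hsep false false p q hpq
      refine ⟨max (max c1 c2) (max c3 c4), max_lt (max_lt h1 h2) (max_lt h3 h4),
        max (max c1' c2') (max c3' c4'), max_lt (max_lt h1' h2') (max_lt h3' h4'), ?_⟩
      intro _ b b' z hz hz'
      cases b <;> cases b'
      · exact H4 z (Wd_anti _ _ ((le_max_right _ _).trans (le_max_right _ _)) hz)
          (Wd_anti _ _ ((le_max_right _ _).trans (le_max_right _ _)) hz')
      · exact H3 z (Wd_anti _ _ ((le_max_left _ _).trans (le_max_right _ _)) hz)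
          (Wd_anti _ _ ((le_max_left _ _).trans (le_max_right _ _)) hz')
      · exact H2 z (Wd_anti _ _ ((le_max_right _ _).trans (le_max_left _ _)) hz)
          (Wd_anti _ _ ((le_max_right _ _).trans (le_max_left _ _)) hz')
      · exact H1 z (Wd_anti _ _ ((le_max_left _ _).trans (le_max_left _ _)) hz)
          (Wd_anti _ _ ((le_max_left _ _).trans (le_max_left _ _)) hz')
  choose k hk k' hk' hkk using hsep'
  let G : Set (Node e) := Prod.fst '' F
  have hG : G.Finite := hF.image _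
  have hb : ∀ x : Node e, ∃ c < x.ht, ∀ y ∈ G, max (k x y) (k' y x) ≤ c := fun x =>
    exists_bound x G hG (fun y => max (k x y) (k' y x)) (fun y _ => max_lt (hk x y) (hk' y x))
  choose m hm hm' using hb
  refine ⟨⋃ z ∈ F, Nb z (m z.1), isOpen_biUnion (fun z _ => isOpen_Nb _ _), ?_, fun z hz =>
    Set.mem_biUnion hz (mem_Nb_self z (hm z.1))⟩
  have hcnt : (⋃ x ∈ G, (Wd (sgn true) x (m x) ∩ Wd (sgn !true) x (m x))).Countable :=
    hG.countable.biUnion (fun x _ => countable_both hc x _ _ true)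
  refine hcnt.mono ?_
  intro x hx
  have h1 : ((x, true) : Dbl e) ∈ ⋃ z ∈ F, Nb z (m z.1) := hx true
  have h2 : ((x, false) : Dbl e) ∈ ⋃ z ∈ F, Nb z (m z.1) := hx false
  obtain ⟨z, hz, hz1, hz2⟩ := Set.mem_iUnion₂.1 h1
  obtain ⟨w, hw, hw1, hw2⟩ := Set.mem_iUnion₂.1 h2
  have hz1' : z.2 = true := hz1.symm
  have hw1' : w.2 = false := hw1.symm
  rw [hz1'] at hz2
  rw [hw1'] at hw2
  have hzw : z.1 = w.1 := by
    by_contra hne
    have hzG : z.1 ∈ G := ⟨z, hz, rfl⟩
    have hwG : w.1 ∈ G := ⟨w, hw, rfl⟩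
    exact hkk z.1 w.1 hne true false x
      (Wd_anti _ _ ((le_max_left _ _).trans (hm' z.1 w.1 hwG)) hz2)
      (Wd_anti _ _ ((le_max_right _ _).trans (hm' w.1 z.1 hzG)) hw2)
  simp only [Set.mem_iUnion]
  refine ⟨z.1, ⟨z, hz, rfl⟩, hz2, ?_⟩
  rw [hzw]
  exact hw2

/-- uncountably many nodes -/
theorem uncountable_nodes (hu : ¬ (Set.univ : Set W).Countable) : ¬ (Set.univ : Set (Node e)).Countable := by
  classical
  intro h
  have hne : Nonempty W := by
    by_contra h
    rw [not_nonempty_iff] at h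
    exact hu (Set.toFinite _).countable
  obtain ⟨b0, -, hb0⟩ := wellFounded_lt.has_min (Set.univ : Set W) Set.univ_nonempty
  have h1 : (Node.ht '' (Set.univ : Set (Node e))).Countable := h.image _
  apply hu
  refine (h1.union (Set.countable_singleton b0)).mono ?_
  intro δ _
  rcases (not_lt.1 (hb0 δ trivial)).eq_or_lt with h2 | h2
  · right; exact h2.symm
  · left
    refine ⟨⟨(δ, fun c => if c < δ then e δ c else 0), ⟨b0, h2⟩,
      fun c hc => if_neg (not_lt.2 hc), ?_⟩, trivial, rfl⟩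
    have : {c | c < δ ∧ (if c < δ then e δ c else 0) ≠ e δ c} = ∅ := by
      ext c
      simp only [Set.mem_ofPred_eq, Set.mem_empty_iff_false, iff_false, not_and]
      intro h
      simp [h]
    show {c | c < δ ∧ (if c < δ then e δ c else 0) ≠ e δ c}.Finite
    rw [this]
    exact Set.finite_empty

/-- the square is not Lindelöf -/
theorem square (hc : ∀ a : W, (Set.Iio a).Countable) (hu : ¬ (Set.univ : Set W).Countable) :
    ¬ LindelofSpace (Dbl e × Dbl e) := by
  classical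
  intro hL
  let T : Dbl e × Dbl e → Set (Dbl e × Dbl e) := fun p =>
    {q | q.1.2 = true ∧ q.2.2 = false ∧ q.1.1 = q.2.1}
  let D : Set (Dbl e × Dbl e) := {q | q.1.2 = true ∧ q.2.2 = false ∧ q.1.1 = q.2.1}
  have h1 : ∀ p : Dbl e × Dbl e, ∃ U : Set (Dbl e × Dbl e), IsOpen U ∧ p ∈ U ∧
      (U ∩ D).Countable := by
    intro p
    obtain ⟨c, hcp⟩ := p.1.1.pos
    obtain ⟨c', hcp'⟩ := p.2.1.pos
    by_cases h : p.1.1 = p.2.1
    · refine ⟨Nb p.1 c ×ˢ Nb p.2 c', (isOpen_Nb _ _).prod (isOpen_Nb _ _),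
        ⟨mem_Nb_self _ hcp, mem_Nb_self _ hcp'⟩, ?_⟩
      by_cases hb : p.1.2 = true ∧ p.2.2 = false
      · have h3 := countable_both hc p.1.1 c c' true
        refine Set.MapsTo.countable_of_injOn (f := fun q : Dbl e × Dbl e => q.1.1) ?_ ?_ h3
        · rintro q ⟨⟨hq1, hq2⟩, hq3, hq4, hq5⟩
          refine ⟨?_, ?_⟩
          · have := hq1.2
            rw [hb.1] at this
            exact this
          · have := hq2.2
            rw [hb.2, ← h] at this
            show q.1.1 ∈ _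
            rw [hq5]
            exact this
        · rintro q ⟨_, hq3, hq4, hq5⟩ q' ⟨_, hq3', hq4', hq5'⟩ hqq
          refine Prod.ext (Prod.ext hqq (hq3.trans hq3'.symm))
            (Prod.ext ?_ (hq4.trans hq4'.symm))
          rw [← hq5, ← hq5']
          exact hqq
      · have : (Nb p.1 c ×ˢ Nb p.2 c') ∩ D = ∅ := by
          ext q
          simp only [Set.mem_inter_iff, Set.mem_empty_iff_false, iff_false, not_and]
          rintro ⟨hq1, hq2⟩ ⟨hq3, hq4, _⟩
          exact hb ⟨hq1.1.symm.trans hq3, hq2.1.symm.trans hq4⟩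
        rw [this]
        exact Set.countable_empty
    · obtain ⟨k, hk, k', hk', hkk⟩ := Wd_sep (good_sgn p.1.2) (good_sgn p.2.2) p.1.1 p.2.1 h
      refine ⟨Nb p.1 k ×ˢ Nb p.2 k', (isOpen_Nb _ _).prod (isOpen_Nb _ _),
        ⟨mem_Nb_self _ hk, mem_Nb_self _ hk'⟩, ?_⟩
      have : (Nb p.1 k ×ˢ Nb p.2 k') ∩ D = ∅ := by
        ext q
        simp only [Set.mem_inter_iff, Set.mem_empty_iff_false, iff_false, not_and]
        rintro ⟨hq1, hq2⟩ ⟨_, _, hq5⟩
        refine hkk q.1.1 hq1.2 ?_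
        rw [hq5]
        exact hq2.2
      rw [this]
      exact Set.countable_empty
  choose U hU hpU hUc using h1
  obtain ⟨t, ht, ht'⟩ := (isLindelof_univ (X := Dbl e × Dbl e)).elim_countable_subcover U hU
    (fun p _ => Set.mem_iUnion.2 ⟨p, hpU p⟩)
  have hD : D.Countable := by
    refine (ht.biUnion (fun p _ => hUc p)).mono ?_
    intro q hq
    have := ht' (Set.mem_univ q)
    simp only [Set.mem_iUnion] at this ⊢
    obtain ⟨p, hp, hqp⟩ := this
    exact ⟨p, hp, hqp, hq⟩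
  apply uncountable_nodes (e := e) hu
  have h2 : ((fun q : Dbl e × Dbl e => q.1.1) '' D).Countable := hD.image _
  refine h2.mono ?_
  intro x _
  exact ⟨((x, true), (x, false)), ⟨rfl, rfl, rfl⟩, rfl⟩

theorem card_nodes (hc : ∀ a : W, (Set.Iio a).Countable) (hu : ¬ (Set.univ : Set W).Countable)
    (hW : #W = ℵ₁) (he : ∀ a b, b < a → {c | c < b ∧ e a c ≠ e b c}.Finite) :
    #(Dbl e) = ℵ₁ := by
  have h1 : #(Node e) ≤ ℵ₁ := by
    have h2 : #(Node e) = Cardinal.sum (fun a : W => #{x : Node e // x.ht = a}) := by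
      rw [← Cardinal.mk_sigma]
      exact Cardinal.mk_congr (Equiv.sigmaFiberEquiv (fun x : Node e => x.ht)).symm
    rw [h2]
    refine (Cardinal.sum_le_sum _ (fun _ => ℵ₀) (fun a => ?_)).trans ?_
    · rw [Cardinal.mk_le_aleph0_iff]
      have h6 : {x : Node e | x.ht = a}.Countable :=
        (countable_low hc he a).mono (fun x hx => (show x.ht = a from hx).le)
      exact h6.to_subtype
    · simp [hW, Cardinal.aleph0_le_aleph]
  have h3 : ℵ₁ ≤ #(Node e) := by
    by_contra hcon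
    push Not at hcon
    apply uncountable_nodes (e := e) hu
    rw [← Cardinal.le_aleph0_iff_set_countable, Cardinal.mk_univ]
    exact Cardinal.lt_aleph_one_iff.1 hcon
  have h4 : #(Node e) = ℵ₁ := le_antisymm h1 h3
  have h5 : #(Dbl e) = #(Node e) * #Bool := Cardinal.mk_prod _ _ |>.trans (by simp)
  rw [h5, h4, Cardinal.mk_bool]
  exact Cardinal.mul_eq_left (Cardinal.aleph0_le_aleph 1)
    ((Cardinal.ofNat_lt_aleph0 (n := 2)).le.trans (Cardinal.aleph0_le_aleph 1)) two_ne_zero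

end Pool.Agent.TH784.Roth
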